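import Pool.Agent.Lib.MP_51bb46_lc.B.Defs

/-!
Few modular gates (namespace `FrM`): formulas with gates of unbounded fan-in, derivations by sound
schematic inferences.
-/

set_option linter.unusedSectionVars false

namespace FrM

open Fr56

/-- formulas over the connectives `¬, ∧, ∨` and gates; a gate applies a Boolean function `φ` of `m`
arguments (`m` is arbitrary) to the formulas `a 0, ..., a (m - 1)` -/
inductive Gf (V : Type) : Type where
  | var (v : V) : Gf V
  | neg (f : Gf V) : Gf V
  | and (f g : Gf V) : Gf V
  | or (f g : Gf V) : Gf V
  | gate (m : ℕ) (φ : (Fin m → Bool) → Bool) (a : Fin m → Gf V) : Gf V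

namespace Gf

variable {V W : Type}

/-- truth value under an assignment -/
def eval (x : V → Bool) : Gf V → Bool
  | var v => x v
  | neg f => !(eval x f)
  | and f g => eval x f && eval x g
  | or f g => eval x f || eval x g
  | gate _ φ a => φ fun i => eval x (a i)

/-- simultaneous substitution of formulas for variables -/
def subst (σ : V → Gf W) : Gf V → Gf W
  | var v => σ v
  | neg f => neg (subst σ f)
  | and f g => and (subst σ f) (subst σ g)
  | or f g => or (subst σ f) (subst σ g)
  | gate m φ a => gate m φ fun i => subst σ (a i)

/-- the formulas without gates -/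
def ofFm : Fm V → Gf V
  | .var v => var v
  | .neg f => neg (ofFm f)
  | .and f g => and (ofFm f) (ofFm g)
  | .or f g => or (ofFm f) (ofFm g)

/-- the set of subformulas, the formula itself included -/
def subs : Gf V → Set (Gf V)
  | var v => {var v}
  | neg f => insert (neg f) (subs f)
  | and f g => insert (and f g) (subs f ∪ subs g)
  | or f g => insert (or f g) (subs f ∪ subs g)
  | gate m φ a => insert (gate m φ a) (⋃ i, subs (a i))

/-- number of connectives and gates -/
def conn : Gf V → ℕ
  | var _ => 0
  | neg f => conn f + 1
  | and f g => conn f + conn g + 1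
  | or f g => conn f + conn g + 1
  | gate _ _ a => (∑ i, conn (a i)) + 1

/-- the formula is a gate -/
def IsGate : Gf V → Prop
  | gate _ _ _ => True
  | _ => False

/-- the gates of a formula: all its subformulas that are gates (also those inside of other gates) -/
def gates (f : Gf V) : Set (Gf V) := {g | g ∈ subs f ∧ IsGate g}

/-- alternation depth outside of the gates, when the outermost block of binary connectives should
be of type `b` (`true`: disjunctions, `false`: conjunctions); gates are treated like variables -/
def alt : Gf V → Bool → ℕ
  | var _, _ => 0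
  | neg f, b => alt f (!b)
  | or f g, b => max 1 (max (alt f true) (alt g true)) + (if b then 0 else 1)
  | and f g, b => max 1 (max (alt f false) (alt g false)) + (if b then 1 else 0)
  | gate _ _ _, _ => 0

/-- Depth outside of the gates: the number of alternating blocks of `∧` and `∨` above the variables
and the outermost gates, when negations are pushed to the variables and gates. -/
def depth (f : Gf V) : ℕ := min (alt f true) (alt f false)

/-- unsatisfiability -/
def Unsat (f : Gf V) : Prop := ∀ x : V → Bool, f.eval x = false

end Gf

/-- the Boolean function `φ` is given by a polynomial over `ZMod p` of degree at most `e` -/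
def PolyDeg (p : ℕ) {m : ℕ} (φ : (Fin m → Bool) → Bool) (e : ℝ) : Prop :=
  ∃ c : Finset (Fin m) → ZMod p, (∀ S, e < (S.card : ℝ) → c S = 0) ∧
    ∀ v : Fin m → Bool, (if φ v then 1 else 0 : ZMod p) = ∑ S, c S * ∏ i ∈ S, (if v i then 1 else 0)

/-- The admissible lines: at most `κ` gates, all of them of degree at most `κ` over `ZMod p`; the line
and all arguments of its gates have depth at most `d` outside of their gates. -/
structure Tame {V : Type} (p d : ℕ) (κ : ℝ) (A : Gf V) : Prop where
  card : (A.gates.ncard : ℝ) ≤ κ
  deg : ∀ m φ a, Gf.gate m φ a ∈ A.subs → PolyDeg p φ κ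
  depth : A.depth ≤ d
  arg : ∀ m φ a, Gf.gate m φ a ∈ A.subs → ∀ i, (a i).depth ≤ d

/-- a schematic inference: from the substitution instances of `hyps` infer that of `concl` -/
structure Inf where
  hyps : List (Gf ℕ)
  concl : Gf ℕ

/-- soundness of a schematic inference -/
def Inf.Sound (r : Inf) : Prop :=
  ∀ x : ℕ → Bool, (∀ A ∈ r.hyps, A.eval x = true) → r.concl.eval x = true

/-- size of a schematic inference: the number of its formulas, connectives and gates -/
def Inf.size (r : Inf) : ℕ := (r.hyps.map fun A => A.conn + 1).sum + (r.concl.conn + 1)

/-- `π` is a derivation from the axiom `F` by sound schematic inferences of size at most `κ`: each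
line is `F`, or a substitution instance of the conclusion of such an inference whose
correspondingly substituted hypotheses are all earlier lines. -/
def Derives {V : Type} (κ : ℝ) (F : Gf V) (π : List (Gf V)) : Prop :=
  ∀ i (hi : i < π.length), π[i] = F ∨ ∃ r : Inf, r.Sound ∧ (r.size : ℝ) ≤ κ ∧
    ∃ σ : ℕ → Gf V, π[i] = r.concl.subst σ ∧
      ∀ A ∈ r.hyps, ∃ j, ∃ hj : j < i, π[j] = A.subst σ

/-- the set of all subformulas of the lines of a list -/
def subSet {V : Type} (π : List (Gf V)) : Set (Gf V) := {f | ∃ A ∈ π, f ∈ A.subs}

end FrM
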