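import Pool.Agent.Lib.MP_51bb46_lc.M.Cnt
import Pool.Agent.Lib.MP_51bb46_lc.G.FinalG

/-!
Few modular gates (namespace `FrM`): the main theorem.
-/

set_option linter.unusedSectionVars false

namespace FrM

open Finset
open Fr56 (Fm)
open scoped Classical

/-- there is no refutation with few subformulas, given valuations for all small sets of base
formulas -/
theorem no_small {V E X : Type} [Fintype V] [Fintype E] [DecidableEq V] [DecidableEq E]
    {G : FrC.Gph V E} (Fr : FrC.Frame G) (v0 : V) {d k kk cap : ℕ}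
    (hred : Red Fr v0 d kk k 9) (x0 : X) {B : Fm X → Prop} (hB : FrG.Bas B)
    (hcB : ∀ b, B (cst x0 b)) (hkk : k * kk ≤ cap) (hcap : cap ≤ Fr.m) (F : Fm X)
    (hstage : ∀ Fs : Finset (Fm X), Fs.card ≤ 2 ^ k → (∀ f ∈ Fs, B f) →
      ∃ S : FrC.Valn Fr v0 X {f | f ∈ Fs} cap, S.Dcds kk ∧
        FrG.AndOf (fun f => B f ∧ S.True' kk f) F)
    {p : ℕ} [Fact p.Prime] (h2 : (2 : ZMod p) ≠ 0) {κ : ℝ} {n : ℕ} (hn : 1 ≤ n)
    (hκ : ∀ j : ℕ, (j : ℝ) ≤ κ → j ≤ n) (hk : 10 * n ^ 3 ≤ k) (b : Gf ℕ) (hb : b.Unsat)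
    (hbκ : (b.conn : ℝ) ≤ κ) (τ : ℕ → X) (π : List (Gf X)) (hπ : Derives κ (Gf.ofFm F) π)
    (hbπ : b.ren τ ∈ π) (hT : ∀ A ∈ π, Tame p d κ A)
    (htot : (subSet π).ncard * 2 ^ n + 4 ≤ 2 ^ k) : False := by
  have hgate : ∀ A ∈ subSet π, A.gates.ncard ≤ n := by
    rintro A ⟨C, hC, hA⟩
    exact hκ _ ((hT C hC).sub hA)
  obtain ⟨Fs, h1, hsubs, hpc, hpur, hall⟩ := exists_family x0 (subSet_finite π)
    (fun A ⟨C, hC, hA⟩ B hB => ⟨C, hC, Gf.subs_trans hB hA⟩) hgate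
  have hcard : Fs.card ≤ 2 ^ k := h1.trans htot
  have hdepth : ∀ A ∈ subSet π, A.depth ≤ d := by
    rintro A ⟨C, hC, hA⟩
    exact depth_subs hA (hT C hC).depth (hT C hC).arg
  have hlev : ∀ f ∈ Fs, FrG.lev B f ≤ d := by
    intro f hf
    rcases hall f hf with h | ⟨A, hA, u, rfl⟩
    · have hBf : B f := by
        unfold pc at h
        simp only [Finset.mem_insert, Finset.mem_singleton] at h
        rcases h with rfl | rfl | rfl | rfl
        · exact hB.var x0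
        · exact (hB.neg _).2 (hB.var x0)
        · exact hcB true
        · exact hcB false
      rw [FrG.rank_small hB f hBf]
      exact Nat.zero_le _
    · exact (lev_pur hB hcB u A).trans (hdepth A hA)
  set Fs' := Fs.filter (fun f => B f) with hFs'
  obtain ⟨S, hS1, hS2⟩ := hstage Fs' ((Finset.card_filter_le _ _).trans hcard)
    (fun f hf => (Finset.mem_filter.1 hf).2)
  have hset : {f | f ∈ Fs'} = {f | f ∈ Fs ∧ FrG.lev B f ≤ 0} := by
    ext f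
    simp only [Set.mem_ofPred_eq, hFs', Finset.mem_filter, Nat.le_zero, FrG.lev_eq_zero_iff hB]
  have hS : ∃ S : FrC.Valn Fr v0 X {f | f ∈ Fs ∧ FrG.lev B f ≤ 0} cap, S.Dcds kk ∧
      FrG.AndOf (fun f => B f ∧ S.True' kk f) F := by
    rw [← hset]
    exact ⟨S, hS1, hS2⟩
  obtain ⟨S2, hS3, hS4⟩ := hS
  obtain ⟨V', E', iV, iE, dV, dE, G', Fr', v0', kk', cap', S', h0, h3, h4, h5, h6, h7⟩ :=
    hred X B Fs 0 cap S2 hB hsubs hcard hkk hcap hS3
  refine no_refutation S' h4 h0 h6 h2 x0 (fun f hf => ⟨hpc f hf, ?_⟩) F hn hκ hk h3 h5 b hb hbκ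
    τ π hπ (fun hFπ => ?_) hbπ hT (fun A hA u => ⟨hpur A hA u, ?_⟩)
  · rw [Nat.zero_add]
    exact hlev f (hpc f hf)
  · have hFs : F ∈ Fs := by
      have h8 := hpur (Gf.ofFm F) ⟨_, hFπ, Gf.self_mem_subs _⟩ (fun _ => false)
      have h9 : pur x0 (fun _ => false) (Gf.ofFm F) = F := by
        have : ∀ f : Fm X, pur x0 (fun _ => false) (Gf.ofFm f) = f := by
          intro f
          induction f with
          | var v => rfl
          | neg f ih => simp only [Gf.ofFm, pur, ih]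
          | and f g ihf ihg => simp only [Gf.ofFm, pur, ihf, ihg]
          | or f g ihf ihg => simp only [Gf.ofFm, pur, ihf, ihg]
        exact this F
      rw [h9] at h8
      exact h8
    have hl : FrG.lev B F ≤ 0 + d := by
      rw [Nat.zero_add]
      exact hlev F hFs
    refine ⟨⟨hFs, hl⟩, h7 F hFs hl (hS4.mono fun f _ hf => ⟨?_, hf.2⟩)⟩
    rw [Nat.le_zero, FrG.lev_eq_zero_iff hB]
    exact hf.1
  · rw [Nat.zero_add]
    exact hlev _ (hpur A hA u)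

/-- **few modular gates, grid form** -/
theorem main_grid (d : ℕ) : ∃ c : ℝ, 0 < c ∧ ∃ N₀ : ℕ, ∀ N : ℕ, N₀ ≤ N → ∀ κ : ℝ, κ ≤ (N : ℝ) ^ c →
    ∀ p : ℕ, p.Prime → p ≠ 2 → ∀ b : Gf ℕ, b.Unsat → (b.conn : ℝ) ≤ κ → ∀ π : List (Gf ℕ),
    Derives κ (Gf.ofFm (FrS.TsN 0 N)) π → b ∈ π → (∀ A ∈ π, Tame p d κ A) →
    (2 : ℝ) ^ κ ≤ ((subSet π).ncard : ℕ) := by
  obtain ⟨A0, hA0⟩ : ∃ A0, A0 = 16 * (0 + 3) := ⟨_, rfl⟩
  obtain ⟨a, k0, htow⟩ := towers 9 d A0 A0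
  obtain ⟨c, hc, hnumeric⟩ := FrG.numericG 0 1 one_pos (2 * a + 1)
  obtain ⟨N₁, hN₁⟩ := hnumeric (k0 + 0 + 7)
  obtain ⟨N₂, hN₂⟩ := FrS.eventually_const_le 80 (c / 4) (by positivity)
  refine ⟨c / 4, by positivity, N₁ + N₂ + 1, fun N hN κ hκN p hp hp2 b hb hbκ π hπ hbπ hs => ?_⟩
  have : Fact p.Prime := ⟨hp⟩
  have h2 : (2 : ZMod p) ≠ 0 := by
    intro h
    have h3 : ((2 : ℕ) : ZMod p) = 0 := by exact_mod_cast h
    rw [ZMod.natCast_eq_zero_iff] at h3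
    exact hp2 ((Nat.prime_dvd_prime_iff_eq hp Nat.prime_two).1 h3)
  by_contra hlt
  push Not at hlt
  obtain ⟨s, T, s0, h1, hT, hnT, hs0, hs1, _, hNc⟩ := hN₁ N (by omega)
  obtain ⟨V, E, iV, iE, dV, dE, G, Fr, v0, hl, hdeg, h0, hcV, hcE, hBm, hkill⟩ :=
    htow s (by omega)
  have hN0 : (0 : ℝ) < (N : ℝ) := by
    have : 0 < N := by omega
    exact_mod_cast this
  have h80 : (80 : ℝ) ≤ (N : ℝ) ^ (c / 4) := hN₂ N (by omega)
  -- the integer parameter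
  obtain ⟨n, hn⟩ : ∃ n, n = ⌊κ⌋₊ + 1 := ⟨_, rfl⟩
  have hκn : κ < n := by
    rw [hn]
    push_cast
    exact Nat.lt_floor_add_one κ
  have hκj : ∀ j : ℕ, (j : ℝ) ≤ κ → j ≤ n := by
    intro j hj
    have : (j : ℝ) < n := lt_of_le_of_lt hj hκn
    have h3 : j < n := by exact_mod_cast this
    exact h3.le
  have hnN : (n : ℝ) ≤ 2 * (N : ℝ) ^ (c / 4) := by
    have h3 : ((⌊κ⌋₊ : ℕ) : ℝ) ≤ (N : ℝ) ^ (c / 4) := by
      rcases le_total 0 κ with h | h
      · exact (Nat.floor_le h).trans hκN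
      · rw [Nat.floor_of_nonpos h]
        push_cast
        linarith
    rw [hn]
    push_cast
    linarith
  have hk : 10 * n ^ 3 ≤ s := by
    have h3 : ((10 * n ^ 3 : ℕ) : ℝ) ≤ (s : ℝ) := by
      refine le_trans ?_ hNc
      have h4 : (N : ℝ) ^ c = ((N : ℝ) ^ (c / 4)) ^ 4 := by
        rw [← Real.rpow_natCast, ← Real.rpow_mul hN0.le]
        congr 1
        push_cast
        ring
      rw [h4]
      push_cast
      set x : ℝ := (N : ℝ) ^ (c / 4) with hx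
      have hn0 : (0 : ℝ) ≤ n := Nat.cast_nonneg n
      calc 10 * (n : ℝ) ^ 3 ≤ 10 * (2 * x) ^ 3 := by gcongr
        _ = 80 * x ^ 3 := by ring
        _ ≤ x * x ^ 3 := by gcongr
        _ = x ^ 4 := by ring
    exact_mod_cast h3
  have hn1 : 1 ≤ n := by omega
  have hs2 : (s + 2) ^ a ≤ s ^ (2 * a + 1) := by
    calc (s + 2) ^ a ≤ (s * s) ^ a := Nat.pow_le_pow_left (by nlinarith) a
      _ = s ^ (2 * a) := by rw [← pow_two, ← pow_mul]
      _ ≤ s ^ (2 * a + 1) := Nat.pow_le_pow_right (by omega) (by omega)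
  have hn2 : 2 ≤ s ^ (2 * a + 1) := by
    calc 2 ≤ s := by omega
      _ = s ^ 1 := (pow_one s).symm
      _ ≤ s ^ (2 * a + 1) := Nat.pow_le_pow_right (by omega) (by omega)
  obtain ⟨ν⟩ := FrD.exists_nmb (V := V) (E := E) (hcV.trans hs2) (hcE.trans hs2)
  have htot : (subSet π).ncard ≤ 2 ^ n := by
    have h3 : (((subSet π).ncard : ℕ) : ℝ) ≤ ((2 ^ n : ℕ) : ℝ) := by
      refine hlt.le.trans ?_
      push_cast
      rw [← Real.rpow_natCast]
      exact Real.rpow_le_rpow_of_exponent_le (by norm_num) hκn.le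
    exact_mod_cast h3
  have hvc : ∀ b, (FrG.vf (cst ((0, 0) : FrS.E 0) b)).card ≤ s0 := by
    intro b
    have h3 : FrG.vf (cst ((0, 0) : FrS.E 0) b) ⊆ {(0, 0)} := by
      intro x hx
      rw [FrG.mem_vf] at hx
      rw [Finset.mem_singleton]
      cases b with
      | true =>
        simp only [cst, Fm.vars, Set.union_self, Set.mem_singleton_iff] at hx
        exact hx
      | false =>
        simp only [cst, Fm.vars, Set.union_self, Set.mem_singleton_iff] at hx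
        exact hx
    have h4 := Finset.card_le_card h3
    rw [Finset.card_singleton] at h4
    omega
  refine no_small Fr v0 (d := d) (k := s) (kk := A0 * s) (cap := s * (A0 * s)) hkill
    ((0, 0) : FrS.E 0) (B := fun f : Fm (FrS.E 0) => (FrG.vf f).card ≤ s0)
    (FrG.bas_vf (by omega)) hvc le_rfl (by
      refine le_trans (le_of_eq ?_) hBm
      ring)
    (FrS.Ts 0 N) (fun Fs hF1 hF2 => ?_) h2 hn1 hκj hk b hb hbκ (FrS.decE 0)
    (π.map (Gf.ren (FrS.decE 0))) ?_ (List.mem_map_of_mem hbπ) ?_ ?_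
  · obtain ⟨S, hS1, hS2⟩ := FrG.exists_valn Fr v0 ν hT hn2 hnT hs0 hs1 (k := s) (kk := A0 * s)
      (cap := s * (A0 * s)) (by
        rw [hA0]
        have : s + 0 + 7 ≤ 2 * s := by omega
        calc 4 * (2 * (0 + 3) * (s + 0 + 7)) ≤ 4 * (2 * (0 + 3) * (2 * s)) := by gcongr
          _ = 16 * (0 + 3) * s := by ring) Fs hF1 hF2
    exact ⟨S, hS1, hS2 _ (Or.inl rfl)⟩
  · have h3 := hπ.map (FrS.decE 0)
    rw [Gf.ren_ofFm, FrS.TsN_dec] at h3
    exact h3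
  · intro A hA
    obtain ⟨A1, hA1, rfl⟩ := List.mem_map.1 hA
    exact (hs A1 hA1).ren _
  · have h3 := (ncard_subSet_map (FrS.decE 0) π).trans htot
    have h4 : 2 * n + 1 ≤ s := by
      have : n ≤ n ^ 3 := Nat.le_self_pow (by norm_num) n
      omega
    have h5 : 4 ≤ 2 ^ n * 2 ^ n := by
      have : 2 ≤ 2 ^ n := Nat.le_self_pow (by omega) 2
      nlinarith
    calc (subSet (π.map (Gf.ren (FrS.decE 0)))).ncard * 2 ^ n + 4
        ≤ 2 ^ n * 2 ^ n + 2 ^ n * 2 ^ n := Nat.add_le_add (Nat.mul_le_mul_right _ h3) h5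
      _ = 2 ^ (2 * n + 1) := by ring
      _ ≤ 2 ^ s := Nat.pow_le_pow_right (by norm_num) h4

/-- **bounded-depth Frege with few modular gates per line**: one family of CNFs for all depths and
all odd primes -/
theorem main_exp : ∃ F : ℕ → Fm ℕ, (∀ n, (F n).Unsat ∧ (F n).IsCNF 6 ∧ n ≤ (F n).size) ∧
    ∀ d : ℕ, ∃ c : ℝ, 0 < c ∧ ∃ n₀ : ℕ, ∀ n : ℕ, n₀ ≤ n → ∀ p : ℕ, p.Prime → p ≠ 2 →
      ∀ b : Gf ℕ, b.Unsat → (b.conn : ℝ) ≤ ((F n).size : ℝ) ^ c → ∀ π : List (Gf ℕ),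
        Derives (((F n).size : ℝ) ^ c) (Gf.ofFm (F n)) π → b ∈ π →
        (∀ A ∈ π, Tame p d (((F n).size : ℝ) ^ c) A) →
        (2 : ℝ) ^ (((F n).size : ℝ) ^ c) ≤ ((subSet π).ncard : ℕ) := by
  set K : ℝ := 2 ^ (2 * (0 + 3)) * (4 * (0 + 3) + 1) * 2 with hK
  have hK1 : 1 ≤ K := by
    rw [hK]
    norm_num
  have hsize : ∀ n : ℕ, ((FrS.TsN 0 (n + 2)).size : ℝ) ≤ K * ((n + 2 : ℕ) : ℝ) ^ 3 := by
    intro n
    rw [FrS.TsN_size]
    have h := FrS.Ts_size (D := 0) (N := n + 2) (by omega)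
    have h' : ((FrS.Ts 0 (n + 2)).size : ℝ) ≤
        (((n + 2) ^ (0 + 3) * 2 ^ (2 * (0 + 3)) * (4 * (0 + 3) + 1) * 2 : ℕ) : ℝ) := by
      exact_mod_cast h
    refine h'.trans (le_of_eq ?_)
    rw [hK]
    push_cast
    ring
  refine ⟨fun n => FrS.TsN 0 (n + 2), fun n => ⟨FrS.TsN_unsat 0 (by omega),
    FrS.TsN_cnf 0 (by omega), ?_⟩, fun d => ?_⟩
  · rw [FrS.TsN_size]
    refine le_trans ?_ (FrS.le_Ts_size (by omega))
    calc n ≤ n + 2 := by omega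
      _ = (n + 2) ^ 1 := (pow_one _).symm
      _ ≤ (n + 2) ^ (0 + 3) := Nat.pow_le_pow_right (by omega) (by omega)
  · obtain ⟨c, hc, N₀, hmain⟩ := main_grid d
    obtain ⟨c', hc'⟩ : ∃ c' : ℝ, c' = c / 6 := ⟨_, rfl⟩
    have hc'0 : 0 < c' := by rw [hc']; positivity
    obtain ⟨N₂, hN₂⟩ := FrS.eventually_const_le (K ^ c') (c / 2) (by positivity)
    refine ⟨c', hc'0, N₀ + N₂, fun n hn p hp hp2 b hb hbκ π hπ hbπ hs => ?_⟩
    refine hmain (n + 2) (by omega) _ ?_ p hp hp2 b hb hbκ π hπ hbπ hs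
    have hNpos : (0 : ℝ) < ((n + 2 : ℕ) : ℝ) := by positivity
    have hF := hsize n
    have hF0 : (0 : ℝ) ≤ ((FrS.TsN 0 (n + 2)).size : ℝ) := Nat.cast_nonneg _
    calc ((FrS.TsN 0 (n + 2)).size : ℝ) ^ c' ≤ (K * ((n + 2 : ℕ) : ℝ) ^ 3) ^ c' :=
          Real.rpow_le_rpow hF0 hF hc'0.le
      _ = K ^ c' * ((n + 2 : ℕ) : ℝ) ^ (3 * c') := by
          rw [Real.mul_rpow (by linarith) (by positivity), ← Real.rpow_natCast,
            ← Real.rpow_mul hNpos.le]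
          norm_num
      _ ≤ ((n + 2 : ℕ) : ℝ) ^ (c / 2) * ((n + 2 : ℕ) : ℝ) ^ (c / 2) := by
          have h1 := hN₂ (n + 2) (by omega)
          have h2 : 3 * c' = c / 2 := by
            rw [hc']
            ring
          rw [h2]
          gcongr
      _ = ((n + 2 : ℕ) : ℝ) ^ c := by
          rw [← Real.rpow_add hNpos]
          congr 1
          ring

end FrM
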