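import Mathlib
import Pool.Agent.Lib.MP_51bb46_lc.M.Defs
import Pool.Agent.Lib.MP_51bb46_lc.S.Reloc

section

/-!
Few modular gates (namespace `FrM`): characters of the cube `E → ZMod 2` with values in a field of
characteristic different from two.
-/

set_option linter.unusedSectionVars false

namespace FrM

open Finset
open scoped Classical

section
variable {E : Type} [Fintype E] (K : Type) [Field K]

/-- the sign of a bit -/
def sg (a : ZMod 2) : K := if a = 0 then 1 else -1

/-- the pairing of the cube with itself -/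
def pr (S y : E → ZMod 2) : ZMod 2 := ∑ e, S e * y e

/-- the character given by `S` -/
def chi (S y : E → ZMod 2) : K := sg K (pr S y)

theorem sg_zero : sg K 0 = 1 := by simp [sg]

theorem sg_add (a b : ZMod 2) : sg K (a + b) = sg K a * sg K b := by
  have h : ∀ a : ZMod 2, a = 0 ∨ a = 1 := by decide
  rcases h a with rfl | rfl <;> rcases h b with rfl | rfl
  · simp [sg]
  · simp [sg]
  · simp [sg]
  · have : (1 : ZMod 2) + 1 = 0 := by decide
    simp [sg, this]

theorem sg_mul_self (a : ZMod 2) : sg K a * sg K a = 1 := by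
  unfold sg; split_ifs <;> simp

theorem sg_ne_zero (a : ZMod 2) : sg K a ≠ 0 := by
  unfold sg; split_ifs <;> simp

theorem pr_add_left (S T y : E → ZMod 2) : pr (S + T) y = pr S y + pr T y := by
  simp only [pr, Pi.add_apply, add_mul, Finset.sum_add_distrib]

theorem pr_add_right (S y z : E → ZMod 2) : pr S (y + z) = pr S y + pr S z := by
  simp only [pr, Pi.add_apply, mul_add, Finset.sum_add_distrib]

theorem pr_comm (S y : E → ZMod 2) : pr S y = pr y S := by
  simp only [pr, mul_comm]

theorem pr_zero_left (y : E → ZMod 2) : pr 0 y = 0 := by simp [pr]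

theorem pr_zero_right (y : E → ZMod 2) : pr y 0 = 0 := by simp [pr]

theorem chi_add_left (S T y : E → ZMod 2) : chi K (S + T) y = chi K S y * chi K T y := by
  unfold chi; rw [pr_add_left, sg_add]

theorem chi_add_right (S y z : E → ZMod 2) : chi K S (y + z) = chi K S y * chi K S z := by
  unfold chi; rw [pr_add_right, sg_add]

theorem chi_comm (S y : E → ZMod 2) : chi K S y = chi K y S := by
  unfold chi; rw [pr_comm]

theorem chi_zero : chi K (0 : E → ZMod 2) = 1 := by
  funext y
  unfold chi
  rw [pr_zero_left, sg_zero]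
  rfl

theorem chi_mul (S T : E → ZMod 2) : chi K S * chi K T = chi K (S + T) := by
  funext y
  rw [Pi.mul_apply, chi_add_left]

theorem chi_mul_self (S y : E → ZMod 2) : chi K S y * chi K S y = 1 := sg_mul_self K _

theorem chi_ne_zero (S y : E → ZMod 2) : chi K S y ≠ 0 := sg_ne_zero K _

/-- Sum of a nontrivial character over a set closed under translation by `z` with `chi S z = -1`. -/
theorem sum_eq_zero_of_shift (h2 : (2 : K) ≠ 0) (s : Finset (E → ZMod 2)) (f : (E → ZMod 2) → K)
    (z : E → ZMod 2) (hs : ∀ y ∈ s, y + z ∈ s) (hf : ∀ y ∈ s, f (y + z) = - f y) :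
    ∑ y ∈ s, f y = 0 := by
  have hzz : ∀ y : E → ZMod 2, y + z + z = y := fun y => by
    rw [add_assoc]
    have : z + z = 0 := by
      funext e
      exact CharTwo.add_self_eq_zero (z e)
    rw [this, add_zero]
  have h1 : ∑ y ∈ s, f y = ∑ y ∈ s, f (y + z) := by
    refine Finset.sum_nbij' (fun y => y + z) (fun y => y + z) (fun y hy => hs y hy)
      (fun y hy => hs y hy) (fun y _ => hzz y) (fun y _ => hzz y) (fun y _ => ?_)
    rw [hzz]
  have h3 : ∑ y ∈ s, f (y + z) = - ∑ y ∈ s, f y := by
    rw [← Finset.sum_neg_distrib]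
    exact Finset.sum_congr rfl hf
  rw [h3] at h1
  have h4 : (2 : K) * ∑ y ∈ s, f y = 0 := by linear_combination h1
  exact (mul_eq_zero.1 h4).resolve_left h2

theorem exists_pr_ne {S : E → ZMod 2} (h : S ≠ 0) : ∃ z, pr S z = 1 := by
  obtain ⟨e, he⟩ := Function.ne_iff.1 h
  have h1 : S e = 1 := by
    have : ∀ a : ZMod 2, a ≠ 0 → a = 1 := by decide
    exact this _ he
  refine ⟨Pi.single e 1, ?_⟩
  unfold pr
  rw [Finset.sum_eq_single e]
  · rw [h1, Pi.single_eq_same, mul_one]
  · intro b _ hb
    rw [Pi.single_eq_of_ne hb, mul_zero]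
  · intro h
    exact absurd (Finset.mem_univ e) h

theorem sum_chi (h2 : (2 : K) ≠ 0) (S : E → ZMod 2) :
    ∑ y, chi K S y = if S = 0 then (2 : K) ^ Fintype.card E else 0 := by
  split_ifs with h
  · subst h
    rw [chi_zero]
    simp [ZMod.card]
  · obtain ⟨z, hz⟩ := exists_pr_ne h
    refine sum_eq_zero_of_shift K h2 _ _ z (fun y _ => Finset.mem_univ _) (fun y _ => ?_)
    rw [chi_add_right]
    have : chi K S z = -1 := by
      unfold chi
      rw [hz]
      simp [sg]
    rw [this, mul_neg_one]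

/-- Fourier coefficients -/
noncomputable def hat (f : (E → ZMod 2) → K) (R : E → ZMod 2) : K :=
  ((2 : K) ^ Fintype.card E)⁻¹ * ∑ y, f y * chi K R y

/-- Fourier inversion -/
theorem inversion (h2 : (2 : K) ≠ 0) (f : (E → ZMod 2) → K) :
    f = ∑ R, hat K f R • chi K R := by
  have hne : (2 : K) ^ Fintype.card E ≠ 0 := pow_ne_zero _ h2
  funext x
  rw [Finset.sum_apply]
  simp only [Pi.smul_apply, smul_eq_mul, hat]
  have h1 : ∀ R : E → ZMod 2, ((2 : K) ^ Fintype.card E)⁻¹ * (∑ y, f y * chi K R y) * chi K R x =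
      ∑ y, ((2 : K) ^ Fintype.card E)⁻¹ * f y * chi K (y + x) R := by
    intro R
    rw [mul_assoc, Finset.sum_mul, Finset.mul_sum]
    refine Finset.sum_congr rfl fun y _ => ?_
    rw [chi_add_left, chi_comm K y R, chi_comm K x R]
    ring
  simp only [h1]
  rw [Finset.sum_comm]
  have h3 : ∀ y : E → ZMod 2, ∑ R, ((2 : K) ^ Fintype.card E)⁻¹ * f y * chi K (y + x) R =
      if y = x then f x else 0 := by
    intro y
    rw [← Finset.mul_sum, sum_chi K h2]
    have h4 : y + x = 0 ↔ y = x := by
      constructor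
      · intro h
        have hxx : x + x = 0 := by
          funext e
          exact CharTwo.add_self_eq_zero (x e)
        calc y = y + (x + x) := by rw [hxx, add_zero]
          _ = (y + x) + x := by rw [add_assoc]
          _ = x := by rw [h, zero_add]
      · rintro rfl
        funext e
        exact CharTwo.add_self_eq_zero (y e)
    by_cases h : y = x
    · subst h
      rw [if_pos (h4.2 rfl), if_pos rfl]
      field_simp
    · rw [if_neg h, if_neg (fun h' => h (h4.1 h')), mul_zero]
  simp only [h3]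
  simp

/-- the linear functional with prescribed values on the characters -/
noncomputable def phi (c : (E → ZMod 2) → K) : ((E → ZMod 2) → K) →ₗ[K] K where
  toFun f := ∑ y, f y * (((2 : K) ^ Fintype.card E)⁻¹ * ∑ S, c S * chi K S y)
  map_add' f g := by
    simp only [Pi.add_apply, add_mul, Finset.sum_add_distrib]
  map_smul' a f := by
    simp only [Pi.smul_apply, smul_eq_mul, RingHom.id_apply, Finset.mul_sum, mul_assoc]

theorem phi_chi (h2 : (2 : K) ≠ 0) (c : (E → ZMod 2) → K) (R : E → ZMod 2) :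
    phi K c (chi K R) = c R := by
  have hne : (2 : K) ^ Fintype.card E ≠ 0 := pow_ne_zero _ h2
  show ∑ y, chi K R y * (((2 : K) ^ Fintype.card E)⁻¹ * ∑ S, c S * chi K S y) = c R
  have h1 : ∀ y : E → ZMod 2, chi K R y * (((2 : K) ^ Fintype.card E)⁻¹ * ∑ S, c S * chi K S y) =
      ∑ S, ((2 : K) ^ Fintype.card E)⁻¹ * c S * chi K (R + S) y := by
    intro y
    rw [Finset.mul_sum, Finset.mul_sum]
    refine Finset.sum_congr rfl fun S _ => ?_
    rw [chi_add_left]
    ring
  simp only [h1]
  rw [Finset.sum_comm]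
  have h3 : ∀ S : E → ZMod 2, ∑ y, ((2 : K) ^ Fintype.card E)⁻¹ * c S * chi K (R + S) y =
      if S = R then c R else 0 := by
    intro S
    rw [← Finset.mul_sum, sum_chi K h2]
    have h4 : R + S = 0 ↔ S = R := by
      constructor
      · intro h
        have hxx : R + R = 0 := by
          funext e
          exact CharTwo.add_self_eq_zero (R e)
        calc S = (R + R) + S := by rw [hxx, zero_add]
          _ = R + (R + S) := by rw [add_assoc]
          _ = R := by rw [h, add_zero]
      · rintro rfl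
        funext e
        exact CharTwo.add_self_eq_zero (S e)
    by_cases h : S = R
    · subst h
      rw [if_pos (h4.2 rfl), if_pos rfl]
      field_simp
    · rw [if_neg h, if_neg (fun h' => h (h4.1 h')), mul_zero]
  simp only [h3]
  simp

end

end FrM
end

section

/-!
Few modular gates (namespace `FrM`): basic facts on formulas with gates.
-/

set_option linter.unusedSectionVars false

namespace FrM

open Fr56
open scoped Classical

namespace Gf

variable {V W U : Type}

theorem self_mem_subs (f : Gf V) : f ∈ f.subs := by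
  cases f <;> simp [subs]

theorem subs_trans {f g h : Gf V} (hfg : f ∈ g.subs) (hgh : g ∈ h.subs) : f ∈ h.subs := by
  induction h with
  | var v =>
    simp only [subs, Set.mem_singleton_iff] at hgh
    subst hgh
    exact hfg
  | neg h ih =>
    simp only [subs, Set.mem_insert_iff] at hgh ⊢
    rcases hgh with rfl | hgh
    · simpa [subs] using hfg
    · exact Or.inr (ih hgh)
  | and h1 h2 ih1 ih2 =>
    simp only [subs, Set.mem_insert_iff, Set.mem_union] at hgh ⊢
    rcases hgh with rfl | hgh | hgh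
    · simpa [subs] using hfg
    · exact Or.inr (Or.inl (ih1 hgh))
    · exact Or.inr (Or.inr (ih2 hgh))
  | or h1 h2 ih1 ih2 =>
    simp only [subs, Set.mem_insert_iff, Set.mem_union] at hgh ⊢
    rcases hgh with rfl | hgh | hgh
    · simpa [subs] using hfg
    · exact Or.inr (Or.inl (ih1 hgh))
    · exact Or.inr (Or.inr (ih2 hgh))
  | gate m φ a ih =>
    simp only [subs, Set.mem_insert_iff, Set.mem_iUnion] at hgh ⊢
    rcases hgh with rfl | ⟨i, hgh⟩
    · simpa [subs] using hfg
    · exact Or.inr ⟨i, ih i hgh⟩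

theorem subs_finite (f : Gf V) : f.subs.Finite := by
  induction f with
  | var v => exact Set.finite_singleton _
  | neg f ih => exact ih.insert _
  | and f g ihf ihg => exact (ihf.union ihg).insert _
  | or f g ihf ihg => exact (ihf.union ihg).insert _
  | gate m φ a ih => exact (Set.finite_iUnion ih).insert _

theorem gates_subset (f : Gf V) : f.gates ⊆ f.subs := fun _ h => h.1

theorem gates_finite (f : Gf V) : f.gates.Finite := f.subs_finite.subset f.gates_subset

theorem gates_mono {f g : Gf V} (h : f ∈ g.subs) : f.gates ⊆ g.gates :=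
  fun _ hk => ⟨subs_trans hk.1 h, hk.2⟩

theorem subst_mem_subs {B A : Gf V} (h : B ∈ A.subs) (σ : V → Gf W) :
    B.subst σ ∈ (A.subst σ).subs := by
  induction A with
  | var v =>
    simp only [subs, Set.mem_singleton_iff] at h
    subst h
    exact self_mem_subs _
  | neg A ih =>
    simp only [subs, Set.mem_insert_iff] at h
    rcases h with rfl | h
    · exact self_mem_subs _
    · simp only [subst, subs, Set.mem_insert_iff]
      exact Or.inr (ih h)
  | and A1 A2 ih1 ih2 =>
    simp only [subs, Set.mem_insert_iff, Set.mem_union] at h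
    rcases h with rfl | h | h
    · exact self_mem_subs _
    · simp only [subst, subs, Set.mem_insert_iff, Set.mem_union]
      exact Or.inr (Or.inl (ih1 h))
    · simp only [subst, subs, Set.mem_insert_iff, Set.mem_union]
      exact Or.inr (Or.inr (ih2 h))
  | or A1 A2 ih1 ih2 =>
    simp only [subs, Set.mem_insert_iff, Set.mem_union] at h
    rcases h with rfl | h | h
    · exact self_mem_subs _
    · simp only [subst, subs, Set.mem_insert_iff, Set.mem_union]
      exact Or.inr (Or.inl (ih1 h))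
    · simp only [subst, subs, Set.mem_insert_iff, Set.mem_union]
      exact Or.inr (Or.inr (ih2 h))
  | gate m φ a ih =>
    simp only [subs, Set.mem_insert_iff, Set.mem_iUnion] at h
    rcases h with rfl | ⟨i, h⟩
    · exact self_mem_subs _
    · simp only [subst, subs, Set.mem_insert_iff, Set.mem_iUnion]
      exact Or.inr ⟨i, ih i h⟩

theorem eval_subst (σ : V → Gf W) (f : Gf V) (x : W → Bool) :
    (f.subst σ).eval x = f.eval (fun v => (σ v).eval x) := by
  induction f with
  | var v => rfl
  | neg f ih => simp only [subst, eval, ih]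
  | and f g ihf ihg => simp only [subst, eval, ihf, ihg]
  | or f g ihf ihg => simp only [subst, eval, ihf, ihg]
  | gate m φ a ih => simp only [subst, eval, ih]

theorem subst_subst (σ : V → Gf W) (τ : W → Gf U) (f : Gf V) :
    (f.subst σ).subst τ = f.subst fun v => (σ v).subst τ := by
  induction f with
  | var v => rfl
  | neg f ih => simp only [subst, ih]
  | and f g ihf ihg => simp only [subst, ihf, ihg]
  | or f g ihf ihg => simp only [subst, ihf, ihg]
  | gate m φ a ih => simp only [subst, ih]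

/-- renaming of variables -/
def ren (τ : V → W) (f : Gf V) : Gf W := f.subst fun v => .var (τ v)

theorem ren_ofFm (τ : V → W) (f : Fm V) : (ofFm f).ren τ = ofFm (f.map τ) := by
  unfold ren
  induction f with
  | var v => rfl
  | neg f ih => simp only [ofFm, subst, Fm.map, ih]
  | and f g ihf ihg => simp only [ofFm, subst, Fm.map, ihf, ihg]
  | or f g ihf ihg => simp only [ofFm, subst, Fm.map, ihf, ihg]

theorem ren_subst (τ : W → U) (σ : V → Gf W) (f : Gf V) :
    (f.subst σ).ren τ = f.subst fun v => (σ v).ren τ := subst_subst _ _ _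

theorem alt_ren (τ : V → W) (f : Gf V) (b : Bool) : (f.ren τ).alt b = f.alt b := by
  unfold ren
  induction f generalizing b with
  | var v => rfl
  | neg f ih => simp only [subst, alt, ih]
  | and f g ihf ihg => simp only [subst, alt, ihf, ihg]
  | or f g ihf ihg => simp only [subst, alt, ihf, ihg]
  | gate m φ a ih => rfl

theorem depth_ren (τ : V → W) (f : Gf V) : (f.ren τ).depth = f.depth := by
  unfold depth
  rw [alt_ren, alt_ren]

theorem subs_ren (τ : V → W) (f : Gf V) : (f.ren τ).subs = (ren τ) '' f.subs := by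
  unfold ren
  induction f with
  | var v => simp [subst, subs]
  | neg f ih => simp only [subst, subs, ih, Set.image_insert_eq]
  | and f g ihf ihg => simp only [subst, subs, ihf, ihg, Set.image_insert_eq, Set.image_union]
  | or f g ihf ihg => simp only [subst, subs, ihf, ihg, Set.image_insert_eq, Set.image_union]
  | gate m φ a ih => simp only [subst, subs, ih, Set.image_insert_eq, Set.image_iUnion]

theorem isGate_ren (τ : V → W) (f : Gf V) : (f.ren τ).IsGate ↔ f.IsGate := by
  cases f <;> simp [ren, subst, IsGate]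

theorem gates_ren (τ : V → W) (f : Gf V) : (f.ren τ).gates = (ren τ) '' f.gates := by
  unfold gates
  rw [subs_ren]
  ext g
  constructor
  · rintro ⟨⟨h, hh, rfl⟩, hg⟩
    exact ⟨h, ⟨hh, (isGate_ren τ h).1 hg⟩, rfl⟩
  · rintro ⟨h, ⟨hh, hg⟩, rfl⟩
    exact ⟨⟨h, hh, rfl⟩, (isGate_ren τ h).2 hg⟩

theorem gate_mem_subs_ren {τ : V → W} {f : Gf V} {m : ℕ} {φ : (Fin m → Bool) → Bool}
    {a : Fin m → Gf W} (h : gate m φ a ∈ (f.ren τ).subs) :
    ∃ a', gate m φ a' ∈ f.subs ∧ ∀ i, a i = (a' i).ren τ := by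
  rw [subs_ren] at h
  obtain ⟨g, hg, hgh⟩ := h
  cases g with
  | var v => simp [ren, subst] at hgh
  | neg f => simp [ren, subst] at hgh
  | and f g => simp [ren, subst] at hgh
  | or f g => simp [ren, subst] at hgh
  | gate m' φ' a' =>
    simp only [ren, subst, gate.injEq] at hgh
    obtain ⟨rfl, h1, h2⟩ := hgh
    rw [heq_eq_eq] at h1 h2
    subst h1
    exact ⟨a', hg, fun i => by rw [← h2]; rfl⟩

end Gf

theorem Tame.ren {V W : Type} {p d : ℕ} {κ : ℝ} {A : Gf V} (h : Tame p d κ A) (τ : V → W) :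
    Tame p d κ (A.ren τ) where
  card := by
    rw [Gf.gates_ren]
    refine le_trans ?_ h.card
    exact_mod_cast Set.ncard_image_le A.gates_finite
  deg := by
    intro m φ a ha
    obtain ⟨a', h1, _⟩ := Gf.gate_mem_subs_ren ha
    exact h.deg m φ a' h1
  depth := by
    rw [Gf.depth_ren]
    exact h.depth
  arg := by
    intro m φ a ha i
    obtain ⟨a', h1, h2⟩ := Gf.gate_mem_subs_ren ha
    rw [h2, Gf.depth_ren]
    exact h.arg m φ a' h1 i

theorem Tame.sub {V : Type} {p d : ℕ} {κ : ℝ} {A B : Gf V} (h : Tame p d κ A) (hB : B ∈ A.subs) :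
    (B.gates.ncard : ℝ) ≤ κ := by
  refine le_trans ?_ h.card
  exact_mod_cast Set.ncard_le_ncard (Gf.gates_mono hB) A.gates_finite

theorem subSet_finite {V : Type} (π : List (Gf V)) : (subSet π).Finite := by
  have h : subSet π = ⋃ A ∈ π.toFinset, A.subs := by
    ext f
    simp [subSet]
  rw [h]
  exact Set.Finite.biUnion (Finset.finite_toSet _) fun A _ => A.subs_finite

theorem subSet_map {V W : Type} (τ : V → W) (π : List (Gf V)) :
    subSet (π.map (Gf.ren τ)) = (Gf.ren τ) '' subSet π := by
  ext f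
  constructor
  · rintro ⟨A, hA, hf⟩
    obtain ⟨A', hA', rfl⟩ := List.mem_map.1 hA
    rw [Gf.subs_ren] at hf
    obtain ⟨g, hg, rfl⟩ := hf
    exact ⟨g, ⟨A', hA', hg⟩, rfl⟩
  · rintro ⟨g, ⟨A', hA', hg⟩, rfl⟩
    refine ⟨A'.ren τ, List.mem_map_of_mem hA', ?_⟩
    rw [Gf.subs_ren]
    exact ⟨g, hg, rfl⟩

theorem ncard_subSet_map {V W : Type} (τ : V → W) (π : List (Gf V)) :
    (subSet (π.map (Gf.ren τ))).ncard ≤ (subSet π).ncard := by
  rw [subSet_map]
  exact Set.ncard_image_le (subSet_finite π)

theorem Derives.map {V W : Type} (τ : V → W) {κ : ℝ} {F : Gf V} {π : List (Gf V)}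
    (h : Derives κ F π) : Derives κ (F.ren τ) (π.map (Gf.ren τ)) := by
  intro i hi
  rw [List.length_map] at hi
  rw [List.getElem_map]
  rcases h i hi with h1 | ⟨r, hr, hk, σ, h1, h2⟩
  · exact Or.inl (by rw [h1])
  · refine Or.inr ⟨r, hr, hk, fun v => (σ v).ren τ, ?_, fun A hA => ?_⟩
    · rw [h1, Gf.ren_subst]
    · obtain ⟨j, hj, h3⟩ := h2 A hA
      refine ⟨j, hj, ?_⟩
      rw [List.getElem_map, h3, Gf.ren_subst]

end FrM
end

section

/-!
Few modular gates (namespace `FrM`): the ideal of a frame.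
-/

set_option linter.unusedSectionVars false

namespace FrM

open Finset FrC
open scoped Classical

section
variable {V E : Type} [Fintype E] [DecidableEq V] {G : Gph V E} (Fr : Frame G) (v0 : V)
  (K : Type) [Field K]

/-- the support of `S` is covered by `U` -/
def Cov (G : Gph V E) (U : Finset V) (S : E → ZMod 2) : Prop := ∀ e, S e ≠ 0 → e ∈ G.inc U

/-- the support of `S` is covered by at most `k` vertices -/
def Sml (G : Gph V E) (k : ℕ) (S : E → ZMod 2) : Prop := ∃ U : Finset V, U.card ≤ k ∧ Cov G U S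

/-- `S` is orthogonal to the cycles -/
def Orth (G : Gph V E) (S : E → ZMod 2) : Prop := ∀ z, G.bd z = 0 → pr S z = 0

theorem Cov.mono {U U' : Finset V} (h : U ⊆ U') {S : E → ZMod 2} (hS : Cov G U S) : Cov G U' S :=
  fun e he => G.inc_mono h (hS e he)

theorem Cov.add {U U' : Finset V} {S T : E → ZMod 2} (hS : Cov G U S) (hT : Cov G U' T) :
    Cov G (U ∪ U') (S + T) := by
  intro e he
  by_cases h : S e = 0
  · refine G.inc_mono Finset.subset_union_right (hT e fun h' => he ?_)
    rw [Pi.add_apply, h, h', add_zero]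
  · exact G.inc_mono Finset.subset_union_left (hS e h)

theorem Cov.zero (U : Finset V) : Cov G U (0 : E → ZMod 2) := fun _ he => absurd rfl he

theorem Sml.mono {k l : ℕ} (h : k ≤ l) {S : E → ZMod 2} (hS : Sml G k S) : Sml G l S := by
  obtain ⟨U, h1, h2⟩ := hS
  exact ⟨U, h1.trans h, h2⟩

theorem Sml.add {k l : ℕ} {S T : E → ZMod 2} (hS : Sml G k S) (hT : Sml G l T) :
    Sml G (k + l) (S + T) := by
  obtain ⟨U, h1, h2⟩ := hS
  obtain ⟨U', h3, h4⟩ := hT
  exact ⟨U ∪ U', (Finset.card_union_le _ _).trans (by omega), h2.add h4⟩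

theorem Sml.zero (k : ℕ) : Sml G k (0 : E → ZMod 2) := ⟨∅, by simp, Cov.zero _⟩

theorem Orth.add {S T : E → ZMod 2} (hS : Orth G S) (hT : Orth G T) : Orth G (S + T) := by
  intro z hz
  rw [pr_add_left, hS z hz, hT z hz, add_zero]

theorem Orth.zero : Orth G (0 : E → ZMod 2) := fun z _ => pr_zero_left z

theorem add_self_fun (S : E → ZMod 2) : S + S = 0 := by
  funext e
  exact CharTwo.add_self_eq_zero (S e)

theorem orth_of_add {S T : E → ZMod 2} (hS : Orth G S) (hST : Orth G (S + T)) : Orth G T := by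
  have h : T = S + (S + T) := by rw [← add_assoc, add_self_fun, zero_add]
  rw [h]
  exact hS.add hST

/-- `y` is an assignment whose violated vertex is free for a cover of `S` -/
def Wit (M : ℕ) (S y : E → ZMod 2) : Prop := ∃ (U : Finset V) (t : V), U.card ≤ M ∧ Cov G U S ∧
  Fr.Free U t ∧ G.bd y = pt v0 + pt t

/-- the values of the pseudo-expectation on the characters -/
noncomputable def ee (M : ℕ) (S : E → ZMod 2) : K :=
  if h : Orth G S ∧ ∃ y, Wit Fr v0 M S y then chi K S h.2.choose else 0

variable {Fr v0} {M : ℕ}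

/-- a chain that avoids a cover of `S` does not change the character -/
theorem pr_eq_zero_of_cov {U : Finset V} {S γ : E → ZMod 2} (hC : Cov G U S)
    (hγ : ∀ e ∈ G.inc U, γ e = 0) : pr S γ = 0 := by
  unfold pr
  refine Finset.sum_eq_zero fun e _ => ?_
  by_cases h : S e = 0
  · rw [h, zero_mul]
  · rw [hγ e (hC e h), mul_zero]

/-- two witnesses give the same value -/
theorem wit_unique (hM : 2 * M ≤ Fr.m) {S y y' : E → ZMod 2} (hO : Orth G S)
    (h : Wit Fr v0 M S y) (h' : Wit Fr v0 M S y') : pr S y = pr S y' := by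
  obtain ⟨U, t, hU, hC, ht, hy⟩ := h
  obtain ⟨U', t', hU', hC', ht', hy'⟩ := h'
  obtain ⟨t'', ht''⟩ := Fr.ne (U ∪ U') ((Finset.card_union_le _ _).trans (by omega))
  obtain ⟨γ, hγ, hγ0⟩ := Fr.conn U t t'' (by omega) ht (Fr.anti Finset.subset_union_left ht'')
  obtain ⟨γ', hγ', hγ0'⟩ :=
    Fr.conn U' t' t'' (by omega) ht' (Fr.anti Finset.subset_union_right ht'')
  have h1 : pr S γ = 0 := pr_eq_zero_of_cov hC hγ0
  have h2 : pr S γ' = 0 := pr_eq_zero_of_cov hC' hγ0'
  have h3 : pr S (y + γ + (y' + γ')) = 0 := by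
    refine hO _ ?_
    rw [Gph.bd_add, Gph.bd_add, Gph.bd_add, hy, hγ, hy', hγ']
    have e1 : ∀ p q r : V → ZMod 2, p + q + (q + r) = p + r := by
      intro p q r
      rw [add_assoc, ← add_assoc q q r, add_self2, zero_add]
    rw [e1, e1, add_self2]
  rw [pr_add_right, pr_add_right, pr_add_right, h1, h2, add_zero, add_zero] at h3
  have h4 : ∀ a b : ZMod 2, a + b = 0 → a = b := by decide
  exact h4 _ _ h3

theorem ee_eq (hM : 2 * M ≤ Fr.m) {S y : E → ZMod 2} (hO : Orth G S) (h : Wit Fr v0 M S y) :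
    ee Fr v0 K M S = chi K S y := by
  have hh : Orth G S ∧ ∃ y, Wit Fr v0 M S y := ⟨hO, y, h⟩
  unfold ee
  rw [dif_pos hh]
  unfold chi
  rw [wit_unique hM hO hh.2.choose_spec h]

theorem ee_orth {S : E → ZMod 2} (h : ee Fr v0 K M S ≠ 0) : Orth G S := by
  by_contra hc
  refine h ?_
  unfold ee
  rw [dif_neg fun h' => hc h'.1]

theorem ee_eq_zero {S : E → ZMod 2} (h : ¬ Orth G S) : ee Fr v0 K M S = 0 := by
  by_contra hc
  exact h (ee_orth K hc)

/-- a free vertex and an assignment -/
theorem exists_wit (h0 : Fr.Free ∅ v0) (U : Finset V) (hU : U.card ≤ Fr.m) :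
    ∃ (t : V) (y : E → ZMod 2), Fr.Free U t ∧ G.bd y = pt v0 + pt t := by
  obtain ⟨y, hy⟩ := Frame.exists_ok Fr h0
  obtain ⟨y', _, t, ht, hf⟩ := Frame.move Fr (Finset.empty_subset U) hU hy
  exact ⟨t, y', hf, ht⟩

theorem ee_zero (hM : 2 * M ≤ Fr.m) (h0 : Fr.Free ∅ v0) : ee Fr v0 K M 0 = 1 := by
  rw [ee_eq K hM Orth.zero (y := 0) ⟨∅, v0, by simp, Cov.zero _, h0, by
    rw [Gph.bd_zero, add_self2]⟩, chi_zero]
  rfl

/-- multiplicativity -/
theorem ee_mul (hM : 3 * M ≤ Fr.m) (h0 : Fr.Free ∅ v0) {S T : E → ZMod 2} (hS : Sml G M S)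
    (hT : Sml G M T) (hST : Sml G M (S + T)) (hO : Orth G S) :
    ee Fr v0 K M (S + T) = ee Fr v0 K M S * ee Fr v0 K M T := by
  by_cases hOT : Orth G T
  · obtain ⟨U1, h1, c1⟩ := hS
    obtain ⟨U2, h2, c2⟩ := hT
    obtain ⟨U3, h3, c3⟩ := hST
    have hcard : (U1 ∪ (U2 ∪ U3)).card ≤ Fr.m := by
      have a1 := Finset.card_union_le U1 (U2 ∪ U3)
      have a2 := Finset.card_union_le U2 U3
      omega
    obtain ⟨t, y, hf, hy⟩ := exists_wit h0 (U1 ∪ (U2 ∪ U3)) hcard
    have s1 : U1 ⊆ U1 ∪ (U2 ∪ U3) := Finset.subset_union_left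
    have s2 : U2 ⊆ U1 ∪ (U2 ∪ U3) :=
      Finset.subset_union_left.trans Finset.subset_union_right
    have s3 : U3 ⊆ U1 ∪ (U2 ∪ U3) :=
      Finset.subset_union_right.trans Finset.subset_union_right
    have w1 : Wit Fr v0 M S y := ⟨U1, t, h1, c1, Fr.anti s1 hf, hy⟩
    have w2 : Wit Fr v0 M T y := ⟨U2, t, h2, c2, Fr.anti s2 hf, hy⟩
    have w3 : Wit Fr v0 M (S + T) y := ⟨U3, t, h3, c3, Fr.anti s3 hf, hy⟩
    have hM2 : 2 * M ≤ Fr.m := by omega
    rw [ee_eq K hM2 hO w1, ee_eq K hM2 hOT w2, ee_eq K hM2 (hO.add hOT) w3, chi_add_left]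
  · rw [ee_eq_zero K hOT, ee_eq_zero K (fun h => hOT (orth_of_add hO h)), mul_zero]

/-! ### functions of small degree -/

/-- the functions spanned by the characters with small support -/
def Loc (G : Gph V E) (k : ℕ) : Submodule K ((E → ZMod 2) → K) :=
  Submodule.span K {f | ∃ S, Sml G k S ∧ f = chi K S}

theorem chi_mem_Loc {k : ℕ} {S : E → ZMod 2} (h : Sml G k S) : chi K S ∈ Loc K G k :=
  Submodule.subset_span ⟨S, h, rfl⟩

theorem Loc_mono {k l : ℕ} (h : k ≤ l) : Loc K G k ≤ Loc K G l := by
  refine Submodule.span_mono ?_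
  rintro f ⟨S, hS, rfl⟩
  exact ⟨S, hS.mono h, rfl⟩

theorem one_mem_Loc (k : ℕ) : (1 : (E → ZMod 2) → K) ∈ Loc K G k := by
  rw [← chi_zero]
  exact chi_mem_Loc K (Sml.zero k)

theorem Loc_mul {k l : ℕ} {f g : (E → ZMod 2) → K} (hf : f ∈ Loc K G k) (hg : g ∈ Loc K G l) :
    f * g ∈ Loc K G (k + l) := by
  unfold Loc at hf hg
  induction hf using Submodule.span_induction with
  | mem f hf =>
    obtain ⟨S, hS, rfl⟩ := hf
    induction hg using Submodule.span_induction with
    | mem g hg =>
      obtain ⟨T, hT, rfl⟩ := hg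
      rw [chi_mul]
      exact chi_mem_Loc K (hS.add hT)
    | zero => rw [mul_zero]; exact Submodule.zero_mem _
    | add g g' _ _ h1 h2 => rw [mul_add]; exact Submodule.add_mem _ h1 h2
    | smul a g _ h => rw [mul_smul_comm]; exact Submodule.smul_mem _ _ h
  | zero => rw [zero_mul]; exact Submodule.zero_mem _
  | add f f' _ _ h1 h2 => rw [add_mul]; exact Submodule.add_mem _ h1 h2
  | smul a f _ h => rw [smul_mul_assoc]; exact Submodule.smul_mem _ _ h

/-- a function that depends only on the edges touching `U` -/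
theorem dep_mem_span (h2 : (2 : K) ≠ 0) (U : Finset V) (f : (E → ZMod 2) → K)
    (hf : ∀ y y', G.Agree U y y' → f y = f y') :
    f ∈ Submodule.span K {g | ∃ S, Cov G U S ∧ g = chi K S} := by
  rw [inversion K h2 f]
  refine Submodule.sum_mem _ fun R _ => ?_
  by_cases hR : Cov G U R
  · exact Submodule.smul_mem _ _ (Submodule.subset_span ⟨R, hR, rfl⟩)
  · have h0 : hat K f R = 0 := by
      unfold Cov at hR
      push Not at hR
      obtain ⟨e, he, heU⟩ := hR
      unfold hat
      have hz : pr R (Pi.single e 1) = 1 := by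
        unfold pr
        rw [Finset.sum_eq_single e]
        · have : ∀ a : ZMod 2, a ≠ 0 → a = 1 := by decide
          rw [this _ he, Pi.single_eq_same, mul_one]
        · intro b _ hb
          rw [Pi.single_eq_of_ne hb, mul_zero]
        · intro h
          exact absurd (Finset.mem_univ e) h
      rw [sum_eq_zero_of_shift K h2 _ _ (Pi.single e 1) (fun y _ => Finset.mem_univ _), mul_zero]
      intro y _
      have h1 : f (y + Pi.single e 1) = f y := by
        refine (hf y _ fun e' he' => ?_).symm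
        have hne : e' ≠ e := by
          intro h
          rw [h] at he'
          exact heU he'
        rw [Pi.add_apply, Pi.single_eq_of_ne hne, add_zero]
      rw [h1, chi_add_right]
      have : chi K R (Pi.single e 1) = -1 := by
        unfold chi
        rw [hz]
        simp [sg]
      rw [this]
      ring
    rw [h0, zero_smul]
    exact Submodule.zero_mem _

theorem dep_mem_Loc (h2 : (2 : K) ≠ 0) {k : ℕ} (U : Finset V) (hU : U.card ≤ k)
    (f : (E → ZMod 2) → K) (hf : ∀ y y', G.Agree U y y' → f y = f y') : f ∈ Loc K G k := by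
  refine Submodule.span_mono ?_ (dep_mem_span K h2 U f hf)
  rintro g ⟨S, hS, rfl⟩
  exact ⟨S, ⟨U, hU, hS⟩, rfl⟩

/-! ### the ideal -/

variable (Fr v0)

/-- the functions that are orthogonal to all characters with small support -/
noncomputable def Nul (M M1 : ℕ) : Submodule K ((E → ZMod 2) → K) where
  carrier := {f | ∀ S, Sml G M S → phi K (ee Fr v0 K M1) (f * chi K S) = 0}
  add_mem' := by
    intro f g hf hg S hS
    rw [add_mul, map_add, hf S hS, hg S hS, add_zero]
  zero_mem' := by
    intro S _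
    rw [zero_mul, map_zero]
  smul_mem' := by
    intro a f hf S hS
    rw [smul_mul_assoc, map_smul, hf S hS, smul_zero]

variable {Fr v0}

theorem mem_Nul {M1 : ℕ} {f : (E → ZMod 2) → K} :
    f ∈ Nul Fr v0 K M M1 ↔ ∀ S, Sml G M S → phi K (ee Fr v0 K M1) (f * chi K S) = 0 := Iff.rfl

theorem one_not_mem_Nul (h2 : (2 : K) ≠ 0) (h0 : Fr.Free ∅ v0) {M1 : ℕ} (hM : 2 * M1 ≤ Fr.m) :
    (1 : (E → ZMod 2) → K) ∉ Nul Fr v0 K M M1 := by
  intro h
  have h1 := h 0 (Sml.zero M)
  rw [one_mul, phi_chi K h2, ee_zero K hM h0] at h1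
  exact one_ne_zero h1

/-- **the ideal property** -/
theorem mul_mem_Nul (h2 : (2 : K) ≠ 0) (h0 : Fr.Free ∅ v0) {a b M1 : ℕ} (ha : a ≤ M)
    (hab : M + a + b ≤ M1) (hM : 3 * M1 ≤ Fr.m) {f g : (E → ZMod 2) → K}
    (hf : f ∈ Loc K G a) (hf0 : f ∈ Nul Fr v0 K M M1) (hg : g ∈ Loc K G b) :
    f * g ∈ Nul Fr v0 K M M1 := by
  -- the values on all characters of degree at most `M + b`
  have key : ∀ R', Sml G (M + b) R' → phi K (ee Fr v0 K M1) (f * chi K R') = 0 := by
    intro R' hR'
    obtain ⟨c, hc⟩ := (Finsupp.mem_span_iff_linearCombination K _ f).1 hf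
    have hf' : f = ∑ i ∈ c.support, c i • (i : (E → ZMod 2) → K) := by
      rw [← hc, Finsupp.linearCombination_apply, Finsupp.sum]
    -- each element of the span set is a character
    choose T hT1 hT2 using fun i : {f : (E → ZMod 2) → K | ∃ S, Sml G a S ∧ f = chi K S} => i.2
    have hphi : ∀ R, phi K (ee Fr v0 K M1) (f * chi K R) =
        ∑ i ∈ c.support, c i * ee Fr v0 K M1 (T i + R) := by
      intro R
      conv_lhs => rw [hf']
      rw [Finset.sum_mul, map_sum]
      refine Finset.sum_congr rfl fun i _ => ?_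
      rw [smul_mul_assoc, map_smul, smul_eq_mul]
      congr 1
      rw [hT2 i, chi_mul, phi_chi K h2]
    rw [hphi]
    by_cases hall : ∀ i ∈ c.support, ee Fr v0 K M1 (T i + R') = 0
    · exact Finset.sum_eq_zero fun i hi => by rw [hall i hi, mul_zero]
    · push Not at hall
      obtain ⟨i0, hi0, hne⟩ := hall
      have hO := ee_orth K hne
      have hval : ∀ i ∈ c.support, c i * ee Fr v0 K M1 (T i + R') =
          ee Fr v0 K M1 (T i0 + R') * (c i * ee Fr v0 K M1 (T i + T i0)) := by
        intro i _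
        have e1 : T i + R' = (T i0 + R') + (T i + T i0) := by
          calc T i + R' = T i + R' + (T i0 + T i0) := by rw [add_self_fun, add_zero]
            _ = (T i0 + R') + (T i + T i0) := by abel
        have e2 : ee Fr v0 K M1 (T i + R') =
            ee Fr v0 K M1 (T i0 + R') * ee Fr v0 K M1 (T i + T i0) := by
          rw [e1]
          refine ee_mul K hM h0 (((hT1 i0).add hR').mono (by omega))
            (((hT1 i).add (hT1 i0)).mono (by omega)) ?_ hO
          rw [← e1]
          exact ((hT1 i).add hR').mono (by omega)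
        rw [e2]
        ring
      rw [Finset.sum_congr rfl hval, ← Finset.mul_sum, ← hphi, hf0 (T i0) ((hT1 i0).mono ha),
        mul_zero]
  intro S hS
  unfold Loc at hg
  induction hg using Submodule.span_induction with
  | mem g hg =>
    obtain ⟨T, hT, rfl⟩ := hg
    rw [mul_assoc, chi_mul]
    exact key _ ((hT.add hS).mono (by omega))
  | zero => rw [mul_zero, zero_mul, map_zero]
  | add g g' _ _ h1 h3 => rw [mul_add, add_mul, map_add, h1, h3, add_zero]
  | smul a g _ h => rw [mul_smul_comm, smul_mul_assoc, map_smul, h, smul_zero]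

/-- the cycles -/
noncomputable def cyc (G : Gph V E) : Finset (E → ZMod 2) := univ.filter fun z => G.bd z = 0

theorem cyc_zero : (0 : E → ZMod 2) ∈ cyc G := by
  unfold cyc
  rw [Finset.mem_filter]
  exact ⟨Finset.mem_univ _, Gph.bd_zero G⟩

theorem cyc_add {z z' : E → ZMod 2} (h : z ∈ cyc G) (h' : z' ∈ cyc G) : z + z' ∈ cyc G := by
  unfold cyc at *
  rw [Finset.mem_filter] at *
  exact ⟨Finset.mem_univ _, by rw [Gph.bd_add, h.2, h'.2, add_zero]⟩

/-- the number of cycles is a power of two -/
theorem card_cyc_ne (h2 : (2 : K) ≠ 0) : ((cyc G).card : K) ≠ 0 := by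
  have hdvd : (cyc G).card ∣ 2 ^ Fintype.card E := by
    let H : AddSubgroup (E → ZMod 2) :=
      { carrier := {z | G.bd z = 0}
        add_mem' := by
          intro a b ha hb
          show G.bd (a + b) = 0
          rw [Gph.bd_add, ha, hb, add_zero]
        zero_mem' := Gph.bd_zero G
        neg_mem' := by
          intro a ha
          show G.bd (-a) = 0
          have : -a = a := by
            funext e
            exact ZMod.neg_eq_self_mod_two (a e)
          rw [this]
          exact ha }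
    have h1 : Nat.card H = (cyc G).card := by
      rw [Nat.card_eq_fintype_card, Fintype.card_subtype]
      rfl
    have h3 := AddSubgroup.card_addSubgroup_dvd_card H
    rw [h1] at h3
    refine h3.trans (dvd_of_eq ?_)
    rw [Nat.card_eq_fintype_card]
    simp [ZMod.card]
  obtain ⟨j, _, hj⟩ := (Nat.dvd_prime_pow Nat.prime_two).1 hdvd
  rw [hj]
  push_cast
  exact pow_ne_zero _ h2

/-- the pseudo-expectation of a function of small degree is an average over actual assignments -/
theorem phi_avg (h2 : (2 : K) ≠ 0) {M1 : ℕ} (hM : 2 * M1 ≤ Fr.m) {U : Finset V} (hU : U.card ≤ M1)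
    {t : V} (ht : Fr.Free U t) {y : E → ZMod 2} (hy : G.bd y = pt v0 + pt t)
    {f : (E → ZMod 2) → K} (hf : f ∈ Submodule.span K {g | ∃ S, Cov G U S ∧ g = chi K S}) :
    ((cyc G).card : K) * phi K (ee Fr v0 K M1) f = ∑ z ∈ cyc G, f (y + z) := by
  induction hf using Submodule.span_induction with
  | mem g hg =>
    obtain ⟨S, hS, rfl⟩ := hg
    rw [phi_chi K h2]
    simp only [chi_add_right]
    by_cases hO : Orth G S
    · rw [ee_eq K hM hO ⟨U, t, hU, hS, ht, hy⟩]
      have h1 : ∀ z ∈ cyc G, chi K S y * chi K S z = chi K S y := by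
        intro z hz
        unfold cyc at hz
        rw [Finset.mem_filter] at hz
        have : chi K S z = 1 := by
          unfold chi
          rw [hO z hz.2, sg_zero]
        rw [this, mul_one]
      rw [Finset.sum_congr rfl h1, Finset.sum_const, nsmul_eq_mul]
    · rw [ee_eq_zero K hO, mul_zero, ← Finset.mul_sum]
      unfold Orth at hO
      push Not at hO
      obtain ⟨z0, hz0, hz1⟩ := hO
      have h3 : pr S z0 = 1 := by
        have : ∀ a : ZMod 2, a ≠ 0 → a = 1 := by decide
        exact this _ hz1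
      rw [sum_eq_zero_of_shift K h2 (cyc G) (chi K S) z0, mul_zero]
      · intro z hz
        refine cyc_add hz ?_
        unfold cyc
        rw [Finset.mem_filter]
        exact ⟨Finset.mem_univ _, hz0⟩
      · intro z _
        rw [chi_add_right]
        have : chi K S z0 = -1 := by
          unfold chi
          rw [h3]
          simp [sg]
        rw [this, mul_neg_one]
  | zero => simp
  | add g g' _ _ h1 h3 =>
    rw [map_add, mul_add, h1, h3, ← Finset.sum_add_distrib]
    rfl
  | smul a g _ h =>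
    rw [map_smul, smul_eq_mul]
    calc ((cyc G).card : K) * (a * phi K (ee Fr v0 K M1) g)
        = a * (((cyc G).card : K) * phi K (ee Fr v0 K M1) g) := by ring
      _ = a * ∑ z ∈ cyc G, g (y + z) := by rw [h]
      _ = ∑ z ∈ cyc G, (a • g) (y + z) := by
          rw [Finset.mul_sum]
          rfl

/-- **local contradictions are in the ideal** -/
theorem cyl_mem_Nul (h2 : (2 : K) ≠ 0) (h0 : Fr.Free ∅ v0) {M1 : ℕ} (hM : 2 * M1 ≤ Fr.m)
    (U : Finset V) (hU : U.card + M ≤ M1) (y0 : E → ZMod 2)
    (hno : ∀ y, G.Agree U y0 y → ¬ Fr.Ok v0 U y) :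
    (fun y => if G.Agree U y0 y then 1 else 0 : (E → ZMod 2) → K) ∈ Nul Fr v0 K M M1 := by
  intro S hS
  obtain ⟨US, hUS, hCS⟩ := hS
  have hcard : (U ∪ US).card ≤ M1 := (Finset.card_union_le _ _).trans (by omega)
  obtain ⟨t, y, hf, hy⟩ := exists_wit (v0 := v0) h0 (U ∪ US) (by omega)
  have hdep : (fun y => if G.Agree U y0 y then 1 else 0 : (E → ZMod 2) → K) * chi K S ∈
      Submodule.span K {g | ∃ S, Cov G (U ∪ US) S ∧ g = chi K S} := by
    refine dep_mem_span K h2 _ _ fun y y' hag => ?_
    simp only [Pi.mul_apply]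
    have h1 : G.Agree U y0 y ↔ G.Agree U y0 y' := by
      have hag' : G.Agree U y y' := hag.mono Finset.subset_union_left
      exact ⟨fun h => h.trans hag', fun h => h.trans hag'.symm⟩
    have h3 : chi K S y = chi K S y' := by
      unfold chi
      congr 1
      unfold pr
      refine Finset.sum_congr rfl fun e _ => ?_
      by_cases h : S e = 0
      · rw [h, zero_mul, zero_mul]
      · rw [hag e (G.inc_mono Finset.subset_union_right (hCS e h))]
    simp only [h1, h3]
  have havg := phi_avg K h2 hM hcard hf hy hdep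
  have hzero : ∑ z ∈ cyc G, ((fun y => if G.Agree U y0 y then 1 else 0 : (E → ZMod 2) → K) *
      chi K S) (y + z) = 0 := by
    refine Finset.sum_eq_zero fun z hz => ?_
    rw [Pi.mul_apply]
    have : ¬ G.Agree U y0 (y + z) := by
      intro hag
      refine hno _ hag ⟨t, ?_, Fr.anti Finset.subset_union_left hf⟩
      unfold cyc at hz
      rw [Finset.mem_filter] at hz
      rw [Gph.bd_add, hy, hz.2, add_zero]
    simp [this]
  rw [hzero] at havg
  exact (mul_eq_zero.1 havg).resolve_left (card_cyc_ne K h2)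

end

end FrM
end

section

/-!
Few modular gates (namespace `FrM`): decision trees of a valuation, as functions on the cube.
-/

set_option linter.unusedSectionVars false

namespace FrM

open Finset FrC
open Fr56 (Fm)
open scoped Classical

/-- splitting a function along the classes of a partition -/
theorem mem_of_classes {Y K : Type} [Fintype Y] [Field K] (N : Submodule K (Y → K))
    (cls : Y → Set Y) (hself : ∀ y, y ∈ cls y) (heq : ∀ y y', y' ∈ cls y → cls y' = cls y)
    (g : Y → K) (h : ∀ y1, (fun y => if y ∈ cls y1 then g y else 0) ∈ N) : g ∈ N := by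
  have hg : g = ∑ C ∈ (univ : Finset Y).image cls, fun y => if y ∈ C then g y else 0 := by
    funext y
    rw [Finset.sum_apply, Finset.sum_eq_single (cls y)]
    · rw [if_pos (hself y)]
    · intro C hC hne
      obtain ⟨y1, _, rfl⟩ := Finset.mem_image.1 hC
      rw [if_neg]
      intro hy
      exact hne (heq y1 y hy).symm
    · intro hC
      exact absurd (Finset.mem_image_of_mem cls (Finset.mem_univ y)) hC
  rw [hg]
  refine Submodule.sum_mem _ fun C hC => ?_
  obtain ⟨y1, _, rfl⟩ := Finset.mem_image.1 hC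
  exact h y1

section
variable {V E : Type} [Fintype E] [DecidableEq V] {G : Gph V E} {Fr : Frame G} {v0 : V}

/-- the values on the edges touching `U` -/
noncomputable def rep (G : Gph V E) (U : Finset V) (y : E → ZMod 2) : E → ZMod 2 :=
  fun e => if e ∈ G.inc U then y e else 0

theorem agree_rep (U : Finset V) (y : E → ZMod 2) : G.Agree U (rep G U y) y := by
  intro e he
  unfold rep
  rw [if_pos he]

theorem rep_eq {U : Finset V} {y y' : E → ZMod 2} (h : G.Agree U y y') :
    rep G U y = rep G U y' := by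
  funext e
  unfold rep
  split_ifs with he
  · exact h e he
  · rfl

/-- a decision tree below a state -/
theorem tree_of_dec {cap : ℕ} {Q : Bool → Finset V → (E → ZMod 2) → Prop}
    (hmono : ∀ b U y y', U.card ≤ cap → Q b U y → G.Agree U y y' → Fr.Ok v0 U y' → Q b U y')
    {k : ℕ} {U : Finset V} {y : E → ZMod 2} (h : Dec Fr v0 Q k U y) (hc : U.card + k ≤ cap) :
    ∃ (t : (E → ZMod 2) → Bool) (Us : (E → ZMod 2) → Finset V), ∀ y', G.Agree U y y' →
      U ⊆ Us y' ∧ (Us y').card ≤ U.card + k ∧
      (∀ y'', G.Agree (Us y') y' y'' → Us y'' = Us y' ∧ t y'' = t y') ∧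
      (Fr.Ok v0 (Us y') y' → Q (t y') (Us y') y') := by
  induction h with
  | @leaf k U y b h =>
    refine ⟨fun _ => b, fun _ => U, fun y' hy' => ⟨Finset.Subset.refl _, Nat.le_add_right _ _,
      fun _ _ => ⟨rfl, rfl⟩, fun hok => hmono b U y y' (by omega) h hy' hok⟩⟩
  | @node k n U y N hN h ih =>
    have hcard := Finset.card_union_le U N
    -- the trees below the node
    have key : ∀ z : E → ZMod 2, ∃ (t : (E → ZMod 2) → Bool) (Us : (E → ZMod 2) → Finset V),
        ∀ y', G.Agree U y y' → G.Agree (U ∪ N) z y' →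
          U ∪ N ⊆ Us y' ∧ (Us y').card ≤ (U ∪ N).card + k ∧
          (∀ y'', G.Agree (Us y') y' y'' → Us y'' = Us y' ∧ t y'' = t y') ∧
          (Fr.Ok v0 (Us y') y' → Q (t y') (Us y') y') := by
      intro z
      by_cases hz : ∃ z', G.Agree (U ∪ N) z z' ∧ Fr.Ok v0 (U ∪ N) z'
      · obtain ⟨z', h1, h2⟩ := hz
        by_cases hyz : G.Agree U y z'
        · obtain ⟨t, Us, ht⟩ := ih z' hyz h2 (by omega)
          exact ⟨t, Us, fun y' _ hy2 => ht y' (h1.symm.trans hy2)⟩
        · refine ⟨fun _ => false, fun _ => U ∪ N, fun y' hy1 hy2 => absurd ?_ hyz⟩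
          exact hy1.trans ((hy2.symm.trans h1).mono Finset.subset_union_left)
      · refine ⟨fun _ => false, fun _ => U ∪ N, fun y' _ hy2 => ⟨Finset.Subset.refl _,
          Nat.le_add_right _ _, fun _ _ => ⟨rfl, rfl⟩, fun hok => absurd ⟨y', hy2, hok⟩ hz⟩⟩
    choose tt UU hh using key
    refine ⟨fun y' => tt (rep G (U ∪ N) y') y', fun y' => UU (rep G (U ∪ N) y') y',
      fun y' hy' => ?_⟩
    obtain ⟨h1, h2, h3, h4⟩ := hh (rep G (U ∪ N) y') y' hy' (agree_rep _ _)
    refine ⟨Finset.subset_union_left.trans h1, h2.trans (by omega), fun y'' hy'' => ?_, h4⟩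
    have h5 : rep G (U ∪ N) y'' = rep G (U ∪ N) y' := rep_eq (hy''.mono h1).symm
    simp only [h5]
    exact h3 y'' hy''

end

section
variable {V E : Type} [Fintype E] [DecidableEq V] {G : Gph V E} {Fr : Frame G} {v0 : V}
  {X : Type} {Φ : Set (Fm X)} {cap : ℕ}

/-- decision trees of the formulas of a valuation -/
structure Tr (S : Valn Fr v0 X Φ cap) (kk : ℕ) where
  t : Fm X → (E → ZMod 2) → Bool
  Us : Fm X → (E → ZMod 2) → Finset V
  card : ∀ f y, (Us f y).card ≤ kk
  cons : ∀ f y y', G.Agree (Us f y) y y' → Us f y' = Us f y ∧ t f y' = t f y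
  val : ∀ f ∈ Φ, ∀ y, Fr.Ok v0 (Us f y) y → S.Q f (t f y) (Us f y) y

theorem exists_tree (S : Valn Fr v0 X Φ cap) {kk : ℕ} (hD : S.Dcds kk) (hkk : kk ≤ cap)
    (h0 : Fr.Free ∅ v0) : Nonempty (Tr S kk) := by
  obtain ⟨y0, hy0⟩ := Frame.exists_ok Fr h0
  have hag : ∀ y : E → ZMod 2, G.Agree ∅ y0 y := by
    intro y e he
    unfold Gph.inc at he
    simp at he
  have key : ∀ f : Fm X, ∃ (t : (E → ZMod 2) → Bool) (Us : (E → ZMod 2) → Finset V),
      (∀ y, (Us y).card ≤ kk) ∧ (∀ y y', G.Agree (Us y) y y' → Us y' = Us y ∧ t y' = t y) ∧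
      (f ∈ Φ → ∀ y, Fr.Ok v0 (Us y) y → S.Q f (t y) (Us y) y) := by
    intro f
    by_cases hf : f ∈ Φ
    · obtain ⟨t, Us, h⟩ := tree_of_dec (cap := cap) (fun b U y y' hc hQ ha hok =>
        S.mono f hf b U U y y' (Finset.Subset.refl _) hc hQ ha hok) (hD f hf y0 hy0)
        (by rw [Finset.card_empty]; omega)
      refine ⟨t, Us, fun y => ?_, fun y => (h y (hag y)).2.2.1, fun _ y => (h y (hag y)).2.2.2⟩
      have := (h y (hag y)).2.1
      rw [Finset.card_empty] at this
      omega
    · exact ⟨fun _ => false, fun _ => ∅, fun _ => by rw [Finset.card_empty]; omega,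
        fun _ _ _ => ⟨rfl, rfl⟩, fun h => absurd h hf⟩
  choose t Us h1 h2 h3 using key
  exact ⟨⟨t, Us, h1, h2, fun f hf => h3 f hf⟩⟩

/-- functions computed by decision trees -/
theorem fun_mem_Loc {K : Type} [Field K] (h2 : (2 : K) ≠ 0) {a : ℕ}
    (κ : (E → ZMod 2) → Finset V) (hκ : ∀ y, (κ y).card ≤ a)
    (hc : ∀ y y', G.Agree (κ y) y y' → κ y' = κ y) (g : (E → ZMod 2) → K)
    (hg : ∀ y y', G.Agree (κ y) y y' → g y' = g y) : g ∈ Loc K G a := by
  refine mem_of_classes (Loc K G a) (fun y => {y' | G.Agree (κ y) y y'})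
    (fun y => Gph.Agree.refl G _ _) ?_ g ?_
  · intro y y' hy'
    rw [Set.mem_ofPred_eq] at hy'
    ext z
    rw [Set.mem_ofPred_eq, Set.mem_ofPred_eq, hc y y' hy']
    exact ⟨fun h => hy'.trans h, fun h => hy'.symm.trans h⟩
  · intro y1
    refine dep_mem_Loc K h2 (κ y1) (hκ y1) _ ?_
    intro y y' hyy'
    simp only [Set.mem_ofPred_eq]
    by_cases h : G.Agree (κ y1) y1 y
    · rw [if_pos h, if_pos (h.trans hyy'), hg y1 y h, hg y1 y' (h.trans hyy')]
    · rw [if_neg h, if_neg (fun h' => h (h'.trans hyy'.symm))]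

/-- the indicator of a cylinder -/
theorem cyl_mem_Loc {K : Type} [Field K] (h2 : (2 : K) ≠ 0) {a : ℕ} {U : Finset V}
    (hU : U.card ≤ a) (y : E → ZMod 2) :
    (fun y' => if G.Agree U y y' then (1 : K) else 0) ∈ Loc K G a := by
  refine dep_mem_Loc K h2 U hU _ ?_
  intro y' y'' h
  by_cases h1 : G.Agree U y y'
  · rw [if_pos h1, if_pos (h1.trans h)]
  · rw [if_neg h1, if_neg (fun h' => h1 (h'.trans h.symm))]

end

end FrM
end

section

/-!
Few modular gates (namespace `FrM`): purified formulas, evaluation of formulas with gates by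
decision trees, classes of assignments with given values of the gates.
-/

set_option linter.unusedSectionVars false

namespace FrM

open Finset FrC
open Fr56 (Fm)
open scoped Classical

section
variable {X Y : Type} (x0 : X)

/-- the constants -/
def cst : Bool → Fm X
  | true => .or (.var x0) (.neg (.var x0))
  | false => .and (.var x0) (.neg (.var x0))

/-- replacing the outermost gates by constants -/
def pur (u : Gf X → Bool) : Gf X → Fm X
  | .var v => .var v
  | .neg f => .neg (pur u f)
  | .and f g => .and (pur u f) (pur u g)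
  | .or f g => .or (pur u f) (pur u g)
  | .gate m φ a => cst x0 (u (.gate m φ a))

/-- evaluating the gates from the inside to the outside -/
def pY (t : Fm X → Y → Bool) (y : Y) : Gf X → Fm X
  | .var v => .var v
  | .neg f => .neg (pY t y f)
  | .and f g => .and (pY t y f) (pY t y g)
  | .or f g => .or (pY t y f) (pY t y g)
  | .gate _ φ a => cst x0 (φ fun i => t (pY t y (a i)) y)

/-- the value of a gate -/
def uy (t : Fm X → Y → Bool) (y : Y) : Gf X → Bool
  | .gate _ φ a => φ fun i => t (pY x0 t y (a i)) y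
  | _ => false

/-- the value of a formula with gates -/
def vl (t : Fm X → Y → Bool) (y : Y) (A : Gf X) : Bool := t (pY x0 t y A) y

variable {x0}

theorem pY_eq (t : Fm X → Y → Bool) (y : Y) (A : Gf X) :
    pY x0 t y A = pur x0 (uy x0 t y) A := by
  induction A with
  | var v => rfl
  | neg f ih => simp only [pY, pur, ih]
  | and f g ihf ihg => simp only [pY, pur, ihf, ihg]
  | or f g ihf ihg => simp only [pY, pur, ihf, ihg]
  | gate m φ a _ => rfl

theorem pY_ofFm (t : Fm X → Y → Bool) (y : Y) (f : Fm X) : pY x0 t y (Gf.ofFm f) = f := by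
  induction f with
  | var v => rfl
  | neg f ih => simp only [Gf.ofFm, pY, ih]
  | and f g ihf ihg => simp only [Gf.ofFm, pY, ihf, ihg]
  | or f g ihf ihg => simp only [Gf.ofFm, pY, ihf, ihg]

theorem gates_neg (f : Gf X) : (Gf.neg f).gates = f.gates := by
  ext g
  unfold Gf.gates
  simp only [Gf.subs, Set.mem_insert_iff, Set.mem_ofPred_eq]
  constructor
  · rintro ⟨rfl | h, h'⟩
    · exact absurd h' (by simp [Gf.IsGate])
    · exact ⟨h, h'⟩
  · rintro ⟨h, h'⟩
    exact ⟨Or.inr h, h'⟩

theorem gates_and (f g : Gf X) : (Gf.and f g).gates = f.gates ∪ g.gates := by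
  ext h
  unfold Gf.gates
  simp only [Gf.subs, Set.mem_insert_iff, Set.mem_ofPred_eq, Set.mem_union]
  constructor
  · rintro ⟨rfl | h1 | h1, h'⟩
    · exact absurd h' (by simp [Gf.IsGate])
    · exact Or.inl ⟨h1, h'⟩
    · exact Or.inr ⟨h1, h'⟩
  · rintro (⟨h1, h'⟩ | ⟨h1, h'⟩)
    · exact ⟨Or.inr (Or.inl h1), h'⟩
    · exact ⟨Or.inr (Or.inr h1), h'⟩

theorem gates_or (f g : Gf X) : (Gf.or f g).gates = f.gates ∪ g.gates := by
  ext h
  unfold Gf.gates
  simp only [Gf.subs, Set.mem_insert_iff, Set.mem_ofPred_eq, Set.mem_union]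
  constructor
  · rintro ⟨rfl | h1 | h1, h'⟩
    · exact absurd h' (by simp [Gf.IsGate])
    · exact Or.inl ⟨h1, h'⟩
    · exact Or.inr ⟨h1, h'⟩
  · rintro (⟨h1, h'⟩ | ⟨h1, h'⟩)
    · exact ⟨Or.inr (Or.inl h1), h'⟩
    · exact ⟨Or.inr (Or.inr h1), h'⟩

theorem gates_gate (m : ℕ) (φ : (Fin m → Bool) → Bool) (a : Fin m → Gf X) :
    (Gf.gate m φ a).gates = insert (Gf.gate m φ a) (⋃ i, (a i).gates) := by
  ext h
  unfold Gf.gates
  simp only [Gf.subs, Set.mem_insert_iff, Set.mem_ofPred_eq, Set.mem_iUnion]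
  constructor
  · rintro ⟨rfl | ⟨i, h1⟩, h'⟩
    · exact Or.inl rfl
    · exact Or.inr ⟨i, h1, h'⟩
  · rintro (rfl | ⟨i, h1, h'⟩)
    · exact ⟨Or.inl rfl, trivial⟩
    · exact ⟨Or.inr ⟨i, h1⟩, h'⟩

theorem gates_var (v : X) : (Gf.var v).gates = ∅ := by
  ext g
  unfold Gf.gates
  simp only [Gf.subs, Set.mem_singleton_iff, Set.mem_ofPred_eq, Set.mem_empty_iff_false,
    iff_false, not_and]
  rintro rfl
  simp [Gf.IsGate]

/-- a gate of a gate of `A` is a gate of `A` -/
theorem gates_closed {A g : Gf X} (h : g ∈ A.gates) : g.gates ⊆ A.gates := Gf.gates_mono h.1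

theorem pur_congr {u u' : Gf X → Bool} (A : Gf X) (h : ∀ g ∈ A.gates, u g = u' g) :
    pur x0 u A = pur x0 u' A := by
  induction A with
  | var v => rfl
  | neg f ih =>
    simp only [pur]
    rw [ih (fun g hg => h g (by rw [gates_neg]; exact hg))]
  | and f g ihf ihg =>
    simp only [pur]
    rw [ihf (fun k hk => h k (by rw [gates_and]; exact Or.inl hk)),
      ihg (fun k hk => h k (by rw [gates_and]; exact Or.inr hk))]
  | or f g ihf ihg =>
    simp only [pur]
    rw [ihf (fun k hk => h k (by rw [gates_or]; exact Or.inl hk)),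
      ihg (fun k hk => h k (by rw [gates_or]; exact Or.inr hk))]
  | gate m φ a _ =>
    simp only [pur]
    rw [h _ (by rw [gates_gate]; exact Or.inl rfl)]

/-- if the gates have the same values then the purified formulas are the same -/
theorem pY_congr {t : Fm X → Y → Bool} {y y' : Y} (A : Gf X)
    (h : ∀ g ∈ A.gates, uy x0 t y' g = uy x0 t y g) : pY x0 t y' A = pY x0 t y A := by
  rw [pY_eq, pY_eq]
  exact pur_congr A h

/-- the values of the gates of `A` are determined by the equations of the gates -/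
theorem uy_of_eqs {t : Fm X → Y → Bool} {y y' : Y} (A : Gf X)
    (h : ∀ m φ a, Gf.gate m φ a ∈ A.gates →
      φ (fun i => t (pur x0 (uy x0 t y) (a i)) y') = uy x0 t y (.gate m φ a)) :
    ∀ g ∈ A.gates, uy x0 t y' g = uy x0 t y g := by
  induction A with
  | var v =>
    intro g hg
    rw [gates_var] at hg
    exact absurd hg (Set.notMem_empty g)
  | neg f ih =>
    rw [gates_neg] at h ⊢
    exact ih h
  | and f g ihf ihg =>
    rw [gates_and] at h ⊢
    rintro k (hk | hk)
    · exact ihf (fun m φ a ha => h m φ a (Or.inl ha)) k hk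
    · exact ihg (fun m φ a ha => h m φ a (Or.inr ha)) k hk
  | or f g ihf ihg =>
    rw [gates_or] at h ⊢
    rintro k (hk | hk)
    · exact ihf (fun m φ a ha => h m φ a (Or.inl ha)) k hk
    · exact ihg (fun m φ a ha => h m φ a (Or.inr ha)) k hk
  | gate m φ a ih =>
    rw [gates_gate] at h ⊢
    have hin : ∀ i, ∀ g ∈ (a i).gates, uy x0 t y' g = uy x0 t y g := fun i =>
      ih i fun m' φ' a' ha' => h m' φ' a' (Or.inr (Set.mem_iUnion.2 ⟨i, ha'⟩))
    rintro k (rfl | hk)
    · rw [← h m φ a (Or.inl rfl)]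
      simp only [uy]
      congr 1
      funext i
      rw [pY_congr (a i) (hin i), pY_eq]
    · obtain ⟨i, hi⟩ := Set.mem_iUnion.1 hk
      exact hin i k hi

/-- the class of assignments with the same values of the gates in `Z` -/
theorem uy_class {t : Fm X → Y → Bool} {y y' : Y} {Z : Set (Gf X)}
    (hZ : ∀ g ∈ Z, g.gates ⊆ Z) (hg : ∀ g ∈ Z, g.IsGate) :
    (∀ g ∈ Z, uy x0 t y' g = uy x0 t y g) ↔ ∀ m φ a, Gf.gate m φ a ∈ Z →
      φ (fun i => t (pur x0 (uy x0 t y) (a i)) y') = uy x0 t y (.gate m φ a) := by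
  constructor
  · intro h m φ a ha
    have h1 : ∀ i, ∀ g ∈ (a i).gates, uy x0 t y' g = uy x0 t y g := fun i g hga =>
      h g (hZ _ ha (by rw [gates_gate]; exact Or.inr (Set.mem_iUnion.2 ⟨i, hga⟩)))
    rw [← h _ ha]
    simp only [uy]
    congr 1
    funext i
    rw [pY_congr (a i) (h1 i), pY_eq]
  · intro h g hgZ
    refine uy_of_eqs g (fun m φ a ha => h m φ a (hZ g hgZ ha)) g ?_
    exact ⟨Gf.self_mem_subs g, hg g hgZ⟩

end

end FrM
end
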