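import Pool.Agent.Lib.MP_51bb46_lc.M.Gate

section

section

/-!
Few modular gates (namespace `FrM`): degrees of the indicators of classes.
-/

set_option linter.unusedSectionVars false

namespace FrM

open Finset FrC
open Fr56 (Fm)
open scoped Classical

section
variable {V E : Type} [Fintype E] [DecidableEq V] {G : Gph V E}

theorem prod_mem_Loc {K ι : Type} [Field K] (s : Finset ι) (f : ι → (E → ZMod 2) → K) {a : ℕ}
    (h : ∀ i ∈ s, f i ∈ Loc K G a) : (∏ i ∈ s, f i) ∈ Loc K G (s.card * a) := by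
  induction s using Finset.induction_on with
  | empty =>
    rw [Finset.prod_empty]
    exact one_mem_Loc K _
  | insert i s hi ih =>
    rw [Finset.prod_insert hi, Finset.card_insert_of_notMem hi]
    have h1 := Loc_mul K (h i (Finset.mem_insert_self i s))
      (ih fun j hj => h j (Finset.mem_insert_of_mem hj))
    refine Loc_mono K (le_of_eq ?_) h1
    ring

/-- indicators of conjunctions -/
theorem ind_forall {K ι Y : Type} [Field K] (s : Finset ι) (c : ι → Y → Prop) :
    (fun y => if ∀ i ∈ s, c i y then (1 : K) else 0) =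
      ∏ i ∈ s, fun y => if c i y then (1 : K) else 0 := by
  funext y
  rw [Finset.prod_apply]
  induction s using Finset.induction_on with
  | empty => simp
  | insert i s hi ih =>
    rw [Finset.prod_insert hi, ← ih]
    by_cases h1 : c i y
    · by_cases h2 : ∀ j ∈ s, c j y
      · rw [if_pos, if_pos h1, if_pos h2, one_mul]
        intro j hj
        rcases Finset.mem_insert.1 hj with rfl | hj
        · exact h1
        · exact h2 j hj
      · rw [if_neg, if_neg h2, mul_zero]
        intro h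
        exact h2 fun j hj => h j (Finset.mem_insert_of_mem hj)
    · rw [if_neg, if_neg h1, zero_mul]
      intro h
      exact h1 (h i (Finset.mem_insert_self i s))

end

section
variable {V E : Type} [Fintype E] [DecidableEq V] {G : Gph V E} {Fr : Frame G} {v0 : V}
  {X : Type} {Φ : Set (Fm X)} {cap : ℕ} {S : Valn Fr v0 X Φ cap} {kk : ℕ} (T : Tr S kk)

theorem t_mem_Loc {K : Type} [Field K] (h2 : (2 : K) ≠ 0) (f : Fm X) (c : Bool) :
    (fun y => if T.t f y = c then (1 : K) else 0) ∈ Loc K G kk :=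
  fun_mem_Loc h2 (T.Us f) (T.card f) (fun y y' h => (T.cons f y y' h).1) _
    (fun y y' h => by rw [(T.cons f y y' h).2])

variable {p : ℕ} [Fact p.Prime]

theorem gate_mem_Loc (h2 : (2 : ZMod p) ≠ 0) {m : ℕ} {φ : (Fin m → Bool) → Bool} {e : ℕ}
    (hφ : PolyDeg p φ (e : ℝ)) (P : Fin m → Fm X) (c : Bool) :
    (fun y => if φ (fun i => T.t (P i) y) = c then (1 : ZMod p) else 0) ∈
      Loc (ZMod p) G (e * kk) := by
  have h1 : (fun y => if φ (fun i => T.t (P i) y) = true then (1 : ZMod p) else 0) ∈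
      Loc (ZMod p) G (e * kk) := by
    obtain ⟨co, hco, hval⟩ := hφ
    have heq : (fun y => if φ (fun i => T.t (P i) y) = true then (1 : ZMod p) else 0) =
        ∑ s : Finset (Fin m), co s • ∏ i ∈ s, (fun y => if T.t (P i) y = true then (1 : ZMod p) else 0) := by
      funext y
      rw [Finset.sum_apply]
      rw [hval (fun i => T.t (P i) y)]
      refine Finset.sum_congr rfl fun s _ => ?_
      rw [Pi.smul_apply, Finset.prod_apply, smul_eq_mul]
    rw [heq]
    refine Submodule.sum_mem _ fun s _ => ?_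
    by_cases hs : (e : ℝ) < (s.card : ℝ)
    · rw [hco s hs, zero_smul]
      exact Submodule.zero_mem _
    · refine Submodule.smul_mem _ _ ?_
      refine Loc_mono (ZMod p) ?_ (prod_mem_Loc s _ fun i _ => t_mem_Loc T h2 (P i) true)
      have : s.card ≤ e := by
        push Not at hs
        exact_mod_cast hs
      exact Nat.mul_le_mul_right _ this
  cases c with
  | true => exact h1
  | false =>
    have heq : (fun y => if φ (fun i => T.t (P i) y) = false then (1 : ZMod p) else 0) =
        1 - (fun y => if φ (fun i => T.t (P i) y) = true then (1 : ZMod p) else 0) := by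
      funext y
      rw [Pi.sub_apply, Pi.one_apply]
      cases φ (fun i => T.t (P i) y) <;> simp
    rw [heq]
    exact Submodule.sub_mem _ (one_mem_Loc (ZMod p) _) h1

/-- the indicator of the class of assignments with given values of the gates -/
theorem class_mem_Loc (h2 : (2 : ZMod p) ≠ 0) (x0 : X) {Z : Set (Gf X)} (hfin : Z.Finite)
    (hZ : ∀ g ∈ Z, g.gates ⊆ Z) (hg : ∀ g ∈ Z, g.IsGate) {w e : ℕ} (hw : Z.ncard ≤ w)
    (hdeg : ∀ m φ a, Gf.gate m φ a ∈ Z → PolyDeg p φ (e : ℝ)) (y : E → ZMod 2) :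
    (fun y' => if ∀ g ∈ Z, uy x0 T.t y' g = uy x0 T.t y g then (1 : ZMod p) else 0) ∈
      Loc (ZMod p) G (w * (e * kk)) := by
  have heq : (fun y' => if ∀ g ∈ Z, uy x0 T.t y' g = uy x0 T.t y g then (1 : ZMod p) else 0) =
      fun y' => if ∀ g ∈ hfin.toFinset, (∀ m φ a, g = Gf.gate m φ a →
        φ (fun i => T.t (pur x0 (uy x0 T.t y) (a i)) y') = uy x0 T.t y g) then (1 : ZMod p)
        else 0 := by
    funext y'
    have hiff : (∀ g ∈ Z, uy x0 T.t y' g = uy x0 T.t y g) ↔
        (∀ g ∈ hfin.toFinset, (∀ m φ a, g = Gf.gate m φ a →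
        φ (fun i => T.t (pur x0 (uy x0 T.t y) (a i)) y') = uy x0 T.t y g)) := by
      rw [uy_class hZ hg]
      constructor
      · rintro h g hgZ m φ a rfl
        exact h m φ a ((Set.Finite.mem_toFinset hfin).1 hgZ)
      · intro h m φ a ha
        exact h _ ((Set.Finite.mem_toFinset hfin).2 ha) m φ a rfl
    by_cases hc : ∀ g ∈ Z, uy x0 T.t y' g = uy x0 T.t y g
    · rw [if_pos hc, if_pos (hiff.1 hc)]
    · rw [if_neg hc, if_neg (fun h => hc (hiff.2 h))]
  rw [heq, ind_forall]
  have hcard : hfin.toFinset.card ≤ w := by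
    rw [← Set.ncard_eq_toFinset_card Z hfin]
    exact hw
  refine Loc_mono (ZMod p) (Nat.mul_le_mul_right _ hcard) (prod_mem_Loc _ _ fun g hgm => ?_)
  have hgZ := (Set.Finite.mem_toFinset hfin).1 hgm
  have hgg := hg g hgZ
  cases g with
  | var v => exact absurd hgg (by simp [Gf.IsGate])
  | neg f => exact absurd hgg (by simp [Gf.IsGate])
  | and f g => exact absurd hgg (by simp [Gf.IsGate])
  | or f g => exact absurd hgg (by simp [Gf.IsGate])
  | gate m φ a =>
    have h3 := gate_mem_Loc T h2 (hdeg m φ a hgZ) (fun i => pur x0 (uy x0 T.t y) (a i))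
      (uy x0 T.t y (.gate m φ a))
    refine (congrArg (· ∈ Loc (ZMod p) G (e * kk)) ?_).mp h3
    funext y'
    have hiff : (φ (fun i => T.t (pur x0 (uy x0 T.t y) (a i)) y') = uy x0 T.t y (.gate m φ a)) ↔
        (∀ m' φ' a', Gf.gate m φ a = Gf.gate m' φ' a' →
        φ' (fun i => T.t (pur x0 (uy x0 T.t y) (a' i)) y') = uy x0 T.t y (.gate m φ a)) := by
      constructor
      · intro h m' φ' a' heq'
        simp only [Gf.gate.injEq] at heq'
        obtain ⟨rfl, h4, h5⟩ := heq'
        rw [heq_eq_eq] at h4 h5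
        subst h4 h5
        exact h
      · intro h
        exact h m φ a rfl
    by_cases hc : φ (fun i => T.t (pur x0 (uy x0 T.t y) (a i)) y') = uy x0 T.t y (.gate m φ a)
    · rw [if_pos hc, if_pos (hiff.1 hc)]
    · rw [if_neg hc, if_neg (fun h => hc (hiff.2 h))]

end

end FrM
end

section

/-!
Few modular gates (namespace `FrM`): the partition of the cube given by finitely many formulas;
core subpatterns.
-/

set_option linter.unusedSectionVars false

namespace FrM

open Finset FrC
open Fr56 (Fm)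
open scoped Classical

section
variable {V E : Type} [Fintype E] [DecidableEq V] {G : Gph V E} {Fr : Frame G} {v0 : V}
  {X : Type} {Φ : Set (Fm X)} {cap : ℕ} {S : Valn Fr v0 X Φ cap} {kk : ℕ} (T : Tr S kk)
  (x0 : X) (Z : Set (Gf X)) (Cs : Finset (Gf X)) (Ps : Finset (Fm X))

/-- the vertices revealed by the decision trees of the formulas in `Cs` and `Ps` -/
noncomputable def kap (y : E → ZMod 2) : Finset V :=
  (Cs.biUnion fun P => T.Us (pY x0 T.t y P) y) ∪ (Ps.biUnion fun f => T.Us f y)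

/-- the class of `y` -/
def cls (y : E → ZMod 2) : Set (E → ZMod 2) :=
  {y' | G.Agree (kap T x0 Cs Ps y) y y' ∧ ∀ g ∈ Z, uy x0 T.t y' g = uy x0 T.t y g}

theorem card_kap (y : E → ZMod 2) : (kap T x0 Cs Ps y).card ≤ (Cs.card + Ps.card) * kk := by
  unfold kap
  refine (Finset.card_union_le _ _).trans ?_
  rw [add_mul]
  exact Nat.add_le_add (Finset.card_biUnion_le_card_mul _ _ _ fun P _ => T.card _ _)
    (Finset.card_biUnion_le_card_mul _ _ _ fun P _ => T.card _ _)

theorem cls_self (y : E → ZMod 2) : y ∈ cls T x0 Z Cs Ps y :=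
  ⟨Gph.Agree.refl G _ _, fun _ _ => rfl⟩

variable {x0 Z Cs Ps}

theorem us_sub_kap {P : Gf X} (hP : P ∈ Cs) (y : E → ZMod 2) :
    T.Us (pY x0 T.t y P) y ⊆ kap T x0 Cs Ps y :=
  (Finset.subset_biUnion_of_mem (fun P => T.Us (pY x0 T.t y P) y) hP).trans
    Finset.subset_union_left

theorem us_sub_kap' {f : Fm X} (hf : f ∈ Ps) (y : E → ZMod 2) :
    T.Us f y ⊆ kap T x0 Cs Ps y :=
  (Finset.subset_biUnion_of_mem (fun f => T.Us f y) hf).trans Finset.subset_union_right

theorem pY_cls (hCs : ∀ P ∈ Cs, P.gates ⊆ Z) {y y' : E → ZMod 2}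
    (h : y' ∈ cls T x0 Z Cs Ps y) {P : Gf X} (hP : P ∈ Cs) :
    pY x0 T.t y' P = pY x0 T.t y P :=
  pY_congr P fun g hg => h.2 g (hCs P hP hg)

theorem vl_cls (hCs : ∀ P ∈ Cs, P.gates ⊆ Z) {y y' : E → ZMod 2}
    (h : y' ∈ cls T x0 Z Cs Ps y) {P : Gf X} (hP : P ∈ Cs) :
    vl x0 T.t y' P = vl x0 T.t y P := by
  unfold vl
  rw [pY_cls T hCs h hP]
  exact (T.cons _ y y' (h.1.mono (us_sub_kap T hP y))).2

theorem kap_cls (hCs : ∀ P ∈ Cs, P.gates ⊆ Z) {y y' : E → ZMod 2}
    (h : y' ∈ cls T x0 Z Cs Ps y) : kap T x0 Cs Ps y' = kap T x0 Cs Ps y := by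
  have h1 : ∀ P ∈ Cs, T.Us (pY x0 T.t y' P) y' = T.Us (pY x0 T.t y P) y := by
    intro P hP
    rw [pY_cls T hCs h hP]
    exact (T.cons _ y y' (h.1.mono (us_sub_kap T hP y))).1
  have h2 : ∀ f ∈ Ps, T.Us f y' = T.Us f y := fun f hf =>
    (T.cons _ y y' (h.1.mono (us_sub_kap' T hf y))).1
  unfold kap
  rw [Finset.biUnion_congr rfl h1, Finset.biUnion_congr rfl h2]

theorem cls_cls (hCs : ∀ P ∈ Cs, P.gates ⊆ Z) {y y' : E → ZMod 2}
    (h : y' ∈ cls T x0 Z Cs Ps y) : cls T x0 Z Cs Ps y' = cls T x0 Z Cs Ps y := by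
  ext z
  have hk := kap_cls T hCs h
  constructor
  · rintro ⟨h1, h2⟩
    rw [hk] at h1
    exact ⟨h.1.trans h1, fun g hg => (h2 g hg).trans (h.2 g hg)⟩
  · rintro ⟨h1, h2⟩
    refine ⟨?_, fun g hg => (h2 g hg).trans (h.2 g hg).symm⟩
    rw [hk]
    exact h.1.symm.trans h1

/-- the indicator of a class as a product -/
theorem ind_cls {K : Type} [Field K] (y : E → ZMod 2) :
    (fun y' => if y' ∈ cls T x0 Z Cs Ps y then (1 : K) else 0) =
      (fun y' => if G.Agree (kap T x0 Cs Ps y) y y' then (1 : K) else 0) *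
      (fun y' => if ∀ g ∈ Z, uy x0 T.t y' g = uy x0 T.t y g then (1 : K) else 0) := by
  funext y'
  rw [Pi.mul_apply]
  unfold cls
  simp only [Set.mem_ofPred_eq]
  by_cases h1 : G.Agree (kap T x0 Cs Ps y) y y'
  · by_cases h2 : ∀ g ∈ Z, uy x0 T.t y' g = uy x0 T.t y g
    · rw [if_pos ⟨h1, h2⟩, if_pos h1, if_pos h2, one_mul]
    · rw [if_neg (fun h => h2 h.2), if_pos h1, if_neg h2, one_mul]
  · rw [if_neg (fun h => h1 h.1), if_neg h1, zero_mul]

end

section
variable {V E : Type} [Fintype E] [DecidableEq V] {G : Gph V E} {Fr : Frame G} {v0 : V}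
  {X : Type} {Φ : Set (Fm X)} {cap : ℕ} {S : Valn Fr v0 X Φ cap} {kk : ℕ} (T : Tr S kk)
  (x0 : X) {p : ℕ} [Fact p.Prime]

/-- the indicator of a value of a formula -/
noncomputable def ind (p : ℕ) (A : Gf X) (c : Bool) : (E → ZMod 2) → ZMod p :=
  fun y => if vl x0 T.t y A = c then 1 else 0

theorem ind_mem_Loc (h2 : (2 : ZMod p) ≠ 0) (A : Gf X) {w e : ℕ} (hw : A.gates.ncard ≤ w)
    (hdeg : ∀ m φ a, Gf.gate m φ a ∈ A.gates → PolyDeg p φ (e : ℝ)) (c : Bool) :
    ind T x0 p A c ∈ Loc (ZMod p) G (w * (e * kk) + kk) := by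
  have hCs : ∀ P ∈ ({A} : Finset (Gf X)), P.gates ⊆ A.gates := by
    intro P hP
    rw [Finset.mem_singleton] at hP
    rw [hP]
  refine mem_of_classes _ (cls T x0 A.gates {A} ∅) (cls_self T x0 _ _ _)
    (fun y y' h => cls_cls T hCs h) _ ?_
  intro y1
  have heq : (fun y => if y ∈ cls T x0 A.gates {A} ∅ y1 then ind T x0 p A c y else 0) =
      ind T x0 p A c y1 • ((fun y' => if G.Agree (kap T x0 {A} ∅ y1) y1 y' then (1 : ZMod p) else 0) *
      (fun y' => if ∀ g ∈ A.gates, uy x0 T.t y' g = uy x0 T.t y1 g then (1 : ZMod p) else 0)) := by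
    rw [← ind_cls T y1]
    funext y
    rw [Pi.smul_apply, smul_eq_mul]
    by_cases h : y ∈ cls T x0 A.gates {A} ∅ y1
    · rw [if_pos h, if_pos h, mul_one]
      unfold ind
      rw [vl_cls T hCs h (Finset.mem_singleton_self A)]
    · rw [if_neg h, if_neg h, mul_zero]
  rw [heq]
  refine Submodule.smul_mem _ _ ?_
  have h1 : (kap T x0 {A} ∅ y1).card ≤ kk := by
    have := card_kap T x0 {A} ∅ y1
    rw [Finset.card_singleton, Finset.card_empty, add_zero, one_mul] at this
    exact this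
  refine Loc_mono (ZMod p) (le_of_eq (Nat.add_comm _ _)) (Loc_mul (ZMod p) (cyl_mem_Loc h2 h1 y1)
    (class_mem_Loc T h2 x0 A.gates_finite (fun g hg => gates_closed hg) (fun g hg => hg.2) hw
      hdeg y1))

end

/-! ### core subpatterns -/

/-- the subpatterns of a pattern that are not variables which are arguments of gates -/
noncomputable def core : Gf ℕ → Finset (Gf ℕ)
  | .var v => {.var v}
  | .neg f => insert (.neg f) (core f)
  | .and f g => insert (.and f g) (core f ∪ core g)
  | .or f g => insert (.or f g) (core f ∪ core g)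
  | .gate m φ a => insert (.gate m φ a) (univ.biUnion fun i =>
      if (a i).conn = 0 then ∅ else core (a i))

theorem core_self (A : Gf ℕ) : A ∈ core A := by
  cases A <;> simp [core]

theorem core_subs {A B : Gf ℕ} (h : B ∈ core A) : B ∈ A.subs := by
  induction A with
  | var v =>
    simp only [core, Finset.mem_singleton] at h
    rw [h]
    exact Gf.self_mem_subs _
  | neg f ih =>
    simp only [core, Finset.mem_insert] at h
    simp only [Gf.subs, Set.mem_insert_iff]
    exact h.imp id ih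
  | and f g ihf ihg =>
    simp only [core, Finset.mem_insert, Finset.mem_union] at h
    simp only [Gf.subs, Set.mem_insert_iff, Set.mem_union]
    exact h.imp id (Or.imp ihf ihg)
  | or f g ihf ihg =>
    simp only [core, Finset.mem_insert, Finset.mem_union] at h
    simp only [Gf.subs, Set.mem_insert_iff, Set.mem_union]
    exact h.imp id (Or.imp ihf ihg)
  | gate m φ a ih =>
    simp only [core, Finset.mem_insert, Finset.mem_biUnion, Finset.mem_univ, true_and] at h
    simp only [Gf.subs, Set.mem_insert_iff, Set.mem_iUnion]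
    rcases h with h | ⟨i, hi⟩
    · exact Or.inl h
    · refine Or.inr ⟨i, ?_⟩
      by_cases hc : (a i).conn = 0
      · rw [if_pos hc] at hi
        exact absurd hi (Finset.notMem_empty _)
      · rw [if_neg hc] at hi
        exact ih i hi

/-- closed under subpatterns, except for variables that are arguments of gates -/
structure CoreCl (C : Set (Gf ℕ)) : Prop where
  neg : ∀ f, Gf.neg f ∈ C → f ∈ C
  and : ∀ f g, Gf.and f g ∈ C → f ∈ C ∧ g ∈ C
  or : ∀ f g, Gf.or f g ∈ C → f ∈ C ∧ g ∈ C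
  gate : ∀ m φ a, Gf.gate m φ a ∈ C → ∀ i, (a i).conn = 0 ∨ a i ∈ C

theorem CoreCl.union {ι : Type} (C : ι → Set (Gf ℕ)) (h : ∀ i, CoreCl (C i)) :
    CoreCl (⋃ i, C i) where
  neg f hf := by
    obtain ⟨i, hi⟩ := Set.mem_iUnion.1 hf
    exact Set.mem_iUnion.2 ⟨i, (h i).neg f hi⟩
  and f g hf := by
    obtain ⟨i, hi⟩ := Set.mem_iUnion.1 hf
    exact ⟨Set.mem_iUnion.2 ⟨i, ((h i).and f g hi).1⟩, Set.mem_iUnion.2 ⟨i, ((h i).and f g hi).2⟩⟩
  or f g hf := by
    obtain ⟨i, hi⟩ := Set.mem_iUnion.1 hf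
    exact ⟨Set.mem_iUnion.2 ⟨i, ((h i).or f g hi).1⟩, Set.mem_iUnion.2 ⟨i, ((h i).or f g hi).2⟩⟩
  gate m φ a hf := by
    obtain ⟨i, hi⟩ := Set.mem_iUnion.1 hf
    intro j
    exact ((h i).gate m φ a hi j).imp id fun h' => Set.mem_iUnion.2 ⟨i, h'⟩

theorem CoreCl.insert {C : Set (Gf ℕ)} (h : CoreCl C) {A : Gf ℕ}
    (h1 : ∀ f, A = Gf.neg f → f ∈ C) (h2 : ∀ f g, A = Gf.and f g → f ∈ C ∧ g ∈ C)
    (h3 : ∀ f g, A = Gf.or f g → f ∈ C ∧ g ∈ C)
    (h4 : ∀ m φ a, A = Gf.gate m φ a → ∀ i, (a i).conn = 0 ∨ a i ∈ C) :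
    CoreCl (Set.insert A C) where
  neg f hf := by
    rcases hf with hf | hf
    · exact Or.inr (h1 f hf.symm)
    · exact Or.inr (h.neg f hf)
  and f g hf := by
    rcases hf with hf | hf
    · exact ⟨Or.inr (h2 f g hf.symm).1, Or.inr (h2 f g hf.symm).2⟩
    · exact ⟨Or.inr (h.and f g hf).1, Or.inr (h.and f g hf).2⟩
  or f g hf := by
    rcases hf with hf | hf
    · exact ⟨Or.inr (h3 f g hf.symm).1, Or.inr (h3 f g hf.symm).2⟩
    · exact ⟨Or.inr (h.or f g hf).1, Or.inr (h.or f g hf).2⟩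
  gate m φ a hf := by
    intro i
    rcases hf with hf | hf
    · exact (h4 m φ a hf.symm i).imp id Or.inr
    · exact (h.gate m φ a hf i).imp id Or.inr

theorem CoreCl.congr {C D : Set (Gf ℕ)} (h : CoreCl C) (hCD : C = D) : CoreCl D := hCD ▸ h

theorem coreCl_core (A : Gf ℕ) : CoreCl {B | B ∈ core A} := by
  induction A with
  | var v =>
    constructor
    · intro f hf
      simp [core] at hf
    · intro f g hf
      simp [core] at hf
    · intro f g hf
      simp [core] at hf
    · intro m φ a hf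
      simp [core] at hf
  | neg f ih =>
    refine (ih.insert (A := .neg f) (fun f' h => ?_) (fun _ _ h => by simp at h)
      (fun _ _ h => by simp at h) (fun _ _ _ h => by simp at h)).congr ?_
    · simp only [Gf.neg.injEq] at h
      rw [← h]
      exact core_self f
    · ext B
      simp only [core, Finset.mem_insert, Set.mem_ofPred_eq]
      exact Iff.rfl
  | and f g ihf ihg =>
    have hU : CoreCl ({B | B ∈ core f} ∪ {B | B ∈ core g}) := by
      refine (CoreCl.union (fun b : Bool => if b then {B | B ∈ core f} else {B | B ∈ core g})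
        (fun b => by cases b <;> assumption)).congr ?_
      ext B
      simp
      tauto
    refine (hU.insert (A := .and f g) (fun _ h => by simp at h) (fun f' g' h => ?_)
      (fun _ _ h => by simp at h) (fun _ _ _ h => by simp at h)).congr ?_
    · simp only [Gf.and.injEq] at h
      rw [← h.1, ← h.2]
      exact ⟨Or.inl (core_self f), Or.inr (core_self g)⟩
    · ext B
      simp only [core, Finset.mem_insert, Finset.mem_union, Set.mem_ofPred_eq]
      exact Iff.rfl
  | or f g ihf ihg =>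
    have hU : CoreCl ({B | B ∈ core f} ∪ {B | B ∈ core g}) := by
      refine (CoreCl.union (fun b : Bool => if b then {B | B ∈ core f} else {B | B ∈ core g})
        (fun b => by cases b <;> assumption)).congr ?_
      ext B
      simp
      tauto
    refine (hU.insert (A := .or f g) (fun _ h => by simp at h) (fun _ _ h => by simp at h)
      (fun f' g' h => ?_) (fun _ _ _ h => by simp at h)).congr ?_
    · simp only [Gf.or.injEq] at h
      rw [← h.1, ← h.2]
      exact ⟨Or.inl (core_self f), Or.inr (core_self g)⟩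
    · ext B
      simp only [core, Finset.mem_insert, Finset.mem_union, Set.mem_ofPred_eq]
      exact Iff.rfl
  | gate m φ a ih =>
    have hU : CoreCl (⋃ i, {B | B ∈ if (a i).conn = 0 then ∅ else core (a i)}) := by
      refine CoreCl.union _ fun i => ?_
      by_cases hc : (a i).conn = 0
      · simp only [if_pos hc]
        constructor
        · intro f hf
          exact absurd hf (Finset.notMem_empty _)
        · intro f g hf
          exact absurd hf (Finset.notMem_empty _)
        · intro f g hf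
          exact absurd hf (Finset.notMem_empty _)
        · intro m φ a hf
          exact absurd hf (Finset.notMem_empty _)
      · simp only [if_neg hc]
        exact ih i
    refine (hU.insert (A := .gate m φ a) (fun _ h => by simp at h) (fun _ _ h => by simp at h)
      (fun _ _ h => by simp at h) (fun m' φ' a' h i => ?_)).congr ?_
    · simp only [Gf.gate.injEq] at h
      obtain ⟨rfl, h1, h2⟩ := h
      rw [heq_eq_eq] at h1 h2
      subst h1 h2
      by_cases hc : (a i).conn = 0
      · exact Or.inl hc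
      · refine Or.inr (Set.mem_iUnion.2 ⟨i, ?_⟩)
        simp only [if_neg hc]
        exact core_self (a i)
    · ext B
      simp only [core, Finset.mem_insert, Finset.mem_biUnion, Finset.mem_univ, true_and,
        Set.mem_ofPred_eq]
      show (B = _ ∨ B ∈ ⋃ i, _) ↔ _
      rw [Set.mem_iUnion]
      exact Iff.rfl

theorem card_core (A : Gf ℕ) : (core A).card ≤ 3 * A.conn + (if A.conn = 0 then 1 else 0) := by
  induction A with
  | var v => simp [core, Gf.conn]
  | neg f ih =>
    simp only [core, Gf.conn]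
    have h1 := Finset.card_insert_le (Gf.neg f) (core f)
    split_ifs at ih ⊢ <;> omega
  | and f g ihf ihg =>
    simp only [core, Gf.conn]
    have h1 := Finset.card_insert_le (Gf.and f g) (core f ∪ core g)
    have h3 := Finset.card_union_le (core f) (core g)
    split_ifs at ihf ihg ⊢ <;> omega
  | or f g ihf ihg =>
    simp only [core, Gf.conn]
    have h1 := Finset.card_insert_le (Gf.or f g) (core f ∪ core g)
    have h3 := Finset.card_union_le (core f) (core g)
    split_ifs at ihf ihg ⊢ <;> omega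
  | gate m φ a ih =>
    simp only [core, Gf.conn]
    have h1 := Finset.card_insert_le (Gf.gate m φ a)
      (univ.biUnion fun i => if (a i).conn = 0 then ∅ else core (a i))
    have h3 : (univ.biUnion fun i => if (a i).conn = 0 then ∅ else core (a i)).card ≤
        ∑ i, 3 * (a i).conn := by
      refine Finset.card_biUnion_le.trans (Finset.sum_le_sum fun i _ => ?_)
      by_cases hc : (a i).conn = 0
      · rw [if_pos hc, Finset.card_empty]
        omega
      · rw [if_neg hc]
        have := ih i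
        rw [if_neg hc] at this
        omega
    rw [← Finset.mul_sum] at h3
    rw [if_neg (by omega)]
    omega

theorem eq_var_of_conn {A : Gf ℕ} (h : A.conn = 0) : ∃ v, A = .var v := by
  cases A with
  | var v => exact ⟨v, rfl⟩
  | neg f => simp [Gf.conn] at h
  | and f g => simp [Gf.conn] at h
  | or f g => simp [Gf.conn] at h
  | gate m φ a => simp [Gf.conn] at h

/-- local evaluation of patterns -/
theorem eval_core {C : Set (Gf ℕ)} (hC : CoreCl C) (val : Gf ℕ → Bool)
    (hn : ∀ f, Gf.neg f ∈ C → val (.neg f) = !(val f))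
    (ha : ∀ f g, Gf.and f g ∈ C → val (.and f g) = (val f && val g))
    (ho : ∀ f g, Gf.or f g ∈ C → val (.or f g) = (val f || val g))
    (hg : ∀ m φ a, Gf.gate m φ a ∈ C → val (.gate m φ a) = φ fun i => val (a i))
    (A : Gf ℕ) (hA : A ∈ C) : val A = A.eval fun x => val (.var x) := by
  induction A with
  | var v => rfl
  | neg f ih =>
    rw [hn f hA, ih (hC.neg f hA)]
    rfl
  | and f g ihf ihg =>
    rw [ha f g hA, ihf (hC.and f g hA).1, ihg (hC.and f g hA).2]
    rfl
  | or f g ihf ihg =>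
    rw [ho f g hA, ihf (hC.or f g hA).1, ihg (hC.or f g hA).2]
    rfl
  | gate m φ a ih =>
    rw [hg m φ a hA]
    simp only [Gf.eval]
    congr 1
    funext i
    rcases hC.gate m φ a hA i with h | h
    · obtain ⟨v, hv⟩ := eq_var_of_conn h
      rw [hv]
      rfl
    · exact ih i h

end FrM
end

section

/-!
Few modular gates (namespace `FrM`): the soundness lemma.
-/

set_option linter.unusedSectionVars false

namespace FrM

open Finset FrC
open Fr56 (Fm)
open scoped Classical

section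
variable {V E : Type} [Fintype E] [DecidableEq V] {G : Gph V E} {Fr : Frame G} {v0 : V}
  {X : Type} {Φ : Set (Fm X)} {cap : ℕ} {S : Valn Fr v0 X Φ cap} {kk : ℕ} (T : Tr S kk)

/-- the value given by the decision tree at a state at which the tree is revealed -/
theorem Tr.at_state {f : Fm X} (hf : f ∈ Φ) {U : Finset V} (hU : U.card ≤ cap)
    {y y2 : E → ZMod 2} (hsub : T.Us f y ⊆ U) (hag : G.Agree U y y2) (hok : Fr.Ok v0 U y2) :
    S.Q f (T.t f y) U y2 := by
  obtain ⟨h1, h2⟩ := T.cons f y y2 (hag.mono hsub)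
  have h3 : S.Q f (T.t f y2) (T.Us f y2) y2 :=
    T.val f hf y2 (hok.mono (by rw [h1]; exact hsub))
  rw [h1, h2] at h3
  exact S.mono f hf _ _ _ y2 y2 hsub hU h3 (Gph.Agree.refl G _ _) hok

/-- the pure formulas that are needed for the values of constants -/
noncomputable def pc (x0 : X) : Finset (Fm X) :=
  {.var x0, .neg (.var x0), cst x0 true, cst x0 false}

theorem card_pc (x0 : X) : (pc x0).card ≤ 4 := by
  unfold pc
  exact Finset.card_le_four

variable {T} in
/-- the tree values of the constants at a class that contains a state -/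
theorem t_cst {x0 : X} (hc : ∀ f ∈ pc x0, f ∈ Φ) {U : Finset V} (hU : U.card ≤ cap)
    {y y2 : E → ZMod 2} (hsub : ∀ f ∈ pc x0, T.Us f y ⊆ U) (hag : G.Agree U y y2)
    (hok : Fr.Ok v0 U y2) (b : Bool) : T.t (cst x0 b) y = b := by
  have m1 : Fm.var x0 ∈ pc x0 := by simp [pc]
  have m2 : Fm.neg (Fm.var x0) ∈ pc x0 := by simp [pc]
  have m3 : cst x0 true ∈ pc x0 := by simp [pc]
  have m4 : cst x0 false ∈ pc x0 := by simp [pc]
  have q1 := T.at_state (hc _ m1) hU (hsub _ m1) hag hok
  have q2 := T.at_state (hc _ m2) hU (hsub _ m2) hag hok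
  have q3 := T.at_state (hc _ m3) hU (hsub _ m3) hag hok
  have q4 := T.at_state (hc _ m4) hU (hsub _ m4) hag hok
  have e1 := S.neg _ (hc _ m1) (hc _ m2) _ _ U y2 hU hok q1 q2
  cases b with
  | true =>
    have e2 := S.or _ _ (hc _ m1) (hc _ m2) (hc _ m3) _ _ _ U y2 hU hok q1 q2 q3
    rw [e2, e1]
    simp
  | false =>
    have e2 := S.and _ _ (hc _ m1) (hc _ m2) (hc _ m4) _ _ _ U y2 hU hok q1 q2 q4
    rw [e2, e1]
    simp

variable {p : ℕ} [Fact p.Prime]

/-- all core subpatterns of a list of patterns -/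
noncomputable def cores (L : List (Gf ℕ × Bool)) : Finset (Gf ℕ) :=
  L.toFinset.biUnion fun P => core P.1

theorem mem_cores {L : List (Gf ℕ × Bool)} {B : Gf ℕ} :
    B ∈ cores L ↔ ∃ P ∈ L, B ∈ core P.1 := by
  unfold cores
  simp only [Finset.mem_biUnion, List.mem_toFinset]

theorem card_cores (L : List (Gf ℕ × Bool)) :
    (cores L).card ≤ 3 * (L.map fun P => P.1.conn + 1).sum := by
  induction L with
  | nil => simp [cores]
  | cons P L ih =>
    have h1 : cores (P :: L) ⊆ core P.1 ∪ cores L := by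
      intro B hB
      rw [mem_cores] at hB
      obtain ⟨P', hP', hB'⟩ := hB
      rw [Finset.mem_union]
      rcases List.mem_cons.1 hP' with rfl | hP'
      · exact Or.inl hB'
      · exact Or.inr (mem_cores.2 ⟨P', hP', hB'⟩)
    have h3 := (Finset.card_le_card h1).trans (Finset.card_union_le _ _)
    have h4 := card_core P.1
    simp only [List.map_cons, List.sum_cons]
    split_ifs at h4 <;> omega

theorem coreCl_cores (L : List (Gf ℕ × Bool)) : CoreCl {B | B ∈ cores L} := by
  refine (CoreCl.union (fun P : {P // P ∈ L} => {B | B ∈ core P.1.1})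
    (fun P => coreCl_core P.1.1)).congr ?_
  ext B
  rw [Set.mem_iUnion]
  simp only [Set.mem_ofPred_eq]
  rw [mem_cores]
  constructor
  · rintro ⟨P, hP⟩
    exact ⟨P.1, P.2, hP⟩
  · rintro ⟨P, hP, hB⟩
    exact ⟨⟨P, hP⟩, hB⟩

/-- all gates of the instances -/
def gts (L : List (Gf ℕ × Bool)) (σ : ℕ → Gf X) : Set (Gf X) :=
  {g | ∃ P ∈ L, g ∈ (P.1.subst σ).gates}

theorem gts_cons (P : Gf ℕ × Bool) (L : List (Gf ℕ × Bool)) (σ : ℕ → Gf X) :
    gts (P :: L) σ = (P.1.subst σ).gates ∪ gts L σ := by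
  ext g
  unfold gts
  simp only [List.mem_cons, Set.mem_ofPred_eq, Set.mem_union]
  constructor
  · rintro ⟨P', rfl | h, hg⟩
    · exact Or.inl hg
    · exact Or.inr ⟨P', h, hg⟩
  · rintro (h | ⟨P', h, hg⟩)
    · exact ⟨P, Or.inl rfl, h⟩
    · exact ⟨P', Or.inr h, hg⟩

theorem gts_finite (L : List (Gf ℕ × Bool)) (σ : ℕ → Gf X) : (gts L σ).Finite := by
  induction L with
  | nil =>
    refine Set.Finite.subset Set.finite_empty ?_
    rintro g ⟨P, hP, _⟩
    exact absurd hP (by simp)
  | cons P L ih =>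
    rw [gts_cons]
    exact (Gf.gates_finite _).union ih

theorem ncard_gts {w : ℕ} (L : List (Gf ℕ × Bool)) (σ : ℕ → Gf X)
    (hw : ∀ P ∈ L, (P.1.subst σ).gates.ncard ≤ w) :
    (gts L σ).ncard ≤ (L.map fun P => P.1.conn + 1).sum * w := by
  induction L with
  | nil =>
    have : gts ([] : List (Gf ℕ × Bool)) σ = ∅ := by
      ext g
      simp [gts]
    rw [this, Set.ncard_empty]
    exact Nat.zero_le _
  | cons P L ih =>
    rw [gts_cons]
    have h1 := Set.ncard_union_le (P.1.subst σ).gates (gts L σ)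
    have h3 := hw P (by simp)
    have h4 := ih fun P' hP' => hw P' (List.mem_cons_of_mem _ hP')
    simp only [List.map_cons, List.sum_cons]
    have h5 : w ≤ (P.1.conn + 1) * w := Nat.le_mul_of_pos_left w (by omega)
    rw [add_mul]
    omega

/-- **the soundness lemma** -/
theorem sound_lemma (hcap : cap ≤ Fr.m) (h0 : Fr.Free ∅ v0) (h2 : (2 : ZMod p) ≠ 0) (x0 : X)
    (hc : ∀ f ∈ pc x0, f ∈ Φ) (L : List (Gf ℕ × Bool))
    (hL : ∀ x : ℕ → Bool, ∃ P ∈ L, P.1.eval x ≠ P.2) (σ : ℕ → Gf X)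
    (hΦ : ∀ P ∈ L, ∀ B ∈ (P.1.subst σ).subs, ∀ u, pur x0 u B ∈ Φ) {q w e a M M1 : ℕ}
    (hq : (L.map fun P => P.1.conn + 1).sum ≤ q)
    (hw : ∀ P ∈ L, (P.1.subst σ).gates.ncard ≤ w)
    (hdeg : ∀ P ∈ L, ∀ m φ b, Gf.gate m φ b ∈ (P.1.subst σ).gates → PolyDeg p φ (e : ℝ))
    (n1 : a + (w * (e * kk) + kk) ≤ M) (n2 : (3 * q + 4) * kk ≤ M)
    (n3 : M + (a + (w * (e * kk) + kk)) + ((3 * q + 4) * kk + q * w * (e * kk)) ≤ M1)
    (n4 : 3 * M1 ≤ Fr.m) (n5 : (3 * q + 4) * kk ≤ cap) {f0 : (E → ZMod 2) → ZMod p}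
    (hf0 : f0 ∈ Loc (ZMod p) G a)
    (h : ∀ P ∈ L, f0 * ind T x0 p (P.1.subst σ) (!P.2) ∈ Nul Fr v0 (ZMod p) M M1) :
    f0 ∈ Nul Fr v0 (ZMod p) M M1 := by
  set Z : Set (Gf X) := gts L σ with hZdef
  set Cs : Finset (Gf X) := (cores L).image fun B => B.subst σ with hCsdef
  have hmem : ∀ B ∈ cores L, B.subst σ ∈ Cs := fun B hB => Finset.mem_image_of_mem _ hB
  have hsubs : ∀ B ∈ cores L, ∃ P ∈ L, B.subst σ ∈ (P.1.subst σ).subs := by
    intro B hB
    obtain ⟨P, hP, hBP⟩ := mem_cores.1 hB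
    exact ⟨P, hP, Gf.subst_mem_subs (core_subs hBP) σ⟩
  have hCs : ∀ P ∈ Cs, P.gates ⊆ Z := by
    intro P hP
    obtain ⟨B, hB, rfl⟩ := Finset.mem_image.1 hP
    obtain ⟨P', hP', h1⟩ := hsubs B hB
    exact fun g hg => ⟨P', hP', Gf.gates_mono h1 hg⟩
  have hZcl : ∀ g ∈ Z, g.gates ⊆ Z := by
    rintro g ⟨P, hP, hg⟩ g' hg'
    exact ⟨P, hP, gates_closed hg hg'⟩
  have hZg : ∀ g ∈ Z, g.IsGate := by
    rintro g ⟨P, _, hg⟩
    exact hg.2
  have hZdeg : ∀ m φ b, Gf.gate m φ b ∈ Z → PolyDeg p φ (e : ℝ) := by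
    rintro m φ b ⟨P, hP, hg⟩
    exact hdeg P hP m φ b hg
  have hZcard : Z.ncard ≤ q * w :=
    (ncard_gts L σ hw).trans (Nat.mul_le_mul_right _ hq)
  have hCcard : Cs.card ≤ 3 * q :=
    Finset.card_image_le.trans ((card_cores L).trans (Nat.mul_le_mul_left _ hq))
  refine mem_of_classes _ (cls T x0 Z Cs (pc x0)) (cls_self T x0 _ _ _)
    (fun y y' h => cls_cls T hCs h) _ ?_
  intro y1
  set U := kap T x0 Cs (pc x0) y1 with hUdef
  have hUcard : U.card ≤ (3 * q + 4) * kk :=
    (card_kap T x0 Cs (pc x0) y1).trans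
      (Nat.mul_le_mul_right _ (Nat.add_le_add hCcard (card_pc x0)))
  have hcyl := cyl_mem_Loc (G := G) h2 hUcard y1
  have hcla := class_mem_Loc T h2 x0 (gts_finite L σ) hZcl hZg hZcard hZdeg y1
  by_cases hext : ∃ y2, G.Agree U y1 y2 ∧ Fr.Ok v0 U y2
  · obtain ⟨y2, hag, hok⟩ := hext
    have hUcap : U.card ≤ cap := hUcard.trans n5
    -- the values at the class
    set val : Gf ℕ → Bool := fun B => vl x0 T.t y1 (B.subst σ) with hval
    have hpΦ : ∀ B ∈ cores L, pY x0 T.t y1 (B.subst σ) ∈ Φ := by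
      intro B hB
      obtain ⟨P, hP, h1⟩ := hsubs B hB
      rw [pY_eq]
      exact hΦ P hP _ h1 _
    have hQ : ∀ B ∈ cores L, S.Q (pY x0 T.t y1 (B.subst σ)) (val B) U y2 := fun B hB =>
      T.at_state (hpΦ B hB) hUcap (us_sub_kap T (hmem B hB) y1) hag hok
    have hcst : ∀ b, T.t (cst x0 b) y1 = b := fun b =>
      t_cst hc hUcap (fun f hf => us_sub_kap' T hf y1) hag hok b
    have hcl := coreCl_cores L
    have hev : ∀ A ∈ cores L, val A = A.eval fun x => val (.var x) := by
      refine eval_core hcl val ?_ ?_ ?_ ?_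
      · intro f hf
        exact S.neg _ (hpΦ _ (hcl.neg f hf)) (hpΦ _ hf) _ _ U y2 hUcap hok
          (hQ _ (hcl.neg f hf)) (hQ _ hf)
      · intro f g hf
        exact S.and _ _ (hpΦ _ (hcl.and f g hf).1) (hpΦ _ (hcl.and f g hf).2) (hpΦ _ hf) _ _ _ U
          y2 hUcap hok (hQ _ (hcl.and f g hf).1) (hQ _ (hcl.and f g hf).2) (hQ _ hf)
      · intro f g hf
        exact S.or _ _ (hpΦ _ (hcl.or f g hf).1) (hpΦ _ (hcl.or f g hf).2) (hpΦ _ hf) _ _ _ U
          y2 hUcap hok (hQ _ (hcl.or f g hf).1) (hQ _ (hcl.or f g hf).2) (hQ _ hf)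
      · intro m φ b hf
        show T.t (cst x0 (φ fun i => T.t (pY x0 T.t y1 ((b i).subst σ)) y1)) y1 = _
        rw [hcst]
        rfl
    obtain ⟨P, hP, hne⟩ := hL fun x => val (.var x)
    have hPc : P.1 ∈ cores L := mem_cores.2 ⟨P, hP, core_self P.1⟩
    have hne' : val P.1 ≠ P.2 := by
      rw [hev P.1 hPc]
      exact hne
    have hnot : val P.1 = !P.2 := by
      cases h3 : val P.1 <;> cases h4 : P.2 <;> simp_all
    have heq : (fun y => if y ∈ cls T x0 Z Cs (pc x0) y1 then f0 y else 0) =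
        (f0 * ind T x0 p (P.1.subst σ) (!P.2)) *
        ((fun y' => if G.Agree U y1 y' then (1 : ZMod p) else 0) *
        (fun y' => if ∀ g ∈ Z, uy x0 T.t y' g = uy x0 T.t y1 g then (1 : ZMod p) else 0)) := by
      rw [hUdef, ← ind_cls T y1]
      funext y
      rw [Pi.mul_apply, Pi.mul_apply]
      by_cases hy : y ∈ cls T x0 Z Cs (pc x0) y1
      · rw [if_pos hy, if_pos hy, mul_one]
        unfold ind
        rw [vl_cls T hCs hy (hmem _ hPc), if_pos hnot, mul_one]
      · rw [if_neg hy, if_neg hy, mul_zero]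
    rw [heq]
    refine mul_mem_Nul (ZMod p) h2 h0 (a := a + (w * (e * kk) + kk))
      (b := (3 * q + 4) * kk + q * w * (e * kk)) n1 n3 n4 ?_ (h P hP) (Loc_mul (ZMod p) hcyl hcla)
    exact Loc_mul (ZMod p) hf0 (ind_mem_Loc T x0 h2 _ (hw P hP) (hdeg P hP) _)
  · push Not at hext
    have hN := cyl_mem_Nul (M := M) (ZMod p) h2 h0 (M1 := M1) (by omega) U (by omega) y1 hext
    have heq : (fun y => if y ∈ cls T x0 Z Cs (pc x0) y1 then f0 y else 0) =
        (fun y' => if G.Agree U y1 y' then (1 : ZMod p) else 0) *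
        (f0 * (fun y' => if ∀ g ∈ Z, uy x0 T.t y' g = uy x0 T.t y1 g then (1 : ZMod p)
          else 0)) := by
      rw [mul_left_comm, hUdef, ← ind_cls T y1]
      funext y
      rw [Pi.mul_apply]
      by_cases hy : y ∈ cls T x0 Z Cs (pc x0) y1
      · rw [if_pos hy, if_pos hy, mul_one]
      · rw [if_neg hy, if_neg hy, mul_zero]
    rw [heq]
    refine mul_mem_Nul (ZMod p) h2 h0 (a := (3 * q + 4) * kk)
      (b := a + q * w * (e * kk)) n2 (by omega) n4 hcyl hN (Loc_mul (ZMod p) hf0 hcla)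

end

end FrM
end
end

section

/-!
Few modular gates (namespace `FrM`): there is no refutation whose purified formulas are decided by a
valuation.
-/

set_option linter.unusedSectionVars false

namespace FrM

open Finset FrC
open Fr56 (Fm)
open scoped Classical

theorem PolyDeg.mono {p m : ℕ} {φ : (Fin m → Bool) → Bool} {κ : ℝ} {n : ℕ}
    (h : PolyDeg p φ κ) (hn : ∀ j : ℕ, (j : ℝ) ≤ κ → j ≤ n) : PolyDeg p φ (n : ℝ) := by
  obtain ⟨c, h1, h2⟩ := h
  refine ⟨c, fun S hS => h1 S ?_, h2⟩
  by_contra hlt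
  push Not at hlt
  have h3 := hn _ hlt
  have h4 : n < S.card := by exact_mod_cast hS
  omega

theorem subst_var_eq_ren {X : Type} (τ : ℕ → X) (b : Gf ℕ) :
    b.ren τ = b.subst fun v => .var (τ v) := rfl

section
variable {V E : Type} [Fintype E] [DecidableEq V] {G : Gph V E} {Fr : Frame G} {v0 : V}
  {X : Type} {Φ : Set (Fm X)} {cap : ℕ} {S : Valn Fr v0 X Φ cap} {kk : ℕ} (T : Tr S kk)

/-- the axiom -/
theorem ind_axiom (h0 : Fr.Free ∅ v0) {p : ℕ} [Fact p.Prime]
    (h2 : (2 : ZMod p) ≠ 0) (x0 : X) (F : Fm X) (hF : F ∈ Φ) (hFT : S.True' kk F)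
    (hkk : kk ≤ cap) {M M1 : ℕ} (n1 : kk + M ≤ M1) (n2 : 2 * M1 ≤ Fr.m) :
    ind T x0 p (Gf.ofFm F) false ∈ Nul Fr v0 (ZMod p) M M1 := by
  refine mem_of_classes _ (fun y => {y' | G.Agree (T.Us F y) y y'})
    (fun y => Gph.Agree.refl G _ _) ?_ _ ?_
  · intro y y' hy'
    rw [Set.mem_ofPred_eq] at hy'
    ext z
    rw [Set.mem_ofPred_eq, Set.mem_ofPred_eq, (T.cons F y y' hy').1]
    exact ⟨fun h => hy'.trans h, fun h => hy'.symm.trans h⟩
  · intro y1
    have hval : ∀ y ∈ {y' | G.Agree (T.Us F y1) y1 y'},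
        ind T x0 p (Gf.ofFm F) false y = if T.t F y1 = false then 1 else 0 := by
      intro y hy
      unfold ind vl
      rw [pY_ofFm, (T.cons F y1 y hy).2]
    cases hb : T.t F y1 with
    | true =>
      have heq : (fun y => if y ∈ {y' | G.Agree (T.Us F y1) y1 y'} then
          ind T x0 p (Gf.ofFm F) false y else 0) = 0 := by
        funext y
        by_cases hy : y ∈ {y' | G.Agree (T.Us F y1) y1 y'}
        · rw [if_pos hy, hval y hy, hb, if_neg (by decide)]
          rfl
        · rw [if_neg hy]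
          rfl
      rw [heq]
      exact Submodule.zero_mem _
    | false =>
      have heq : (fun y => if y ∈ {y' | G.Agree (T.Us F y1) y1 y'} then
          ind T x0 p (Gf.ofFm F) false y else 0) =
          fun y => if G.Agree (T.Us F y1) y1 y then 1 else 0 := by
        funext y
        by_cases hy : G.Agree (T.Us F y1) y1 y
        · rw [if_pos hy, if_pos (show y ∈ {y' | G.Agree (T.Us F y1) y1 y'} from hy),
            hval y hy, hb, if_pos rfl]
        · rw [if_neg hy, if_neg (show y ∉ {y' | G.Agree (T.Us F y1) y1 y'} from hy)]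
      rw [heq]
      have hcard := T.card F y1
      refine cyl_mem_Nul (ZMod p) h2 h0 n2 _ (by omega) y1 fun y2 hag hok => ?_
      have hQ := T.at_state hF (hcard.trans hkk) (Finset.Subset.refl _) hag hok
      rw [hb] at hQ
      exact hFT _ y2 hcard hok hQ

/-- **there is no refutation whose purified formulas are decided by a valuation** -/
theorem no_refutation (S : Valn Fr v0 X Φ cap) (hcap : cap ≤ Fr.m) (h0 : Fr.Free ∅ v0) {kk k : ℕ}
    (hD : S.Dcds kk) {p : ℕ} [Fact p.Prime] (h2 : (2 : ZMod p) ≠ 0) (x0 : X)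
    (hc : ∀ f ∈ pc x0, f ∈ Φ) (F : Fm X) {κ : ℝ} {n : ℕ}
    (hn : 1 ≤ n) (hκ : ∀ j : ℕ, (j : ℝ) ≤ κ → j ≤ n) (hk : 10 * n ^ 3 ≤ k) (hkk : k * kk ≤ cap)
    (hm : 9 * (k * kk) ≤ Fr.m) {d : ℕ} (b : Gf ℕ) (hb : b.Unsat) (hbκ : (b.conn : ℝ) ≤ κ)
    (τ : ℕ → X) (π : List (Gf X)) (hπ : Derives κ (Gf.ofFm F) π)
    (hFT : Gf.ofFm F ∈ π → F ∈ Φ ∧ S.True' kk F) (hbπ : b.ren τ ∈ π)
    (hT : ∀ A ∈ π, Tame p d κ A) (hΦ : ∀ A ∈ subSet π, ∀ u, pur x0 u A ∈ Φ) : False := by
  have hn3 : n ≤ n ^ 3 := Nat.le_self_pow (by norm_num) n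
  have hn2 : n ^ 2 ≤ n ^ 3 := Nat.pow_le_pow_right (by omega) (by norm_num)
  have h10 : 10 * n ^ 3 * kk ≤ k * kk := Nat.mul_le_mul_right kk hk
  have hkk1 : kk ≤ cap := by
    refine le_trans ?_ hkk
    exact Nat.le_mul_of_pos_left kk (by omega)
  obtain ⟨T⟩ := exists_tree S hD hkk1 h0
  -- the parameters
  obtain ⟨a, ha⟩ : ∃ a, a = n * (n * kk) + kk := ⟨_, rfl⟩
  obtain ⟨M, hM⟩ : ∃ M, M = (2 * n ^ 2 + 3 * n + 9) * kk := ⟨_, rfl⟩
  obtain ⟨M1, hM1⟩ : ∃ M1, M1 = (n ^ 3 + 5 * n ^ 2 + 6 * n + 18) * kk := ⟨_, rfl⟩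
  have n1 : a + (n * (n * kk) + kk) ≤ M := by
    rw [ha, hM]
    have : n * (n * kk) + kk + (n * (n * kk) + kk) = (2 * n ^ 2 + 2) * kk := by ring
    rw [this]
    exact Nat.mul_le_mul_right _ (by omega)
  have n2 : (3 * (n + 1) + 4) * kk ≤ M := by
    rw [hM]
    exact Nat.mul_le_mul_right _ (by omega)
  have n3 : M + (a + (n * (n * kk) + kk)) + ((3 * (n + 1) + 4) * kk + (n + 1) * n * (n * kk)) ≤
      M1 := by
    rw [ha, hM, hM1]
    refine le_of_eq ?_
    ring
  have n4 : 3 * M1 ≤ Fr.m := by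
    refine le_trans ?_ hm
    rw [hM1]
    calc 3 * ((n ^ 3 + 5 * n ^ 2 + 6 * n + 18) * kk)
        ≤ 3 * ((n ^ 3 + 5 * n ^ 3 + 6 * n ^ 3 + 18 * n ^ 3) * kk) := by
          have : 1 ≤ n ^ 3 := Nat.one_le_pow _ _ hn
          gcongr
          omega
      _ = 9 * (10 * n ^ 3 * kk) := by ring
      _ ≤ 9 * (k * kk) := Nat.mul_le_mul_left _ h10
  have n5 : (3 * (n + 1) + 4) * kk ≤ cap := by
    refine le_trans ?_ (h10.trans hkk)
    have : 1 ≤ n ^ 3 := Nat.one_le_pow _ _ hn
    exact Nat.mul_le_mul_right _ (by omega)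
  have hwT : ∀ A ∈ π, A.gates.ncard ≤ n := fun A hA => hκ _ (hT A hA).card
  have hdT : ∀ A ∈ π, ∀ m φ b, Gf.gate m φ b ∈ A.gates → PolyDeg p φ (n : ℝ) :=
    fun A hA m φ b hg => ((hT A hA).deg m φ b hg.1).mono hκ
  have hloc : ∀ A ∈ π, ∀ c, ind T x0 p A c ∈ Loc (ZMod p) G a := by
    intro A hA c
    rw [ha]
    exact ind_mem_Loc T x0 h2 A (hwT A hA) (hdT A hA) c
  have key : ∀ i (hi : i < π.length), ind T x0 p π[i] false ∈ Nul Fr v0 (ZMod p) M M1 := by
    intro i
    induction i using Nat.strong_induction_on with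
    | _ i ih =>
      intro hi
      have hmem := List.getElem_mem hi
      rcases hπ i hi with h | ⟨r, hr, hsz, σ, hσ, hhyps⟩
      · rw [h] at hmem ⊢
        obtain ⟨hF, hFT⟩ := hFT hmem
        exact ind_axiom T h0 h2 x0 F hF hFT hkk1 (by
          refine le_trans ?_ n3
          have : kk ≤ (3 * (n + 1) + 4) * kk := Nat.le_mul_of_pos_left kk (by omega)
          omega) (by omega)
      · have hline : ∀ P ∈ (r.concl, false) :: r.hyps.map (fun A => (A, true)),
            P.1.subst σ ∈ π := by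
          intro P hP
          rcases List.mem_cons.1 hP with rfl | hP
          · rw [← hσ]
            exact hmem
          · obtain ⟨A, hA, rfl⟩ := List.mem_map.1 hP
            obtain ⟨j, hj, hjA⟩ := hhyps A hA
            rw [← hjA]
            exact List.getElem_mem (hj.trans hi)
        refine sound_lemma T hcap h0 h2 x0 hc
          ((r.concl, false) :: r.hyps.map fun A => (A, true)) ?_ σ ?_ (q := n + 1) (w := n)
          (e := n) (a := a) ?_ (fun P hP => hwT _ (hline P hP)) (fun P hP => hdT _ (hline P hP))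
          n1 n2 n3 n4 n5 (hloc _ hmem false) ?_
        · intro x
          by_cases hx : ∀ A ∈ r.hyps, A.eval x = true
          · refine ⟨(r.concl, false), by simp, ?_⟩
            rw [hr x hx]
            simp
          · push Not at hx
            obtain ⟨A, hA, hAx⟩ := hx
            exact ⟨(A, true), List.mem_cons_of_mem _ (List.mem_map.2 ⟨A, hA, rfl⟩), hAx⟩
        · intro P hP B hB u
          exact hΦ B ⟨_, hline P hP, hB⟩ u
        · have h3 : ((r.concl, false) :: r.hyps.map fun A => (A, true)).map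
              (fun P : Gf ℕ × Bool => P.1.conn + 1) =
              (r.concl.conn + 1) :: r.hyps.map fun A => A.conn + 1 := by
            simp
          rw [h3, List.sum_cons]
          have h4 := hκ _ hsz
          unfold Inf.size at h4
          omega
        · intro P hP
          rcases List.mem_cons.1 hP with rfl | hP
          · -- the conclusion: both values cannot occur
            have heq : ind T x0 p π[i] false * ind T x0 p (r.concl.subst σ) (!false) = 0 := by
              rw [← hσ]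
              funext y
              rw [Pi.mul_apply, Pi.zero_apply]
              unfold ind
              cases vl x0 T.t y π[i] <;> simp
            rw [heq]
            exact Submodule.zero_mem _
          · obtain ⟨A, hA, rfl⟩ := List.mem_map.1 hP
            obtain ⟨j, hj, hjA⟩ := hhyps A hA
            have h3 := ih j hj (hj.trans hi)
            rw [hjA] at h3
            have hA' : A.subst σ ∈ π := hline (A, true)
              (List.mem_cons_of_mem _ (List.mem_map.2 ⟨A, hA, rfl⟩))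
            rw [mul_comm]
            refine mul_mem_Nul (ZMod p) h2 h0 (a := a) (b := a) ?_ ?_ n4 (hloc _ hA' _) h3
              (hloc _ hmem _)
            · omega
            · omega
  obtain ⟨i, hi, hib⟩ := List.getElem_of_mem hbπ
  have h1 := key i hi
  rw [hib, subst_var_eq_ren] at h1
  have hbπ' : b.subst (fun v => .var (τ v)) ∈ π := hbπ
  refine one_not_mem_Nul (M := M) (ZMod p) h2 h0 (M1 := M1) (by omega) ?_
  refine sound_lemma T hcap h0 h2 x0 hc [(b, true)] ?_ (fun v => .var (τ v)) ?_ (q := n + 1)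
    (w := n) (e := n) (a := a) ?_ ?_ ?_ n1 n2 n3 n4 n5 (one_mem_Loc (ZMod p) a) ?_
  · intro x
    exact ⟨(b, true), by simp, by rw [hb x]; simp⟩
  · intro P hP B hB u
    rw [List.mem_singleton] at hP
    subst hP
    exact hΦ B ⟨_, hbπ', hB⟩ u
  · simp only [List.map_cons, List.map_nil, List.sum_cons, List.sum_nil]
    have := hκ _ hbκ
    omega
  · intro P hP
    rw [List.mem_singleton] at hP
    subst hP
    exact hwT _ hbπ'
  · intro P hP
    rw [List.mem_singleton] at hP
    subst hP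
    exact hdT _ hbπ'
  · intro P hP
    rw [List.mem_singleton] at hP
    subst hP
    rw [one_mul]
    exact h1

end

end FrM
end
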