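import Pool.Agent.Lib.MP_51bb46_lc.M.Gate
import Pool.Agent.Lib.MP_51bb46_lc.N.Defs
import Pool.Agent.Lib.MP_51bb46_lc.M.Ref
import Pool.Agent.Lib.MP_51bb46_lc.C.Switch3
import Pool.Agent.Lib.MP_51bb46_lc.G.TowersG

section

section

/-!
Few large gates (namespace `FrN`): low formulas are evaluated exactly, the other formulas are
purified and evaluated by decision trees.
-/

set_option linter.unusedSectionVars false

namespace FrN

open Finset FrC FrM
open Fr56 (Fm)
open scoped Classical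

section
variable {X Y : Type}

/-- the constants, as gates without arguments -/
def cg (b : Bool) : Gf X := .gate 0 (fun _ => b) Fin.elim0

theorem eval_cg (b : Bool) (x : X → Bool) : (cg b : Gf X).eval x = b := rfl

/-- a class of formulas that contains the variables and constants and is closed under subformulas -/
structure LowC (Lw : Gf X → Prop) : Prop where
  var : ∀ v, Lw (.var v)
  cg : ∀ b, Lw (cg b)
  neg : ∀ f, Lw (.neg f) → Lw f
  and : ∀ f g, Lw (.and f g) → Lw f ∧ Lw g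
  or : ∀ f g, Lw (.or f g) → Lw f ∧ Lw g
  gate : ∀ m φ a, Lw (.gate m φ a) → ∀ i, Lw (a i)

variable (Lw : Gf X → Prop)

/-- the gates that are not low -/
def bg (A : Gf X) : Set (Gf X) := {g | g ∈ A.gates ∧ ¬ Lw g}

/-- replacing the maximal low subformulas by atoms and the outermost other gates by constants -/
noncomputable def pur (u : Gf X → Bool) : Gf X → Fm (Gf X)
  | .var v => .var (.var v)
  | .neg f => if Lw (.neg f) then .var (.neg f) else .neg (pur u f)
  | .and f g => if Lw (.and f g) then .var (.and f g) else .and (pur u f) (pur u g)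
  | .or f g => if Lw (.or f g) then .var (.or f g) else .or (pur u f) (pur u g)
  | .gate m φ a => if Lw (.gate m φ a) then .var (.gate m φ a) else .var (cg (u (.gate m φ a)))

variable (ev : Y → X → Bool) (t : Fm (Gf X) → Y → Bool)

/-- evaluating the gates from the inside to the outside -/
noncomputable def pY (y : Y) : Gf X → Fm (Gf X)
  | .var v => .var (.var v)
  | .neg f => if Lw (.neg f) then .var (.neg f) else .neg (pY y f)
  | .and f g => if Lw (.and f g) then .var (.and f g) else .and (pY y f) (pY y g)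
  | .or f g => if Lw (.or f g) then .var (.or f g) else .or (pY y f) (pY y g)
  | .gate m φ a => if Lw (.gate m φ a) then .var (.gate m φ a) else
      .var (cg (φ fun i => if Lw (a i) then (a i).eval (ev y) else t (pY y (a i)) y))

/-- the value of a gate -/
noncomputable def uy (y : Y) : Gf X → Bool
  | .gate _ φ a => φ fun i => if Lw (a i) then (a i).eval (ev y) else t (pY Lw ev t y (a i)) y
  | _ => false

/-- the value of a formula -/
noncomputable def vl (y : Y) (A : Gf X) : Bool :=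
  if Lw A then A.eval (ev y) else t (pY Lw ev t y A) y

/-- the value of a formula with given values of the gates -/
noncomputable def tv (u : Gf X → Bool) (y : Y) (A : Gf X) : Bool :=
  if Lw A then A.eval (ev y) else t (pur Lw u A) y

variable {Lw ev t}

theorem pur_low (u : Gf X → Bool) {A : Gf X} (h : Lw A) : pur Lw u A = .var A := by
  cases A <;> simp [pur, h]

theorem pY_low (y : Y) {A : Gf X} (h : Lw A) : pY Lw ev t y A = .var A := by
  cases A <;> simp [pY, h]

theorem pY_eq (y : Y) (A : Gf X) : pY Lw ev t y A = pur Lw (uy Lw ev t y) A := by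
  induction A with
  | var v => rfl
  | neg f ih => simp only [pY, pur, ih]
  | and f g ihf ihg => simp only [pY, pur, ihf, ihg]
  | or f g ihf ihg => simp only [pY, pur, ihf, ihg]
  | gate m φ a _ => rfl

theorem tv_uy (y : Y) (A : Gf X) : tv Lw ev t (uy Lw ev t y) y A = vl Lw ev t y A := by
  unfold tv vl
  rw [pY_eq]

theorem uy_gate (y : Y) (m : ℕ) (φ : (Fin m → Bool) → Bool) (a : Fin m → Gf X) :
    uy Lw ev t y (.gate m φ a) = φ fun i => vl Lw ev t y (a i) := rfl

theorem bg_closed {A g : Gf X} (h : g ∈ bg Lw A) : bg Lw g ⊆ bg Lw A :=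
  fun _ hk => ⟨gates_closed h.1 hk.1, hk.2⟩

theorem bg_mono {f g : Gf X} (h : f ∈ g.subs) : bg Lw f ⊆ bg Lw g :=
  fun _ hk => ⟨Gf.gates_mono h hk.1, hk.2⟩

theorem low_subs (hL : LowC Lw) {A B : Gf X} (hA : Lw A) (hB : B ∈ A.subs) : Lw B := by
  induction A with
  | var v =>
    simp only [Gf.subs, Set.mem_singleton_iff] at hB
    rw [hB]
    exact hA
  | neg f ih =>
    simp only [Gf.subs, Set.mem_insert_iff] at hB
    rcases hB with rfl | hB
    · exact hA
    · exact ih (hL.neg f hA) hB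
  | and f g ihf ihg =>
    simp only [Gf.subs, Set.mem_insert_iff, Set.mem_union] at hB
    rcases hB with rfl | hB | hB
    · exact hA
    · exact ihf (hL.and f g hA).1 hB
    · exact ihg (hL.and f g hA).2 hB
  | or f g ihf ihg =>
    simp only [Gf.subs, Set.mem_insert_iff, Set.mem_union] at hB
    rcases hB with rfl | hB | hB
    · exact hA
    · exact ihf (hL.or f g hA).1 hB
    · exact ihg (hL.or f g hA).2 hB
  | gate m φ a ih =>
    simp only [Gf.subs, Set.mem_insert_iff, Set.mem_iUnion] at hB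
    rcases hB with rfl | ⟨i, hB⟩
    · exact hA
    · exact ih i (hL.gate m φ a hA i) hB

theorem pur_congr {u u' : Gf X → Bool} (A : Gf X) (h : ∀ g ∈ bg Lw A, u g = u' g) :
    pur Lw u A = pur Lw u' A := by
  induction A with
  | var v => rfl
  | neg f ih =>
    simp only [pur]
    split_ifs with hl
    · rfl
    · rw [ih (fun g hg => h g ⟨by rw [gates_neg]; exact hg.1, hg.2⟩)]
  | and f g ihf ihg =>
    simp only [pur]
    split_ifs with hl
    · rfl
    · rw [ihf (fun k hk => h k ⟨by rw [gates_and]; exact Or.inl hk.1, hk.2⟩),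
        ihg (fun k hk => h k ⟨by rw [gates_and]; exact Or.inr hk.1, hk.2⟩)]
  | or f g ihf ihg =>
    simp only [pur]
    split_ifs with hl
    · rfl
    · rw [ihf (fun k hk => h k ⟨by rw [gates_or]; exact Or.inl hk.1, hk.2⟩),
        ihg (fun k hk => h k ⟨by rw [gates_or]; exact Or.inr hk.1, hk.2⟩)]
  | gate m φ a _ =>
    simp only [pur]
    split_ifs with hl
    · rfl
    · rw [h _ ⟨by rw [gates_gate]; exact Or.inl rfl, hl⟩]

/-- if the gates have the same values then the purified formulas are the same -/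
theorem pY_congr {y y' : Y} (A : Gf X)
    (h : ∀ g ∈ bg Lw A, uy Lw ev t y' g = uy Lw ev t y g) :
    pY Lw ev t y' A = pY Lw ev t y A := by
  rw [pY_eq, pY_eq]
  exact pur_congr A h

theorem vl_congr {y y' : Y} (A : Gf X)
    (h : ∀ g ∈ bg Lw A, uy Lw ev t y' g = uy Lw ev t y g) :
    vl Lw ev t y' A = tv Lw ev t (uy Lw ev t y) y' A := by
  unfold vl tv
  rw [pY_congr A h, pY_eq]

/-- the values of the gates of `A` are determined by the equations of the gates -/
theorem uy_of_eqs {y y' : Y} (A : Gf X)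
    (h : ∀ m φ a, Gf.gate m φ a ∈ bg Lw A →
      φ (fun i => tv Lw ev t (uy Lw ev t y) y' (a i)) = uy Lw ev t y (.gate m φ a)) :
    ∀ g ∈ bg Lw A, uy Lw ev t y' g = uy Lw ev t y g := by
  induction A with
  | var v =>
    rintro g ⟨hg, _⟩
    rw [gates_var] at hg
    exact absurd hg (Set.notMem_empty g)
  | neg f ih =>
    rintro g ⟨hg, hl⟩
    rw [gates_neg] at hg
    exact ih (fun m φ a ha => h m φ a ⟨by rw [gates_neg]; exact ha.1, ha.2⟩) g ⟨hg, hl⟩
  | and f g ihf ihg =>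
    rintro k ⟨hk, hl⟩
    rw [gates_and] at hk
    rcases hk with hk | hk
    · exact ihf (fun m φ a ha => h m φ a ⟨by rw [gates_and]; exact Or.inl ha.1, ha.2⟩) k ⟨hk, hl⟩
    · exact ihg (fun m φ a ha => h m φ a ⟨by rw [gates_and]; exact Or.inr ha.1, ha.2⟩) k ⟨hk, hl⟩
  | or f g ihf ihg =>
    rintro k ⟨hk, hl⟩
    rw [gates_or] at hk
    rcases hk with hk | hk
    · exact ihf (fun m φ a ha => h m φ a ⟨by rw [gates_or]; exact Or.inl ha.1, ha.2⟩) k ⟨hk, hl⟩
    · exact ihg (fun m φ a ha => h m φ a ⟨by rw [gates_or]; exact Or.inr ha.1, ha.2⟩) k ⟨hk, hl⟩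
  | gate m φ a ih =>
    have hin : ∀ i, ∀ g ∈ bg Lw (a i), uy Lw ev t y' g = uy Lw ev t y g := fun i =>
      ih i fun m' φ' a' ha' => h m' φ' a'
        ⟨by rw [gates_gate]; exact Or.inr (Set.mem_iUnion.2 ⟨i, ha'.1⟩), ha'.2⟩
    rintro k ⟨hk, hl⟩
    rw [gates_gate] at hk
    rcases hk with rfl | hk
    · rw [← h m φ a ⟨by rw [gates_gate]; exact Or.inl rfl, hl⟩, uy_gate]
      congr 1
      funext i
      exact vl_congr (a i) (hin i)
    · obtain ⟨i, hi⟩ := Set.mem_iUnion.1 hk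
      exact hin i k ⟨hi, hl⟩

/-- the class of assignments with the same values of the gates in `Z` -/
theorem uy_class {y y' : Y} {Z : Set (Gf X)} (hZ : ∀ g ∈ Z, bg Lw g ⊆ Z)
    (hg : ∀ g ∈ Z, g.IsGate ∧ ¬ Lw g) :
    (∀ g ∈ Z, uy Lw ev t y' g = uy Lw ev t y g) ↔ ∀ m φ a, Gf.gate m φ a ∈ Z →
      φ (fun i => tv Lw ev t (uy Lw ev t y) y' (a i)) = uy Lw ev t y (.gate m φ a) := by
  constructor
  · intro h m φ a ha
    have h1 : ∀ i, ∀ g ∈ bg Lw (a i), uy Lw ev t y' g = uy Lw ev t y g := fun i g hga =>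
      h g (hZ _ ha ⟨by rw [gates_gate]; exact Or.inr (Set.mem_iUnion.2 ⟨i, hga.1⟩), hga.2⟩)
    rw [← h _ ha, uy_gate]
    congr 1
    funext i
    exact (vl_congr (a i) (h1 i)).symm
  · intro h g hgZ
    refine uy_of_eqs g (fun m φ a ha => h m φ a (hZ g hgZ ha)) g ?_
    exact ⟨⟨Gf.self_mem_subs g, (hg g hgZ).1⟩, (hg g hgZ).2⟩

end

end FrN
end

section

/-!
Few large gates (namespace `FrN`): degrees of the indicators of classes; the partition of the cube
given by finitely many formulas.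
-/

set_option linter.unusedSectionVars false

namespace FrN

open Finset FrC FrM
open Fr56 (Fm)
open scoped Classical

section
variable {V E : Type} [Fintype E] [DecidableEq V] {G : Gph V E} {Fr : Frame G} {v0 : V}
  {X : Type} {Φ : Set (Fm (Gf X))} {cap : ℕ}

/-- the low formulas that are atoms of formulas in `Φ` are evaluated at the assignment `ev y`, which
gives their local values -/
structure Ex (S : Valn Fr v0 (Gf X) Φ cap) (Lw : Gf X → Prop) (ev : (E → ZMod 2) → X → Bool)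
    (kk : ℕ) where
  W : Gf X → Finset V
  card : ∀ A, (W A).card ≤ kk
  dep : ∀ A, Lw A → Fm.var A ∈ Φ → ∀ y y', G.Agree (W A) y y' → A.eval (ev y') = A.eval (ev y)
  val : ∀ A, Lw A → Fm.var A ∈ Φ → ∀ b U y, W A ⊆ U → U.card ≤ cap → Fr.Ok v0 U y →
    S.Q (.var A) b U y → b = A.eval (ev y)

variable {S : Valn Fr v0 (Gf X) Φ cap} {kk : ℕ} (T : Tr S kk) {Lw : Gf X → Prop}
  {ev : (E → ZMod 2) → X → Bool} (I : Ex S Lw ev kk) {p : ℕ} [Fact p.Prime]

include I in
theorem low_mem_Loc (h2 : (2 : ZMod p) ≠ 0) {A : Gf X} (hA : Lw A) (hΦ : Fm.var A ∈ Φ) (c : Bool) :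
    (fun y => if A.eval (ev y) = c then (1 : ZMod p) else 0) ∈ Loc (ZMod p) G kk := by
  refine dep_mem_Loc (ZMod p) h2 (I.W A) (I.card A) _ fun y y' h => ?_
  rw [I.dep A hA hΦ y y' h]

include I in
theorem tv_mem_Loc (h2 : (2 : ZMod p) ≠ 0) (u : Gf X → Bool) {A : Gf X}
    (hΦ : Lw A → Fm.var A ∈ Φ) (c : Bool) :
    (fun y => if tv Lw ev T.t u y A = c then (1 : ZMod p) else 0) ∈ Loc (ZMod p) G kk := by
  unfold tv
  by_cases hA : Lw A
  · simp only [if_pos hA]
    exact low_mem_Loc I h2 hA (hΦ hA) c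
  · simp only [if_neg hA]
    exact t_mem_Loc T h2 _ c

include I in
theorem gate_mem_Loc (h2 : (2 : ZMod p) ≠ 0) {m : ℕ} {φ : (Fin m → Bool) → Bool} {e : ℕ}
    (hφ : PolyDeg p φ (e : ℝ)) (u : Gf X → Bool) (a : Fin m → Gf X)
    (hΦ : ∀ i, Lw (a i) → Fm.var (a i) ∈ Φ) (c : Bool) :
    (fun y => if φ (fun i => tv Lw ev T.t u y (a i)) = c then (1 : ZMod p) else 0) ∈
      Loc (ZMod p) G (e * kk) := by
  have h1 : (fun y => if φ (fun i => tv Lw ev T.t u y (a i)) = true then (1 : ZMod p) else 0) ∈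
      Loc (ZMod p) G (e * kk) := by
    obtain ⟨co, hco, hval⟩ := hφ
    have heq : (fun y => if φ (fun i => tv Lw ev T.t u y (a i)) = true then (1 : ZMod p) else 0) =
        ∑ s : Finset (Fin m), co s •
          ∏ i ∈ s, (fun y => if tv Lw ev T.t u y (a i) = true then (1 : ZMod p) else 0) := by
      funext y
      rw [Finset.sum_apply]
      rw [hval (fun i => tv Lw ev T.t u y (a i))]
      refine Finset.sum_congr rfl fun s _ => ?_
      rw [Pi.smul_apply, Finset.prod_apply, smul_eq_mul]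
    rw [heq]
    refine Submodule.sum_mem _ fun s _ => ?_
    by_cases hs : (e : ℝ) < (s.card : ℝ)
    · rw [hco s hs, zero_smul]
      exact Submodule.zero_mem _
    · refine Submodule.smul_mem _ _ ?_
      refine Loc_mono (ZMod p) ?_ (prod_mem_Loc s _ fun i _ => tv_mem_Loc T I h2 u (hΦ i) true)
      have : s.card ≤ e := by
        push Not at hs
        exact_mod_cast hs
      exact Nat.mul_le_mul_right _ this
  cases c with
  | true => exact h1
  | false =>
    have heq : (fun y => if φ (fun i => tv Lw ev T.t u y (a i)) = false then (1 : ZMod p) else 0) =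
        1 - (fun y => if φ (fun i => tv Lw ev T.t u y (a i)) = true then (1 : ZMod p) else 0) := by
      funext y
      rw [Pi.sub_apply, Pi.one_apply]
      cases φ (fun i => tv Lw ev T.t u y (a i)) <;> simp
    rw [heq]
    exact Submodule.sub_mem _ (one_mem_Loc (ZMod p) _) h1

include I in
/-- the indicator of the class of assignments with given values of the gates -/
theorem class_mem_Loc (h2 : (2 : ZMod p) ≠ 0) {Z : Set (Gf X)} (hfin : Z.Finite)
    (hZ : ∀ g ∈ Z, bg Lw g ⊆ Z) (hg : ∀ g ∈ Z, g.IsGate ∧ ¬ Lw g) {w e : ℕ} (hw : Z.ncard ≤ w)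
    (hdeg : ∀ m φ a, Gf.gate m φ a ∈ Z → PolyDeg p φ (e : ℝ))
    (hΦ : ∀ m φ a, Gf.gate m φ a ∈ Z → ∀ i, Lw (a i) → Fm.var (a i) ∈ Φ) (y : E → ZMod 2) :
    (fun y' => if ∀ g ∈ Z, uy Lw ev T.t y' g = uy Lw ev T.t y g then (1 : ZMod p) else 0) ∈
      Loc (ZMod p) G (w * (e * kk)) := by
  have heq : (fun y' => if ∀ g ∈ Z, uy Lw ev T.t y' g = uy Lw ev T.t y g then (1 : ZMod p) else 0) =
      fun y' => if ∀ g ∈ hfin.toFinset, (∀ m φ a, g = Gf.gate m φ a →
        φ (fun i => tv Lw ev T.t (uy Lw ev T.t y) y' (a i)) = uy Lw ev T.t y g) then (1 : ZMod p)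
        else 0 := by
    funext y'
    have hiff : (∀ g ∈ Z, uy Lw ev T.t y' g = uy Lw ev T.t y g) ↔
        (∀ g ∈ hfin.toFinset, (∀ m φ a, g = Gf.gate m φ a →
        φ (fun i => tv Lw ev T.t (uy Lw ev T.t y) y' (a i)) = uy Lw ev T.t y g)) := by
      rw [uy_class hZ hg]
      constructor
      · rintro h g hgZ m φ a rfl
        exact h m φ a ((Set.Finite.mem_toFinset hfin).1 hgZ)
      · intro h m φ a ha
        exact h _ ((Set.Finite.mem_toFinset hfin).2 ha) m φ a rfl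
    by_cases hc : ∀ g ∈ Z, uy Lw ev T.t y' g = uy Lw ev T.t y g
    · rw [if_pos hc, if_pos (hiff.1 hc)]
    · rw [if_neg hc, if_neg (fun h => hc (hiff.2 h))]
  rw [heq, ind_forall]
  have hcard : hfin.toFinset.card ≤ w := by
    rw [← Set.ncard_eq_toFinset_card Z hfin]
    exact hw
  refine Loc_mono (ZMod p) (Nat.mul_le_mul_right _ hcard) (prod_mem_Loc _ _ fun g hgm => ?_)
  have hgZ := (Set.Finite.mem_toFinset hfin).1 hgm
  have hgg := (hg g hgZ).1
  cases g with
  | var v => exact absurd hgg (by simp [Gf.IsGate])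
  | neg f => exact absurd hgg (by simp [Gf.IsGate])
  | and f g => exact absurd hgg (by simp [Gf.IsGate])
  | or f g => exact absurd hgg (by simp [Gf.IsGate])
  | gate m φ a =>
    have h3 := gate_mem_Loc T I h2 (hdeg m φ a hgZ) (uy Lw ev T.t y) a (hΦ m φ a hgZ)
      (uy Lw ev T.t y (.gate m φ a))
    refine (congrArg (· ∈ Loc (ZMod p) G (e * kk)) ?_).mp h3
    funext y'
    have hiff : (φ (fun i => tv Lw ev T.t (uy Lw ev T.t y) y' (a i)) =
        uy Lw ev T.t y (.gate m φ a)) ↔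
        (∀ m' φ' a', Gf.gate m φ a = Gf.gate m' φ' a' →
        φ' (fun i => tv Lw ev T.t (uy Lw ev T.t y) y' (a' i)) = uy Lw ev T.t y (.gate m φ a)) := by
      constructor
      · intro h m' φ' a' heq'
        simp only [Gf.gate.injEq] at heq'
        obtain ⟨rfl, h4, h5⟩ := heq'
        rw [heq_eq_eq] at h4 h5
        subst h4 h5
        exact h
      · intro h
        exact h m φ a rfl
    by_cases hc : φ (fun i => tv Lw ev T.t (uy Lw ev T.t y) y' (a i)) =
        uy Lw ev T.t y (.gate m φ a)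
    · rw [if_pos hc, if_pos (hiff.1 hc)]
    · rw [if_neg hc, if_neg (fun h => hc (hiff.2 h))]

/-! ### classes -/

variable (Z : Set (Gf X)) (Cs : Finset (Gf X))

/-- the vertices revealed for the formulas in `Cs` -/
noncomputable def kap (y : E → ZMod 2) : Finset V :=
  Cs.biUnion fun P => T.Us (pY Lw ev T.t y P) y ∪ I.W P

/-- the class of `y` -/
def cls (y : E → ZMod 2) : Set (E → ZMod 2) :=
  {y' | G.Agree (kap T I Cs y) y y' ∧ ∀ g ∈ Z, uy Lw ev T.t y' g = uy Lw ev T.t y g}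

theorem card_kap (y : E → ZMod 2) : (kap T I Cs y).card ≤ Cs.card * (2 * kk) := by
  unfold kap
  refine Finset.card_biUnion_le_card_mul _ _ _ fun P _ => ?_
  refine (Finset.card_union_le _ _).trans ?_
  have h1 := T.card (pY Lw ev T.t y P) y
  have h3 := I.card P
  omega

theorem cls_self (y : E → ZMod 2) : y ∈ cls T I Z Cs y :=
  ⟨Gph.Agree.refl G _ _, fun _ _ => rfl⟩

variable {Z Cs}

theorem us_sub_kap {P : Gf X} (hP : P ∈ Cs) (y : E → ZMod 2) :
    T.Us (pY Lw ev T.t y P) y ⊆ kap T I Cs y :=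
  Finset.subset_union_left.trans
    (Finset.subset_biUnion_of_mem (fun P => T.Us (pY Lw ev T.t y P) y ∪ I.W P) hP)

theorem w_sub_kap {P : Gf X} (hP : P ∈ Cs) (y : E → ZMod 2) : I.W P ⊆ kap T I Cs y :=
  Finset.subset_union_right.trans
    (Finset.subset_biUnion_of_mem (fun P => T.Us (pY Lw ev T.t y P) y ∪ I.W P) hP)

theorem pY_cls (hCs : ∀ P ∈ Cs, bg Lw P ⊆ Z) {y y' : E → ZMod 2}
    (h : y' ∈ cls T I Z Cs y) {P : Gf X} (hP : P ∈ Cs) :
    pY Lw ev T.t y' P = pY Lw ev T.t y P :=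
  pY_congr P fun g hg => h.2 g (hCs P hP hg)

theorem vl_cls (hCs : ∀ P ∈ Cs, bg Lw P ⊆ Z) (hΦ : ∀ P ∈ Cs, Lw P → Fm.var P ∈ Φ)
    {y y' : E → ZMod 2} (h : y' ∈ cls T I Z Cs y) {P : Gf X} (hP : P ∈ Cs) :
    vl Lw ev T.t y' P = vl Lw ev T.t y P := by
  unfold vl
  by_cases hl : Lw P
  · rw [if_pos hl, if_pos hl]
    exact I.dep P hl (hΦ P hP hl) y y' (h.1.mono (w_sub_kap T I hP y))
  · rw [if_neg hl, if_neg hl, pY_cls T I hCs h hP]
    exact (T.cons _ y y' (h.1.mono (us_sub_kap T I hP y))).2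

theorem kap_cls (hCs : ∀ P ∈ Cs, bg Lw P ⊆ Z) {y y' : E → ZMod 2}
    (h : y' ∈ cls T I Z Cs y) : kap T I Cs y' = kap T I Cs y := by
  unfold kap
  refine Finset.biUnion_congr rfl fun P hP => ?_
  rw [pY_cls T I hCs h hP, (T.cons _ y y' (h.1.mono (us_sub_kap T I hP y))).1]

theorem cls_cls (hCs : ∀ P ∈ Cs, bg Lw P ⊆ Z) {y y' : E → ZMod 2}
    (h : y' ∈ cls T I Z Cs y) : cls T I Z Cs y' = cls T I Z Cs y := by
  ext z
  have hk := kap_cls T I hCs h
  constructor
  · rintro ⟨h1, h2⟩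
    rw [hk] at h1
    exact ⟨h.1.trans h1, fun g hg => (h2 g hg).trans (h.2 g hg)⟩
  · rintro ⟨h1, h2⟩
    refine ⟨?_, fun g hg => (h2 g hg).trans (h.2 g hg).symm⟩
    rw [hk]
    exact h.1.symm.trans h1

/-- the indicator of a class as a product -/
theorem ind_cls {K : Type} [Field K] (y : E → ZMod 2) :
    (fun y' => if y' ∈ cls T I Z Cs y then (1 : K) else 0) =
      (fun y' => if G.Agree (kap T I Cs y) y y' then (1 : K) else 0) *
      (fun y' => if ∀ g ∈ Z, uy Lw ev T.t y' g = uy Lw ev T.t y g then (1 : K) else 0) := by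
  funext y'
  rw [Pi.mul_apply]
  unfold cls
  simp only [Set.mem_ofPred_eq]
  by_cases h1 : G.Agree (kap T I Cs y) y y'
  · by_cases h2 : ∀ g ∈ Z, uy Lw ev T.t y' g = uy Lw ev T.t y g
    · rw [if_pos ⟨h1, h2⟩, if_pos h1, if_pos h2, one_mul]
    · rw [if_neg (fun h => h2 h.2), if_pos h1, if_neg h2, one_mul]
  · rw [if_neg (fun h => h1 h.1), if_neg h1, zero_mul]

/-- the indicator of a value of a formula -/
noncomputable def ind (Lw : Gf X → Prop) (ev : (E → ZMod 2) → X → Bool) (p : ℕ) (A : Gf X)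
    (c : Bool) : (E → ZMod 2) → ZMod p :=
  fun y => if vl Lw ev T.t y A = c then 1 else 0

include I in
theorem ind_mem_Loc (h2 : (2 : ZMod p) ≠ 0) (A : Gf X) {w e : ℕ} (hw : (bg Lw A).ncard ≤ w)
    (hdeg : ∀ m φ a, Gf.gate m φ a ∈ bg Lw A → PolyDeg p φ (e : ℝ))
    (hΦ : ∀ B ∈ A.subs, Lw B → Fm.var B ∈ Φ) (c : Bool) :
    ind T Lw ev p A c ∈ Loc (ZMod p) G (w * (e * kk) + 2 * kk) := by
  have hCs : ∀ P ∈ ({A} : Finset (Gf X)), bg Lw P ⊆ bg Lw A := by
    intro P hP
    rw [Finset.mem_singleton] at hP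
    rw [hP]
  have hCΦ : ∀ P ∈ ({A} : Finset (Gf X)), Lw P → Fm.var P ∈ Φ := by
    intro P hP
    rw [Finset.mem_singleton] at hP
    rw [hP]
    exact hΦ A (Gf.self_mem_subs A)
  refine mem_of_classes _ (cls T I (bg Lw A) {A}) (cls_self T I _ _)
    (fun y y' h => cls_cls T I hCs h) _ ?_
  intro y1
  have heq : (fun y => if y ∈ cls T I (bg Lw A) {A} y1 then ind T Lw ev p A c y else 0) =
      ind T Lw ev p A c y1 •
      ((fun y' => if G.Agree (kap T I {A} y1) y1 y' then (1 : ZMod p) else 0) *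
      (fun y' => if ∀ g ∈ bg Lw A, uy Lw ev T.t y' g = uy Lw ev T.t y1 g then (1 : ZMod p)
        else 0)) := by
    rw [← ind_cls T I y1]
    funext y
    rw [Pi.smul_apply, smul_eq_mul]
    by_cases h : y ∈ cls T I (bg Lw A) {A} y1
    · rw [if_pos h, if_pos h, mul_one]
      unfold ind
      rw [vl_cls T I hCs hCΦ h (Finset.mem_singleton_self A)]
    · rw [if_neg h, if_neg h, mul_zero]
  rw [heq]
  refine Submodule.smul_mem _ _ ?_
  have h1 : (kap T I {A} y1).card ≤ 2 * kk := by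
    have := card_kap T I {A} y1
    rw [Finset.card_singleton, one_mul] at this
    exact this
  refine Loc_mono (ZMod p) (le_of_eq (Nat.add_comm _ _)) (Loc_mul (ZMod p) (cyl_mem_Loc h2 h1 y1)
    (class_mem_Loc T I h2 (A.gates_finite.subset fun g hg => hg.1) (fun g hg => bg_closed hg)
      (fun g hg => ⟨hg.1.2, hg.2⟩) hw hdeg (fun m φ a ha i hl => ?_) y1))
  refine hΦ (a i) ?_ hl
  refine Gf.subs_trans ?_ ha.1.1
  simp only [Gf.subs, Set.mem_insert_iff, Set.mem_iUnion]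
  exact Or.inr ⟨i, Gf.self_mem_subs _⟩

end

end FrN
end

section

/-!
Few large gates (namespace `FrN`): the soundness lemma.
-/

set_option linter.unusedSectionVars false

namespace FrN

open Finset FrC FrM
open Fr56 (Fm)
open scoped Classical

section
variable {V E : Type} [Fintype E] [DecidableEq V] {G : Gph V E} {Fr : Frame G} {v0 : V}
  {X : Type} {Φ : Set (Fm (Gf X))} {cap : ℕ} {S : Valn Fr v0 (Gf X) Φ cap} {kk : ℕ}
  (T : Tr S kk) {Lw : Gf X → Prop} {ev : (E → ZMod 2) → X → Bool} (I : Ex S Lw ev kk)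

include I in
/-- the tree value of a low formula at a class that contains a state -/
theorem t_low {A : Gf X} (hA : Lw A) (hΦ : Fm.var A ∈ Φ) {U : Finset V} (hU : U.card ≤ cap)
    {y y2 : E → ZMod 2} (hsub : T.Us (.var A) y ⊆ U) (hsub' : I.W A ⊆ U) (hag : G.Agree U y y2)
    (hok : Fr.Ok v0 U y2) : T.t (.var A) y = A.eval (ev y) := by
  have h1 := T.at_state hΦ hU hsub hag hok
  rw [I.val A hA hΦ _ U y2 hsub' hU hok h1]
  exact I.dep A hA hΦ y y2 (hag.mono hsub')

/-- all gates of the instances that are not low -/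
def gts (Lw : Gf X → Prop) (L : List (Gf ℕ × Bool)) (σ : ℕ → Gf X) : Set (Gf X) :=
  {g | ∃ P ∈ L, g ∈ bg Lw (P.1.subst σ)}

theorem gts_cons (P : Gf ℕ × Bool) (L : List (Gf ℕ × Bool)) (σ : ℕ → Gf X) :
    gts Lw (P :: L) σ = bg Lw (P.1.subst σ) ∪ gts Lw L σ := by
  ext g
  unfold gts
  simp only [List.mem_cons, Set.mem_ofPred_eq, Set.mem_union]
  constructor
  · rintro ⟨P', rfl | h, hg⟩
    · exact Or.inl hg
    · exact Or.inr ⟨P', h, hg⟩
  · rintro (h | ⟨P', h, hg⟩)
    · exact ⟨P, Or.inl rfl, h⟩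
    · exact ⟨P', Or.inr h, hg⟩

theorem bg_finite (A : Gf X) : (bg Lw A).Finite := A.gates_finite.subset fun _ h => h.1

theorem gts_finite (L : List (Gf ℕ × Bool)) (σ : ℕ → Gf X) : (gts Lw L σ).Finite := by
  induction L with
  | nil =>
    refine Set.Finite.subset Set.finite_empty ?_
    rintro g ⟨P, hP, _⟩
    exact absurd hP (by simp)
  | cons P L ih =>
    rw [gts_cons]
    exact (bg_finite _).union ih

theorem ncard_gts {w : ℕ} (L : List (Gf ℕ × Bool)) (σ : ℕ → Gf X)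
    (hw : ∀ P ∈ L, (bg Lw (P.1.subst σ)).ncard ≤ w) :
    (gts Lw L σ).ncard ≤ (L.map fun P => P.1.conn + 1).sum * w := by
  induction L with
  | nil =>
    have : gts Lw ([] : List (Gf ℕ × Bool)) σ = ∅ := by
      ext g
      simp [gts]
    rw [this, Set.ncard_empty]
    exact Nat.zero_le _
  | cons P L ih =>
    rw [gts_cons]
    have h1 := Set.ncard_union_le (bg Lw (P.1.subst σ)) (gts Lw L σ)
    have h3 := hw P (by simp)
    have h4 := ih fun P' hP' => hw P' (List.mem_cons_of_mem _ hP')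
    simp only [List.map_cons, List.sum_cons]
    have h5 : w ≤ (P.1.conn + 1) * w := Nat.le_mul_of_pos_left w (by omega)
    rw [add_mul]
    omega

theorem arg_mem_subs {m : ℕ} {φ : (Fin m → Bool) → Bool} {a : Fin m → Gf X} {A : Gf X}
    (h : Gf.gate m φ a ∈ A.subs) (i : Fin m) : a i ∈ A.subs := by
  refine Gf.subs_trans ?_ h
  simp only [Gf.subs, Set.mem_insert_iff, Set.mem_iUnion]
  exact Or.inr ⟨i, Gf.self_mem_subs _⟩

variable {p : ℕ} [Fact p.Prime]

include I in
/-- **the soundness lemma** -/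
theorem sound_lemma (hcap : cap ≤ Fr.m) (h0 : Fr.Free ∅ v0) (h2 : (2 : ZMod p) ≠ 0)
    (hLw : LowC Lw) (hc : ∀ b, Fm.var (cg b) ∈ Φ) (L : List (Gf ℕ × Bool))
    (hL : ∀ x : ℕ → Bool, ∃ P ∈ L, P.1.eval x ≠ P.2) (σ : ℕ → Gf X)
    (hΦ : ∀ P ∈ L, ∀ B ∈ (P.1.subst σ).subs, ∀ u, pur Lw u B ∈ Φ) {q w e a M M1 : ℕ}
    (hq : (L.map fun P => P.1.conn + 1).sum ≤ q)
    (hw : ∀ P ∈ L, (bg Lw (P.1.subst σ)).ncard ≤ w)
    (hdeg : ∀ P ∈ L, ∀ m φ b, Gf.gate m φ b ∈ bg Lw (P.1.subst σ) → PolyDeg p φ (e : ℝ))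
    (n1 : a + (w * (e * kk) + 2 * kk) ≤ M) (n2 : (3 * q + 2) * (2 * kk) ≤ M)
    (n3 : M + (a + (w * (e * kk) + 2 * kk)) + ((3 * q + 2) * (2 * kk) + q * w * (e * kk)) ≤ M1)
    (n4 : 3 * M1 ≤ Fr.m) (n5 : (3 * q + 2) * (2 * kk) ≤ cap) {f0 : (E → ZMod 2) → ZMod p}
    (hf0 : f0 ∈ Loc (ZMod p) G a)
    (h : ∀ P ∈ L, f0 * ind T Lw ev p (P.1.subst σ) (!P.2) ∈ Nul Fr v0 (ZMod p) M M1) :
    f0 ∈ Nul Fr v0 (ZMod p) M M1 := by
  set Z : Set (Gf X) := gts Lw L σ with hZdef
  set Cs : Finset (Gf X) := ((cores L).image fun B => B.subst σ) ∪ {cg true, cg false} with hCsdef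
  have hmem : ∀ B ∈ cores L, B.subst σ ∈ Cs := fun B hB =>
    Finset.mem_union_left _ (Finset.mem_image_of_mem _ hB)
  have hcgm : ∀ b, cg b ∈ Cs := fun b => Finset.mem_union_right _ (by cases b <;> simp)
  have hsubs : ∀ B ∈ cores L, ∃ P ∈ L, B.subst σ ∈ (P.1.subst σ).subs := by
    intro B hB
    obtain ⟨P, hP, hBP⟩ := mem_cores.1 hB
    exact ⟨P, hP, Gf.subst_mem_subs (core_subs hBP) σ⟩
  have hcase : ∀ P ∈ Cs, (∃ B ∈ cores L, P = B.subst σ) ∨ ∃ b, P = cg b := by
    intro P hP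
    rcases Finset.mem_union.1 hP with hP | hP
    · obtain ⟨B, hB, rfl⟩ := Finset.mem_image.1 hP
      exact Or.inl ⟨B, hB, rfl⟩
    · rw [Finset.mem_insert, Finset.mem_singleton] at hP
      rcases hP with rfl | rfl
      · exact Or.inr ⟨true, rfl⟩
      · exact Or.inr ⟨false, rfl⟩
  have hCs : ∀ P ∈ Cs, bg Lw P ⊆ Z := by
    intro P hP
    rcases hcase P hP with ⟨B, hB, rfl⟩ | ⟨b, rfl⟩
    · obtain ⟨P', hP', h1⟩ := hsubs B hB
      exact fun g hg => ⟨P', hP', bg_mono h1 hg⟩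
    · rintro g ⟨hg, hl⟩
      refine absurd (low_subs hLw (hLw.cg b) hg.1) hl
  have hlowΦ : ∀ P ∈ L, ∀ B ∈ (P.1.subst σ).subs, Lw B → Fm.var B ∈ Φ := by
    intro P hP B hB hl
    have h3 := hΦ P hP B hB (fun _ => false)
    rwa [pur_low _ hl] at h3
  have hCΦ : ∀ P ∈ Cs, Lw P → Fm.var P ∈ Φ := by
    intro P hP hl
    rcases hcase P hP with ⟨B, hB, rfl⟩ | ⟨b, rfl⟩
    · obtain ⟨P', hP', h1⟩ := hsubs B hB
      exact hlowΦ P' hP' _ h1 hl
    · exact hc b
  have hZcl : ∀ g ∈ Z, bg Lw g ⊆ Z := by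
    rintro g ⟨P, hP, hg⟩ g' hg'
    exact ⟨P, hP, bg_closed hg hg'⟩
  have hZg : ∀ g ∈ Z, g.IsGate ∧ ¬ Lw g := by
    rintro g ⟨P, _, hg⟩
    exact ⟨hg.1.2, hg.2⟩
  have hZdeg : ∀ m φ b, Gf.gate m φ b ∈ Z → PolyDeg p φ (e : ℝ) := by
    rintro m φ b ⟨P, hP, hg⟩
    exact hdeg P hP m φ b hg
  have hZΦ : ∀ m φ b, Gf.gate m φ b ∈ Z → ∀ i, Lw (b i) → Fm.var (b i) ∈ Φ := by
    rintro m φ b ⟨P, hP, hg⟩ i hl
    exact hlowΦ P hP _ (arg_mem_subs hg.1.1 i) hl
  have hZcard : Z.ncard ≤ q * w :=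
    (ncard_gts L σ hw).trans (Nat.mul_le_mul_right _ hq)
  have hCcard : Cs.card ≤ 3 * q + 2 := by
    refine (Finset.card_union_le _ _).trans (Nat.add_le_add ?_ Finset.card_le_two)
    exact Finset.card_image_le.trans ((card_cores L).trans (Nat.mul_le_mul_left _ hq))
  refine mem_of_classes _ (cls T I Z Cs) (cls_self T I _ _)
    (fun y y' h => cls_cls T I hCs h) _ ?_
  intro y1
  set U := kap T I Cs y1 with hUdef
  have hUcard : U.card ≤ (3 * q + 2) * (2 * kk) :=
    (card_kap T I Cs y1).trans (Nat.mul_le_mul_right _ hCcard)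
  have hcyl := cyl_mem_Loc (G := G) h2 hUcard y1
  have hcla := class_mem_Loc T I h2 (gts_finite L σ) hZcl hZg hZcard hZdeg hZΦ y1
  by_cases hext : ∃ y2, G.Agree U y1 y2 ∧ Fr.Ok v0 U y2
  · obtain ⟨y2, hag, hok⟩ := hext
    have hUcap : U.card ≤ cap := hUcard.trans n5
    -- the values at the class
    set val : Gf ℕ → Bool := fun B => vl Lw ev T.t y1 (B.subst σ) with hval
    have hpΦ : ∀ B ∈ cores L, pY Lw ev T.t y1 (B.subst σ) ∈ Φ := by
      intro B hB
      obtain ⟨P, hP, h1⟩ := hsubs B hB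
      rw [pY_eq]
      exact hΦ P hP _ h1 _
    have hlow : ∀ P ∈ Cs, Lw P → T.t (.var P) y1 = P.eval (ev y1) := by
      intro P hP hl
      have h3 := us_sub_kap T I hP y1
      rw [pY_low _ hl] at h3
      exact t_low T I hl (hCΦ P hP hl) hUcap h3 (w_sub_kap T I hP y1) hag hok
    have hQ : ∀ B ∈ cores L, S.Q (pY Lw ev T.t y1 (B.subst σ)) (val B) U y2 := by
      intro B hB
      have h3 := T.at_state (hpΦ B hB) hUcap (us_sub_kap T I (hmem B hB) y1) hag hok
      have h4 : T.t (pY Lw ev T.t y1 (B.subst σ)) y1 = val B := by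
        rw [hval]
        show _ = vl Lw ev T.t y1 (B.subst σ)
        unfold vl
        by_cases hl : Lw (B.subst σ)
        · rw [if_pos hl, pY_low _ hl]
          exact hlow _ (hmem B hB) hl
        · rw [if_neg hl]
      rwa [h4] at h3
    have hcl := coreCl_cores L
    have hev : ∀ A ∈ cores L, val A = A.eval fun x => val (.var x) := by
      refine eval_core hcl val ?_ ?_ ?_ ?_
      · intro f hf
        by_cases hl : Lw (Gf.neg (f.subst σ))
        · have hl1 := hLw.neg _ hl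
          show vl Lw ev T.t y1 (Gf.neg (f.subst σ)) = !(vl Lw ev T.t y1 (f.subst σ))
          unfold vl
          rw [if_pos hl, if_pos hl1]
          rfl
        · have h5 := hpΦ _ hf
          have h6 := hQ _ hf
          have h7 : pY Lw ev T.t y1 ((Gf.neg f).subst σ) =
              .neg (pY Lw ev T.t y1 (f.subst σ)) := by
            show pY Lw ev T.t y1 (Gf.neg (f.subst σ)) = _
            simp only [pY, if_neg hl]
          rw [h7] at h5 h6
          exact S.neg _ (hpΦ _ (hcl.neg f hf)) h5 _ _ U y2 hUcap hok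
            (hQ _ (hcl.neg f hf)) h6
      · intro f g hf
        by_cases hl : Lw (Gf.and (f.subst σ) (g.subst σ))
        · have hl1 := hLw.and _ _ hl
          show vl Lw ev T.t y1 (Gf.and (f.subst σ) (g.subst σ)) =
            (vl Lw ev T.t y1 (f.subst σ) && vl Lw ev T.t y1 (g.subst σ))
          unfold vl
          rw [if_pos hl, if_pos hl1.1, if_pos hl1.2]
          rfl
        · have h5 := hpΦ _ hf
          have h6 := hQ _ hf
          have h7 : pY Lw ev T.t y1 ((Gf.and f g).subst σ) =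
              .and (pY Lw ev T.t y1 (f.subst σ)) (pY Lw ev T.t y1 (g.subst σ)) := by
            show pY Lw ev T.t y1 (Gf.and (f.subst σ) (g.subst σ)) = _
            simp only [pY, if_neg hl]
          rw [h7] at h5 h6
          exact S.and _ _ (hpΦ _ (hcl.and f g hf).1) (hpΦ _ (hcl.and f g hf).2) h5 _ _ _ U
            y2 hUcap hok (hQ _ (hcl.and f g hf).1) (hQ _ (hcl.and f g hf).2) h6
      · intro f g hf
        by_cases hl : Lw (Gf.or (f.subst σ) (g.subst σ))
        · have hl1 := hLw.or _ _ hl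
          show vl Lw ev T.t y1 (Gf.or (f.subst σ) (g.subst σ)) =
            (vl Lw ev T.t y1 (f.subst σ) || vl Lw ev T.t y1 (g.subst σ))
          unfold vl
          rw [if_pos hl, if_pos hl1.1, if_pos hl1.2]
          rfl
        · have h5 := hpΦ _ hf
          have h6 := hQ _ hf
          have h7 : pY Lw ev T.t y1 ((Gf.or f g).subst σ) =
              .or (pY Lw ev T.t y1 (f.subst σ)) (pY Lw ev T.t y1 (g.subst σ)) := by
            show pY Lw ev T.t y1 (Gf.or (f.subst σ) (g.subst σ)) = _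
            simp only [pY, if_neg hl]
          rw [h7] at h5 h6
          exact S.or _ _ (hpΦ _ (hcl.or f g hf).1) (hpΦ _ (hcl.or f g hf).2) h5 _ _ _ U
            y2 hUcap hok (hQ _ (hcl.or f g hf).1) (hQ _ (hcl.or f g hf).2) h6
      · intro m φ b hf
        by_cases hl : Lw (Gf.gate m φ fun i => (b i).subst σ)
        · have hl1 := hLw.gate _ _ _ hl
          show vl Lw ev T.t y1 (Gf.gate m φ fun i => (b i).subst σ) =
            φ fun i => vl Lw ev T.t y1 ((b i).subst σ)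
          unfold vl
          rw [if_pos hl]
          simp only [if_pos (hl1 _)]
          rfl
        · show vl Lw ev T.t y1 (Gf.gate m φ fun i => (b i).subst σ) =
            φ fun i => vl Lw ev T.t y1 ((b i).subst σ)
          have h7 : pY Lw ev T.t y1 (Gf.gate m φ fun i => (b i).subst σ) =
              .var (cg (φ fun i => vl Lw ev T.t y1 ((b i).subst σ))) := by
            simp only [pY, if_neg hl]
            rfl
          have h8 : vl Lw ev T.t y1 (Gf.gate m φ fun i => (b i).subst σ) =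
              T.t (.var (cg (φ fun i => vl Lw ev T.t y1 ((b i).subst σ)))) y1 := by
            rw [← h7]
            unfold vl
            rw [if_neg hl]
          rw [h8, hlow _ (hcgm _) (hLw.cg _), eval_cg]
    obtain ⟨P, hP, hne⟩ := hL fun x => val (.var x)
    have hPc : P.1 ∈ cores L := mem_cores.2 ⟨P, hP, core_self P.1⟩
    have hne' : val P.1 ≠ P.2 := by
      rw [hev P.1 hPc]
      exact hne
    have hnot : val P.1 = !P.2 := by
      cases h3 : val P.1 <;> cases h4 : P.2 <;> simp_all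
    have heq : (fun y => if y ∈ cls T I Z Cs y1 then f0 y else 0) =
        (f0 * ind T Lw ev p (P.1.subst σ) (!P.2)) *
        ((fun y' => if G.Agree U y1 y' then (1 : ZMod p) else 0) *
        (fun y' => if ∀ g ∈ Z, uy Lw ev T.t y' g = uy Lw ev T.t y1 g then (1 : ZMod p)
          else 0)) := by
      rw [hUdef, ← ind_cls T I y1]
      funext y
      rw [Pi.mul_apply, Pi.mul_apply]
      by_cases hy : y ∈ cls T I Z Cs y1
      · rw [if_pos hy, if_pos hy, mul_one]
        unfold ind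
        rw [vl_cls T I hCs hCΦ hy (hmem _ hPc), if_pos hnot, mul_one]
      · rw [if_neg hy, if_neg hy, mul_zero]
    rw [heq]
    refine mul_mem_Nul (ZMod p) h2 h0 (a := a + (w * (e * kk) + 2 * kk))
      (b := (3 * q + 2) * (2 * kk) + q * w * (e * kk)) n1 n3 n4 ?_ (h P hP)
      (Loc_mul (ZMod p) hcyl hcla)
    exact Loc_mul (ZMod p) hf0 (ind_mem_Loc T I h2 _ (hw P hP) (hdeg P hP) (hlowΦ P hP) _)
  · push Not at hext
    have hN := cyl_mem_Nul (M := M) (ZMod p) h2 h0 (M1 := M1) (by omega) U (by omega) y1 hext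
    have heq : (fun y => if y ∈ cls T I Z Cs y1 then f0 y else 0) =
        (fun y' => if G.Agree U y1 y' then (1 : ZMod p) else 0) *
        (f0 * (fun y' => if ∀ g ∈ Z, uy Lw ev T.t y' g = uy Lw ev T.t y1 g then (1 : ZMod p)
          else 0)) := by
      rw [mul_left_comm, hUdef, ← ind_cls T I y1]
      funext y
      rw [Pi.mul_apply]
      by_cases hy : y ∈ cls T I Z Cs y1
      · rw [if_pos hy, if_pos hy, mul_one]
      · rw [if_neg hy, if_neg hy, mul_zero]
    rw [heq]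
    refine mul_mem_Nul (ZMod p) h2 h0 (a := (3 * q + 2) * (2 * kk))
      (b := a + q * w * (e * kk)) n2 (by omega) n4 hcyl hN (Loc_mul (ZMod p) hf0 hcla)

end

end FrN
end

section

/-!
Few large gates (namespace `FrN`): there is no refutation whose purified formulas are decided by a
valuation.
-/

set_option linter.unusedSectionVars false

namespace FrN

open Finset FrC FrM
open Fr56 (Fm)
open scoped Classical

section
variable {V E : Type} [Fintype E] [DecidableEq V] {G : Gph V E} {Fr : Frame G} {v0 : V}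
  {X : Type} {Φ : Set (Fm (Gf X))} {cap : ℕ} {S : Valn Fr v0 (Gf X) Φ cap} {kk : ℕ}
  (T : Tr S kk) {Lw : Gf X → Prop} {ev : (E → ZMod 2) → X → Bool} (I : Ex S Lw ev kk)

include I in
/-- an axiom whose purified form is locally true -/
theorem ind_axiom (h0 : Fr.Free ∅ v0) {p : ℕ} [Fact p.Prime] (h2 : (2 : ZMod p) ≠ 0) (A : Gf X)
    (hbg : bg Lw A = ∅) (hP : ∀ y, pY Lw ev T.t y A ∈ Φ ∧ S.True' kk (pY Lw ev T.t y A))
    (hkk : 2 * kk ≤ cap) {M M1 : ℕ} (n1 : 2 * kk + M ≤ M1) (n2 : 2 * M1 ≤ Fr.m) :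
    ind T Lw ev p A false ∈ Nul Fr v0 (ZMod p) M M1 := by
  have hCs : ∀ P ∈ ({A} : Finset (Gf X)), bg Lw P ⊆ (∅ : Set (Gf X)) := by
    intro P hP
    rw [Finset.mem_singleton] at hP
    rw [hP, hbg]
  have hCΦ : ∀ P ∈ ({A} : Finset (Gf X)), Lw P → Fm.var P ∈ Φ := by
    intro P hP' hl
    rw [Finset.mem_singleton] at hP'
    subst hP'
    have h3 := (hP (fun _ => 0)).1
    rwa [pY_low _ hl] at h3
  refine mem_of_classes _ (cls T I ∅ {A}) (cls_self T I _ _)
    (fun y y' h => cls_cls T I hCs h) _ ?_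
  intro y1
  have hm := Finset.mem_singleton_self A
  have hcls : ∀ y, y ∈ cls T I ∅ {A} y1 ↔ G.Agree (kap T I {A} y1) y1 y := fun y =>
    ⟨fun h => h.1, fun h => ⟨h, fun g hg => absurd hg (Set.notMem_empty g)⟩⟩
  cases hb : vl Lw ev T.t y1 A with
  | true =>
    have heq : (fun y => if y ∈ cls T I ∅ {A} y1 then ind T Lw ev p A false y else 0) = 0 := by
      funext y
      by_cases hy : y ∈ cls T I ∅ {A} y1
      · rw [if_pos hy]
        unfold ind
        rw [vl_cls T I hCs hCΦ hy hm, hb, if_neg (by decide)]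
        rfl
      · rw [if_neg hy]
        rfl
    rw [heq]
    exact Submodule.zero_mem _
  | false =>
    have heq : (fun y => if y ∈ cls T I ∅ {A} y1 then ind T Lw ev p A false y else 0) =
        fun y => if G.Agree (kap T I {A} y1) y1 y then 1 else 0 := by
      funext y
      by_cases hy : y ∈ cls T I ∅ {A} y1
      · rw [if_pos hy, if_pos ((hcls y).1 hy)]
        unfold ind
        rw [vl_cls T I hCs hCΦ hy hm, hb, if_pos rfl]
      · rw [if_neg hy, if_neg (fun h => hy ((hcls y).2 h))]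
    rw [heq]
    have hcard := card_kap T I {A} y1
    rw [Finset.card_singleton, one_mul] at hcard
    refine cyl_mem_Nul (ZMod p) h2 h0 n2 _ (by omega) y1 fun y2 hag hok => ?_
    have hsub := us_sub_kap T I hm y1
    have hval : T.t (pY Lw ev T.t y1 A) y1 = false := by
      by_cases hl : Lw A
      · rw [pY_low _ hl] at hsub ⊢
        rw [t_low T I hl (hCΦ A hm hl) (hcard.trans hkk) hsub (w_sub_kap T I hm y1) hag hok]
        unfold vl at hb
        rwa [if_pos hl] at hb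
      · unfold vl at hb
        rwa [if_neg hl] at hb
    obtain ⟨h5, h6⟩ := T.cons (pY Lw ev T.t y1 A) y1 y2 (hag.mono hsub)
    have h7 := T.val _ (hP y1).1 y2 (hok.mono (by rw [h5]; exact hsub))
    rw [h6, hval] at h7
    exact (hP y1).2 _ y2 (T.card _ _) (hok.mono (by rw [h5]; exact hsub)) h7

/-- **there is no refutation whose purified formulas are decided by a valuation** -/
theorem no_refutation (S : Valn Fr v0 (Gf X) Φ cap) (hcap : cap ≤ Fr.m) (h0 : Fr.Free ∅ v0)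
    {kk k : ℕ} (hD : S.Dcds kk) {Lw : Gf X → Prop} (hLw : LowC Lw)
    {ev : (E → ZMod 2) → X → Bool} (I : Ex S Lw ev kk) {p : ℕ} [Fact p.Prime]
    (h2 : (2 : ZMod p) ≠ 0) (hc : ∀ b, Fm.var (cg b) ∈ Φ) {κ : ℝ} {n : ℕ}
    (hn : 1 ≤ n) (hκ : ∀ j : ℕ, (j : ℝ) ≤ κ → j ≤ n) (hk : 20 * n ^ 3 ≤ k) (hkk : k * kk ≤ cap)
    (hm : 9 * (k * kk) ≤ Fr.m) (b : Gf ℕ) (hb : b.Unsat) (hbκ : (b.conn : ℝ) ≤ κ)
    (τ : ℕ → X) (Ax : Set (Gf X)) (π : List (Gf X)) (hπ : Derives κ Ax π)
    (hAx : ∀ A ∈ Ax, A ∈ π → (Lw A ∧ ∀ x, A.eval x = true) ∨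
      (bg Lw A = ∅ ∧ ∀ u, S.True' kk (pur Lw u A)))
    (hbπ : b.ren τ ∈ π) (hw : ∀ A ∈ π, (bg Lw A).ncard ≤ n)
    (hdeg : ∀ A ∈ π, ∀ m φ b, Gf.gate m φ b ∈ bg Lw A → PolyDeg p φ (n : ℝ))
    (hΦ : ∀ A ∈ subSet π, ∀ u, pur Lw u A ∈ Φ) : False := by
  have hn3 : n ≤ n ^ 3 := Nat.le_self_pow (by norm_num) n
  have hn2 : n ^ 2 ≤ n ^ 3 := Nat.pow_le_pow_right (by omega) (by norm_num)
  have hn1 : 1 ≤ n ^ 3 := Nat.one_le_pow _ _ hn
  have h20 : 20 * n ^ 3 * kk ≤ k * kk := Nat.mul_le_mul_right kk hk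
  have hkk1 : 2 * kk ≤ cap := by
    refine le_trans ?_ hkk
    exact Nat.mul_le_mul_right kk (by omega)
  obtain ⟨T⟩ := exists_tree S hD (by omega) h0
  -- the parameters
  obtain ⟨a, ha⟩ : ∃ a, a = n * (n * kk) + 2 * kk := ⟨_, rfl⟩
  obtain ⟨M, hM⟩ : ∃ M, M = (2 * n ^ 2 + 6 * n + 14) * kk := ⟨_, rfl⟩
  obtain ⟨M1, hM1⟩ : ∃ M1, M1 = (n ^ 3 + 5 * n ^ 2 + 12 * n + 28) * kk := ⟨_, rfl⟩
  have n1 : a + (n * (n * kk) + 2 * kk) ≤ M := by
    rw [ha, hM]
    have : n * (n * kk) + 2 * kk + (n * (n * kk) + 2 * kk) = (2 * n ^ 2 + 4) * kk := by ring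
    rw [this]
    exact Nat.mul_le_mul_right _ (by omega)
  have n2 : (3 * (n + 1) + 2) * (2 * kk) ≤ M := by
    rw [hM]
    have : (3 * (n + 1) + 2) * (2 * kk) = (6 * n + 10) * kk := by ring
    rw [this]
    exact Nat.mul_le_mul_right _ (by omega)
  have n3 : M + (a + (n * (n * kk) + 2 * kk)) +
      ((3 * (n + 1) + 2) * (2 * kk) + (n + 1) * n * (n * kk)) ≤ M1 := by
    rw [ha, hM, hM1]
    refine le_of_eq ?_
    ring
  have n4 : 3 * M1 ≤ Fr.m := by
    refine le_trans ?_ hm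
    rw [hM1]
    calc 3 * ((n ^ 3 + 5 * n ^ 2 + 12 * n + 28) * kk)
        ≤ 3 * ((n ^ 3 + 5 * n ^ 3 + 12 * n ^ 3 + 28 * n ^ 3) * kk) := by
          gcongr
          omega
      _ = 138 * (n ^ 3 * kk) := by ring
      _ ≤ 180 * (n ^ 3 * kk) := Nat.mul_le_mul_right _ (by norm_num)
      _ = 9 * (20 * n ^ 3 * kk) := by ring
      _ ≤ 9 * (k * kk) := Nat.mul_le_mul_left _ h20
  have n5 : (3 * (n + 1) + 2) * (2 * kk) ≤ cap := by
    refine le_trans ?_ (h20.trans hkk)
    have : (3 * (n + 1) + 2) * (2 * kk) = (6 * n + 10) * kk := by ring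
    rw [this]
    exact Nat.mul_le_mul_right _ (by omega)
  have hlow : ∀ A ∈ subSet π, Lw A → Fm.var A ∈ Φ := by
    intro A hA hl
    have h3 := hΦ A hA (fun _ => false)
    rwa [pur_low _ hl] at h3
  have hloc : ∀ A ∈ π, ∀ c, ind T Lw ev p A c ∈ Loc (ZMod p) G a := by
    intro A hA c
    rw [ha]
    exact ind_mem_Loc T I h2 A (hw A hA) (hdeg A hA) (fun B hB => hlow B ⟨A, hA, hB⟩) c
  have key : ∀ i (hi : i < π.length), ind T Lw ev p π[i] false ∈ Nul Fr v0 (ZMod p) M M1 := by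
    intro i
    induction i using Nat.strong_induction_on with
    | _ i ih =>
      intro hi
      have hmem := List.getElem_mem hi
      rcases hπ i hi with h | ⟨r, hr, hsz, σ, hσ, hhyps⟩
      · rcases hAx _ h hmem with ⟨hl, ht⟩ | ⟨hbg, hT⟩
        · have heq : ind T Lw ev p π[i] false = 0 := by
            funext y
            unfold ind vl
            rw [if_pos hl, ht]
            simp
          rw [heq]
          exact Submodule.zero_mem _
        · refine ind_axiom T I h0 h2 _ hbg (fun y => ?_) hkk1 (by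
            refine le_trans ?_ n3
            have h3 : (3 * (n + 1) + 2) * (2 * kk) = (6 * n + 10) * kk := by ring
            have : 2 * kk ≤ (3 * (n + 1) + 2) * (2 * kk) :=
              Nat.le_mul_of_pos_left (2 * kk) (by omega)
            omega) (by omega)
          rw [pY_eq]
          exact ⟨hΦ _ ⟨_, hmem, Gf.self_mem_subs _⟩ _, hT _⟩
      · have hline : ∀ P ∈ (r.concl, false) :: r.hyps.map (fun A => (A, true)),
            P.1.subst σ ∈ π := by
          intro P hP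
          rcases List.mem_cons.1 hP with rfl | hP
          · rw [← hσ]
            exact hmem
          · obtain ⟨A, hA, rfl⟩ := List.mem_map.1 hP
            obtain ⟨j, hj, hjA⟩ := hhyps A hA
            rw [← hjA]
            exact List.getElem_mem (hj.trans hi)
        refine sound_lemma T I hcap h0 h2 hLw hc
          ((r.concl, false) :: r.hyps.map fun A => (A, true)) ?_ σ ?_ (q := n + 1) (w := n)
          (e := n) (a := a) ?_ (fun P hP => hw _ (hline P hP)) (fun P hP => hdeg _ (hline P hP))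
          n1 n2 n3 n4 n5 (hloc _ hmem false) ?_
        · intro x
          by_cases hx : ∀ A ∈ r.hyps, A.eval x = true
          · refine ⟨(r.concl, false), by simp, ?_⟩
            rw [hr x hx]
            simp
          · push Not at hx
            obtain ⟨A, hA, hAx⟩ := hx
            exact ⟨(A, true), List.mem_cons_of_mem _ (List.mem_map.2 ⟨A, hA, rfl⟩), hAx⟩
        · intro P hP B hB u
          exact hΦ B ⟨_, hline P hP, hB⟩ u
        · have h3 : ((r.concl, false) :: r.hyps.map fun A => (A, true)).map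
              (fun P : Gf ℕ × Bool => P.1.conn + 1) =
              (r.concl.conn + 1) :: r.hyps.map fun A => A.conn + 1 := by
            simp
          rw [h3, List.sum_cons]
          have h4 := hκ _ hsz
          unfold Inf.size at h4
          omega
        · intro P hP
          rcases List.mem_cons.1 hP with rfl | hP
          · -- the conclusion: both values cannot occur
            have heq : ind T Lw ev p π[i] false *
                ind T Lw ev p (r.concl.subst σ) (!false) = 0 := by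
              rw [← hσ]
              funext y
              rw [Pi.mul_apply, Pi.zero_apply]
              unfold ind
              cases vl Lw ev T.t y π[i] <;> simp
            rw [heq]
            exact Submodule.zero_mem _
          · obtain ⟨A, hA, rfl⟩ := List.mem_map.1 hP
            obtain ⟨j, hj, hjA⟩ := hhyps A hA
            have h3 := ih j hj (hj.trans hi)
            rw [hjA] at h3
            have hA' : A.subst σ ∈ π := hline (A, true)
              (List.mem_cons_of_mem _ (List.mem_map.2 ⟨A, hA, rfl⟩))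
            rw [mul_comm]
            refine mul_mem_Nul (ZMod p) h2 h0 (a := a) (b := a) ?_ ?_ n4 (hloc _ hA' _) h3
              (hloc _ hmem _)
            · omega
            · omega
  obtain ⟨i, hi, hib⟩ := List.getElem_of_mem hbπ
  have h1 := key i hi
  rw [hib, subst_var_eq_ren] at h1
  have hbπ' : b.subst (fun v => .var (τ v)) ∈ π := hbπ
  refine one_not_mem_Nul (M := M) (ZMod p) h2 h0 (M1 := M1) (by omega) ?_
  refine sound_lemma T I hcap h0 h2 hLw hc [(b, true)] ?_ (fun v => .var (τ v)) ?_ (q := n + 1)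
    (w := n) (e := n) (a := a) ?_ ?_ ?_ n1 n2 n3 n4 n5 (one_mem_Loc (ZMod p) a) ?_
  · intro x
    exact ⟨(b, true), by simp, by rw [hb x]; simp⟩
  · intro P hP B hB u
    rw [List.mem_singleton] at hP
    subst hP
    exact hΦ B ⟨_, hbπ', hB⟩ u
  · simp only [List.map_cons, List.map_nil, List.sum_cons, List.sum_nil]
    have := hκ _ hbκ
    omega
  · intro P hP
    rw [List.mem_singleton] at hP
    subst hP
    exact hw _ hbπ'
  · intro P hP
    rw [List.mem_singleton] at hP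
    subst hP
    exact hdeg _ hbπ'
  · intro P hP
    rw [List.mem_singleton] at hP
    subst hP
    rw [one_mul]
    exact h1

end

end FrN
end
end

section

section

/-!
Few large gates (namespace `FrN`): the switching step together with the map of assignments;
local functions are transported along this map.
-/

set_option linter.unusedSectionVars false

namespace FrN

open Finset Fr56 FrC
open scoped Classical

section
variable {V E : Type} [Fintype E] [DecidableEq V] {G : Gph V E} {Fr : Frame G} {v0 : V}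
  {X : Type} {Φ : Set (Fm X)} {cap : ℕ}

/-- the local value of `f` is the value of the function `ψ f`, which depends on the edges at few
vertices -/
def Jn (S : Valn Fr v0 X Φ cap) (base : Set (Fm X)) (ψ : Fm X → (E → ZMod 2) → Bool) (K : ℕ) :
    Prop :=
  ∀ f ∈ base, ∃ W : Finset V, W.card ≤ K ∧ (∀ y y', G.Agree W y y' → ψ f y = ψ f y') ∧
    ∀ b U y, W ⊆ U → U.card ≤ cap → Fr.Ok v0 U y → S.Q f b U y → b = ψ f y

end

section
variable {V E : Type} [Fintype V] [Fintype E] [DecidableEq V] [DecidableEq E]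
  {G : Gph V E} {Fr : Frame G} {v0 : V} {Q D : ℕ} {hQ : 0 < Q} {hD : 0 < D} {w0 : A D}
  {X : Type} {Φ' : Set (Fm X)} {cap' : ℕ}
  (S' : Valn (Fr.blow Q D hQ hD) (HV.cen (v0, 0) w0) X Φ' cap')
  {α : Xt (TE V E Q) D → ZMod 2} {a : TV V Q → A D}

theorem tch_union {W1 W2 : Finset (HV (TV V Q) (TE V E Q) D)} {e : TE V E Q}
    (h : Tch (G.tall Q) a (W1 ∪ W2) e) : Tch (G.tall Q) a W1 e ∨ Tch (G.tall Q) a W2 e := by
  obtain ⟨x, hx, hl, hi⟩ := h
  rcases hi with hi | hi
  · rcases Finset.mem_union.1 hi with hi | hi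
    · exact Or.inl ⟨x, hx, hl, Or.inl hi⟩
    · exact Or.inr ⟨x, hx, hl, Or.inl hi⟩
  · rcases Finset.mem_union.1 hi with hi | hi
    · exact Or.inl ⟨x, hx, hl, Or.inr hi⟩
    · exact Or.inr ⟨x, hx, hl, Or.inr hi⟩

/-- **logic of the switching step**, with the map of assignments -/
theorem switch_logic {Φ : Set (Fm X)} (hΦ : NewCls Φ' Φ) {Δ k R K cap : ℕ} (hdeg : G.Deg Δ)
    (hk : 3 * k ≤ cap') (hR : 0 < R) (hm : 2 * (1 + Δ) * (R + (Δ + 2) * k) ≤ Fr.m)
    (hα : ((G.tall Q).blow D).bd α = pt (HV.cen (v0, 0) w0) + pt (ctr a (v0, 0)))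
    (hno : ∀ f ∈ Φ, f ∉ Φ' → NoLong Fr v0 α a (certs S' k (lst Φ' f)) R (R + (Δ + 2) * k))
    (hD' : S'.Dcds k) (hK1 : 2 * (1 + Δ) * R ≤ K) (hK2 : 2 * (Δ + 2) * k ≤ K)
    (hcap : cap + (2 * Δ + 10) * k ≤ Fr.m) :
    ∃ S : Valn Fr v0 X Φ cap, S.Dcds K ∧
      (∀ f ∈ Φ', ∀ w, w + 2 * k ≤ Fr.m → S'.True' k f → S.True' w f) ∧
      ∀ (base : Set (Fm X)) (ψ : Fm X → (Xt (TE V E Q) D → ZMod 2) → Bool), base ⊆ Φ' →
        Jn S' base ψ k → Jn S base (fun f y => ψ f (α + Pth (G.tall Q) a (iota y))) K := by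
  let S : Valn Fr v0 X Φ cap :=
    { Q := nQ S' α a k
      mono := fun f _ b U U' y y' hU _ h hy _ => nQ_mono S' f b U U' y y' hU h hy
      uniq := fun f _ U y hU hok h h' => nQ_uniq S' hα hdeg hk f U y (by omega) hok h h'
      neg := fun f _ hf' b b' U y hU hok h h' =>
        nQ_neg S' hα hΦ hdeg hk f hf' b b' U y (by omega) hok h h'
      and := fun f g _ _ hfg b b' b'' U y hU hok h h' h'' =>
        nQ_and S' hα hΦ hdeg hk f g hfg b b' b'' U y (by omega) hok h h' h''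
      or := fun f g _ _ hfg b b' b'' U y hU hok h h' h'' =>
        nQ_or S' hα hΦ hdeg hk f g hfg b b' b'' U y (by omega) hok h h' h'' }
  refine ⟨S, ?_, ?_, ?_⟩
  · intro f hf y hok
    by_cases hf' : f ∈ Φ'
    · refine Dec.mono (dec_old S' hα hdeg f hf' (fun x hx => hD' f hf' x hx) ?_ y hok) hK2
      have : (2 * Δ + 10) * k = 2 * (Δ + 2) * k + 6 * k := by ring
      omega
    · have h1 := dec_of_noLong Fr v0 α a hdeg (certs_card S' k (lst Φ' f)) (hno f hf hf') hR
        hm (sgn f) y hok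
      refine Dec.mono ?_ hK1
      have e : (S.Q f) = fun b U y => if b = sgn f then QC (G := G) α a (certs S' k (lst Φ' f)) U y
          else QN Fr v0 α a (certs S' k (lst Φ' f)) U y := by
        funext b U y
        show nQ S' α a k f b U y = _
        unfold nQ
        rw [if_neg hf']
      rw [e]
      exact h1
  · intro f hf w hw hT U y hU hok h
    have h' : nQ S' α a k f false U y := h
    unfold nQ at h'
    rw [if_pos hf] at h'
    obtain ⟨W, hW, hokW, hQW, _⟩ := old_down S' hα (by omega) hf (by omega) hok h'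
    exact hT W _ hW hokW hQW
  · intro base ψ hb hJ f hf
    obtain ⟨W', hW', hdep, hval⟩ := hJ f hf
    have h10 : (2 * Δ + 10) * k = 2 * Δ * k + 10 * k := by ring
    have hcW : ∀ e : E, Tch (G.tall Q) a W' (Sum.inl (e, 0)) →
        e ∈ G.inc (plc G Q (cov (G.tall Q) a W')) := by
      intro e he
      have h2 : (Sum.inl (e, 0) : TE V E Q) ∈ cov (G.tall Q) a W' := by
        unfold cov
        rw [Finset.mem_filter]
        exact ⟨Finset.mem_univ _, he⟩
      exact (inl_mem_incT G).1 (mem_incT_plc G h2)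
    refine ⟨plc G Q (cov (G.tall Q) a W'), ?_, ?_, ?_⟩
    · refine (card_plc G _).trans ?_
      refine le_trans ?_ hK2
      rw [mul_assoc]
      refine Nat.mul_le_mul_left 2 ?_
      exact (card_cov (G.tall Q) (by omega) (deg_tall G hdeg) a W').trans
        (Nat.mul_le_mul_left _ hW')
    · intro y y' hy
      exact hdep _ _ (x_agree α a hcW hy)
    · intro b U y hWU hUc hok h
      have h' : nQ S' α a k f b U y := h
      unfold nQ at h'
      rw [if_pos (hb hf)] at h'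
      obtain ⟨W2, hW2, ok2, q2, c2⟩ := old_down S' hα (by omega) (hb hf) (by omega) hok h'
      have hcov : ∀ e : E, Tch (G.tall Q) a (W2 ∪ W') (Sum.inl (e, 0)) → e ∈ G.inc U := by
        intro e he
        rcases tch_union he with h | h
        · exact c2 e h
        · exact G.inc_mono hWU (hcW e h)
      have hcard : (W2 ∪ W').card ≤ 2 * k := (Finset.card_union_le _ _).trans (by omega)
      have ok3 : (Fr.blow Q D hQ hD).Ok (HV.cen (v0, 0) w0) (W2 ∪ W')
          (α + Pth (G.tall Q) a (iota y)) := ok_up Fr v0 α a hQ hD hα hcov (by omega) hok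
      have q3 := S'.mono f (hb hf) b W2 _ _ _ Finset.subset_union_left (by omega) q2
        (fun _ _ => rfl) ok3
      exact hval b _ _ Finset.subset_union_right (by omega) ok3 q3

end

end FrN
end

section

/-!
Few large gates (namespace `FrN`): iterating the switching step; this version of `FrG.Kills`
delivers the final valuation and the map of assignments.
-/

set_option linter.unusedSectionVars false

namespace FrN

open Finset FrC FrG
open Fr56 (Fm)
open scoped Classical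

/-- A valuation on `Fr` that decides all formulas of rank at most `i0` of a family of at most `2^k`
formulas by revealing `kk` vertices can be turned into a valuation that decides all formulas of
rank at most `i0 + j`. -/
def Red {V E : Type} [Fintype E] [DecidableEq V] {G : Gph V E} (Fr : Frame G) (v0 : V)
    (j kk k C : ℕ) : Prop :=
  ∀ (X : Type) (B : Fm X → Prop) (Fs : Finset (Fm X)) (i0 cap : ℕ)
    (S : Valn Fr v0 X {f | f ∈ Fs ∧ lev B f ≤ i0} cap),
    Bas B → (∀ f ∈ Fs, ∀ g ∈ f.subs, g ∈ Fs) → Fs.card ≤ 2 ^ k → k * kk ≤ cap → cap ≤ Fr.m →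
    S.Dcds kk →
    ∃ (V' E' : Type) (_ : Fintype V') (_ : Fintype E') (_ : DecidableEq V') (_ : DecidableEq E')
      (G' : Gph V' E') (Fr' : Frame G') (v0' : V') (kk' cap' : ℕ)
      (S' : Valn Fr' v0' X {f | f ∈ Fs ∧ lev B f ≤ i0 + j} cap'),
      Fr'.Free ∅ v0' ∧ k * kk' ≤ cap' ∧ cap' ≤ Fr'.m ∧ C * (k * kk') ≤ Fr'.m ∧ S'.Dcds kk' ∧
      (∀ F ∈ Fs, lev B F ≤ i0 + j → FrG.AndOf (fun f => lev B f ≤ i0 ∧ S.True' kk f) F →
        S'.True' kk' F) ∧
      ∃ L : (E' → ZMod 2) → (E → ZMod 2), ∀ (base : Set (Fm X))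
        (ψ : Fm X → (E → ZMod 2) → Bool), base ⊆ {f | f ∈ Fs ∧ lev B f ≤ i0} →
        Jn S base ψ kk → Jn S' base (fun f y => ψ f (L y)) kk'

theorem red_zero {V E : Type} [Fintype V] [Fintype E] [DecidableEq V] [DecidableEq E]
    {G : Gph V E} (Fr : Frame G) (v0 : V) (h0 : Fr.Free ∅ v0) (kk k C : ℕ) (hk : 4 ≤ k)
    (hC : C * (k * kk) ≤ Fr.m) : Red Fr v0 0 kk k C := by
  intro X B Fs i0 cap S hB hcl _ hkk hcapm hD
  have hC4 : 4 * kk ≤ cap := (Nat.mul_le_mul_right kk hk).trans hkk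
  refine ⟨V, E, inferInstance, inferInstance, inferInstance, inferInstance, G, Fr, v0, kk, cap, S,
    h0, hkk, hcapm, hC, hD, ?_, fun y => y, fun _ _ _ h => h⟩
  intro F hFs hlev hF
  rw [Nat.add_zero] at hlev
  induction hF with
  | base f h => exact h.2
  | and f g _ _ ihf ihg =>
    have m1 : f ∈ (Fm.and f g).subs := by
      simp only [Fm.subs, List.mem_cons, List.mem_append]
      exact Or.inr (Or.inl (Fm.self_mem_subs _))
    have m2 : g ∈ (Fm.and f g).subs := by
      simp only [Fm.subs, List.mem_cons, List.mem_append]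
      exact Or.inr (Or.inr (Fm.self_mem_subs _))
    have l1 := (lev_subs hB _ _ m1).trans hlev
    have l2 := (lev_subs hB _ _ m2).trans hlev
    exact S.and_true hcapm h0 kk hD hC4 f g ⟨hcl _ hFs _ m1, l1⟩ ⟨hcl _ hFs _ m2, l2⟩ ⟨hFs, hlev⟩
      (ihf (hcl _ hFs _ m1) l1) (ihg (hcl _ hFs _ m2) l2)

section
variable {V E : Type} [Fintype V] [Fintype E] [DecidableEq V] [DecidableEq E]
  {G : Gph V E} (Fr : Frame G) (v0 : V)

/-- **the switching step** -/
theorem red_succ {j kk kk' k C Q D Δ R : ℕ} (hkill : Red Fr v0 j kk k C) (hl : G.NoLoop)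
    (hdeg : G.Deg Δ) (hQ0 : 0 < Q) (hD : 0 < D) (w0 : A D) (hk : 3 ≤ k) (hR : 0 < R)
    (θ : ℝ) (hθ0 : 0 ≤ θ) (hθ1 : θ ≤ 1) (hθ : (kk' : ℝ) ≤ θ ^ (2 * (Δ + 2)) * 2 ^ D)
    (hQ : (Δ + 2) * kk' ≤ Q)
    (hm : 2 * (1 + Δ) * ((R + (Δ + 2) * kk') + (R + (Δ + 2) * kk') * kk') ≤ Fr.m)
    (hX : (Fintype.card (TE V E Q) : ℝ) * ((Fintype.card (FI E Q) : ℝ) + 1) *
      (2 * (2 ^ (2 * Δ * (1 + Δ)) * θ)) ≤ 1 / 3)
    (hcard : 2 ^ k * (2 * Fintype.card V) < 2 ^ R) (hK1 : 2 * (1 + Δ) * R ≤ kk)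
    (hK2 : 2 * (Δ + 2) * kk' ≤ kk) (hcap : k * kk + (2 * Δ + 10) * kk' ≤ Fr.m) :
    Red (Fr.blow Q D hQ0 hD) (HV.cen (v0, 0) w0) (j + 1) kk' k C := by
  intro X B Fs i0 cap' S' hB hcl hFc hkk hcapm hD'
  have h3 : 3 * kk' ≤ cap' := (Nat.mul_le_mul_right kk' hk).trans hkk
  set 𝒮 : Finset (Set (Cert V E Q D)) :=
    Fs.image (fun f => certs S' kk' (lst {f | f ∈ Fs ∧ lev B f ≤ i0} f)) with h𝒮def
  have h𝒮 : ∀ 𝒞 ∈ 𝒮, ∀ C ∈ 𝒞, C.1.card ≤ kk' := by
    intro 𝒞 h𝒞 C hC
    rw [h𝒮def, Finset.mem_image] at h𝒞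
    obtain ⟨f, _, rfl⟩ := h𝒞
    exact certs_card S' kk' _ C hC
  have hc1 : 𝒮.card * (2 * Fintype.card V) < 2 ^ R := by
    refine lt_of_le_of_lt (Nat.mul_le_mul_right _ ?_) hcard
    exact Finset.card_image_le.trans hFc
  obtain ⟨α, a, hα, hno⟩ := exists_noLong Fr v0 hl hD hQ0 hdeg kk' R (R + (Δ + 2) * kk') θ hθ0 hθ1
    hθ w0 𝒮 h𝒮 hQ hm hX hc1
  obtain ⟨S, hSD, hST, hSJ⟩ := switch_logic S' (newCls hB Fs hcl i0) hdeg h3 hR
    (le_trans (Nat.mul_le_mul_left _ (Nat.le_add_right _ _)) hm) hα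
    (fun f hf _ => hno _ (by rw [h𝒮def]; exact Finset.mem_image_of_mem _ hf.1)) hD' hK1 hK2 hcap
  have hkk1 : kk ≤ k * kk := Nat.le_mul_of_pos_left kk (by omega)
  have hkk2 : 2 * kk' ≤ (2 * Δ + 10) * kk' := Nat.mul_le_mul_right kk' (by omega)
  have hh := hkill X B Fs (i0 + 1) (k * kk) S hB hcl hFc le_rfl (by omega) hSD
  rw [show i0 + 1 + j = i0 + (j + 1) by omega] at hh
  obtain ⟨V', E', iV, iE, dV, dE, G', Fr', v0', kk2, cap2, S2, h0, h1, h2, h4, h5, h6, L, h9⟩ := hh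
  refine ⟨V', E', iV, iE, dV, dE, G', Fr', v0', kk2, cap2, S2, h0, h1, h2, h4, h5, ?_,
    fun y => α + Pth (G.tall Q) a (iota (L y)), ?_⟩
  · intro F hFs hlev hF
    refine h6 F hFs hlev (hF.mono fun f hf h => ?_)
    obtain ⟨h7, h8⟩ := h
    exact ⟨by omega, hST f ⟨hcl F hFs f hf, h7⟩ kk (by omega) h8⟩
  · intro base ψ hb hJ
    exact h9 base _ (fun f hf => ⟨(hb hf).1, Nat.le_succ_of_le (hb hf).2⟩) (hSJ base ψ hb hJ)

end

end FrN
end

section

/-!
Few large gates (namespace `FrN`): graphs for the iterated switching step (a version of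
`FrG.towers`).
-/

set_option linter.unusedSectionVars false

namespace FrN

open Finset Fr56 FrC FrG
open scoped Classical

/-- **graphs for the iterated switching step** -/
theorem towers (C j : ℕ) : ∀ A B : ℕ, ∃ a k0 : ℕ, ∀ k ≥ k0, ∃ (V E : Type) (_ : Fintype V)
    (_ : Fintype E) (_ : DecidableEq V) (_ : DecidableEq E) (G : Gph V E) (Fr : Frame G) (v0 : V),
    G.NoLoop ∧ G.Deg (dg j) ∧ Fr.Free ∅ v0 ∧ Fintype.card V ≤ (k + 2) ^ a ∧
    Fintype.card E ≤ (k + 2) ^ a ∧ B * k ^ 2 ≤ Fr.m ∧ Red Fr v0 j (A * k) k C := by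
  induction j with
  | zero =>
    intro A B
    obtain ⟨B', hB'⟩ : ∃ B', B' = B + C * A := ⟨_, rfl⟩
    refine ⟨(B' + 2 + 1 + 1) + (B' + 2 + 1 + 1) + 1, 4, fun k hk => ?_⟩
    have hx : 2 ≤ k + 2 := by omega
    have e1 : 2 ≤ (k + 2) ^ 1 := by rw [pow_one]; exact hx
    have e2 : k ^ 2 ≤ (k + 2) ^ 2 := Nat.pow_le_pow_left (by omega) 2
    have e3 : B' * k ^ 2 ≤ (k + 2) ^ (B' + 2) := tw_mul (tw_const B' _ hx) e2
    have hM := tw_add hx e3 e1
    obtain ⟨M, hMd⟩ : ∃ M, M = B' * k ^ 2 + 2 := ⟨_, rfl⟩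
    rw [← hMd] at hM
    have : NeZero M := ⟨by omega⟩
    have hfree : tFree (∅ : Finset (JJ M)) ((0, 0) : JJ M) := Or.inl (by simp)
    refine ⟨JJ M, JJ M × Bool, inferInstance, inferInstance, inferInstance, inferInstance,
      torus M, torusFrame M, (0, 0), noLoop_torus (by omega), deg_torus, hfree, ?_, ?_, ?_,
      red_zero _ _ hfree _ _ _ hk ?_⟩
    · rw [show Fintype.card (JJ M) = M * M by simp [JJ]]
      exact tw_mono hx (tw_mul hM hM) (by omega)
    · rw [show Fintype.card (JJ M × Bool) = M * M * 2 by simp [JJ]]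
      exact tw_mono hx (tw_mul (tw_mul hM hM) e1) (by omega)
    · show B * k ^ 2 ≤ M - 1
      have h1 : B * k ^ 2 ≤ B' * k ^ 2 := Nat.mul_le_mul_right _ (by omega)
      omega
    · show C * (k * (A * k)) ≤ M - 1
      have h1 : C * (k * (A * k)) ≤ B' * k ^ 2 := by
        calc C * (k * (A * k)) = C * A * k ^ 2 := by ring
          _ ≤ B' * k ^ 2 := Nat.mul_le_mul_right _ (by omega)
      omega
  | succ j ih =>
    intro A B
    set Δ := dg j with hΔ
    obtain ⟨a1, k01, h1⟩ := ih (6 * (1 + Δ) + 2 * (Δ + 2) * A)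
      (2 * B + 2 * (1 + Δ) * ((3 + (Δ + 2) * A) * (1 + A)) +
        (6 * (1 + Δ) + 2 * (Δ + 2) * A) + (2 * Δ + 10) * A)
    obtain ⟨a, n, hstep⟩ := tw_step a1 A Δ
    obtain ⟨K, hK⟩ := tw_exp a1
    refine ⟨a, k01 + K + 3, fun k hk => ?_⟩
    obtain ⟨V, E, iV, iE, dV, dE, G, Fr, v0, hnl, hdeg, hfree, hcV, hcE, hm, hkill⟩ :=
      h1 k (by omega)
    obtain ⟨Q, hQ⟩ : ∃ Q, Q = (Δ + 2) * A * k + 1 := ⟨_, rfl⟩
    obtain ⟨Z, hZ⟩ : ∃ Z, Z = 6 * Fintype.card (TE V E Q) * (Fintype.card (FI E Q) + 1) *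
      2 ^ (2 * Δ * (1 + Δ)) + 1 := ⟨_, rfl⟩
    obtain ⟨D, hD⟩ : ∃ D, D = (n + 1) * (Nat.log 2 (k + 2) + 1) := ⟨_, rfl⟩
    obtain ⟨hD0, hN, hcV', hcE'⟩ := hstep k _ _ Q _ _ Z D hcV hcE hQ (card_TE' Q) (card_FI' Q) hZ hD
    have hQ0 : 0 < Q := by omega
    refine ⟨HV (TV V Q) (TE V E Q) D, Xt (TE V E Q) D, inferInstance, inferInstance,
      inferInstance, inferInstance, (G.tall Q).blow D, Fr.blow Q D hQ0 hD0, HV.cen (v0, 0) 0,
      noLoop_blow _ hD0 (noLoop_tall G hnl), ?_, ?_, ?_, ?_, ?_, ?_⟩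
    · exact deg_blow (G.tall Q) (noLoop_tall G hnl) (by omega) (deg_tall G hdeg)
    · exact bFree_cen Fr Q D 0 (by simpa [Unc] using hfree)
    · rw [card_HV, card_TV]; exact hcV'
    · rw [card_Xt]; exact hcE'
    · have h2 : B * k ^ 2 * 2 ≤ Fr.m := by
        refine le_trans ?_ hm
        have : B * k ^ 2 * 2 = 2 * B * k ^ 2 := by ring
        rw [this]
        exact Nat.mul_le_mul_right _ (by omega)
      show B * k ^ 2 ≤ Fr.m / 2
      omega
    · have hk3 : 3 ≤ k := by omega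
      have hk1 : 1 ≤ k := by omega
      have hkk : k ≤ k ^ 2 := by nlinarith
      have hZ1 : (1 : ℝ) ≤ Z := by
        have : 1 ≤ Z := by omega
        exact_mod_cast this
      have hZ0 : (0 : ℝ) < Z := by linarith
      refine red_succ Fr v0 (R := 3 * k) hkill hnl hdeg hQ0 hD0 0 hk3 (by omega) (1 / (Z : ℝ))
        (by positivity) ?_ ?_ ?_ ?_ ?_ ?_ ?_ ?_ ?_
      · rw [div_le_one hZ0]; exact hZ1
      · have h3 : ((A * k : ℕ) : ℝ) * (Z : ℝ) ^ (2 * (Δ + 2)) ≤ 2 ^ D := by exact_mod_cast hN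
        rw [one_div, inv_pow, inv_mul_eq_div, le_div_iff₀ (by positivity)]
        exact h3
      · rw [hQ]; rw [← mul_assoc]; omega
      · refine le_trans ?_ hm
        calc 2 * (1 + Δ) * (3 * k + (Δ + 2) * (A * k) + (3 * k + (Δ + 2) * (A * k)) * (A * k))
            = 2 * (1 + Δ) * ((3 + (Δ + 2) * A) * (k + A * k ^ 2)) := by ring
          _ ≤ 2 * (1 + Δ) * ((3 + (Δ + 2) * A) * (k ^ 2 + A * k ^ 2)) := by gcongr
          _ = 2 * (1 + Δ) * ((3 + (Δ + 2) * A) * (1 + A)) * k ^ 2 := by ring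
          _ ≤ _ := Nat.mul_le_mul_right _ (by omega)
      · have hE : (6 : ℝ) * Fintype.card (TE V E Q) * (Fintype.card (FI E Q) + 1) *
            2 ^ (2 * Δ * (1 + Δ)) ≤ Z := by
          have : 6 * Fintype.card (TE V E Q) * (Fintype.card (FI E Q) + 1) *
            2 ^ (2 * Δ * (1 + Δ)) ≤ Z := by omega
          exact_mod_cast this
        calc (Fintype.card (TE V E Q) : ℝ) * ((Fintype.card (FI E Q) : ℝ) + 1) *
              (2 * (2 ^ (2 * Δ * (1 + Δ)) * (1 / (Z : ℝ))))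
            = (6 * Fintype.card (TE V E Q) * (Fintype.card (FI E Q) + 1) *
              2 ^ (2 * Δ * (1 + Δ))) / Z * (1 / 3) := by ring
          _ ≤ 1 * (1 / 3) := by
              gcongr
              rw [div_le_one hZ0]; exact hE
          _ = 1 / 3 := by ring
      · have h4 := hK k (by omega)
        have h5 : 2 * Fintype.card V < 2 ^ (2 * k) := by omega
        calc 2 ^ k * (2 * Fintype.card V) < 2 ^ k * 2 ^ (2 * k) :=
              (Nat.mul_lt_mul_left (by positivity)).2 h5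
          _ = 2 ^ (3 * k) := by rw [← pow_add]; congr 1; ring
      · calc 2 * (1 + Δ) * (3 * k) = 6 * (1 + Δ) * k := by ring
          _ ≤ _ := Nat.mul_le_mul_right _ (by omega)
      · calc 2 * (Δ + 2) * (A * k) = 2 * (Δ + 2) * A * k := by ring
          _ ≤ _ := Nat.mul_le_mul_right _ (by omega)
      · refine le_trans ?_ hm
        calc k * ((6 * (1 + Δ) + 2 * (Δ + 2) * A) * k) + (2 * Δ + 10) * (A * k)
            = (6 * (1 + Δ) + 2 * (Δ + 2) * A) * k ^ 2 + (2 * Δ + 10) * A * k := by ring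
          _ ≤ (6 * (1 + Δ) + 2 * (Δ + 2) * A) * k ^ 2 + (2 * Δ + 10) * A * k ^ 2 := by gcongr
          _ = ((6 * (1 + Δ) + 2 * (Δ + 2) * A) + (2 * Δ + 10) * A) * k ^ 2 := by ring
          _ ≤ _ := Nat.mul_le_mul_right _ (by omega)

end FrN
end

section

/-!
Few modular gates (namespace `FrM`): iterating the switching step; this version of `FrG.Kills`
delivers the final valuation.
-/

set_option linter.unusedSectionVars false

namespace FrM

open Finset FrC FrG
open Fr56 (Fm)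
open scoped Classical

/-- A valuation on `Fr` that decides all formulas of rank at most `i0` of a family of at most `2^k`
formulas by revealing `kk` vertices can be turned into a valuation that decides all formulas of
rank at most `i0 + j`. -/
def Red {V E : Type} [Fintype E] [DecidableEq V] {G : Gph V E} (Fr : Frame G) (v0 : V)
    (j kk k C : ℕ) : Prop :=
  ∀ (X : Type) (B : Fm X → Prop) (Fs : Finset (Fm X)) (i0 cap : ℕ)
    (S : Valn Fr v0 X {f | f ∈ Fs ∧ lev B f ≤ i0} cap),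
    Bas B → (∀ f ∈ Fs, ∀ g ∈ f.subs, g ∈ Fs) → Fs.card ≤ 2 ^ k → k * kk ≤ cap → cap ≤ Fr.m →
    S.Dcds kk →
    ∃ (V' E' : Type) (_ : Fintype V') (_ : Fintype E') (_ : DecidableEq V') (_ : DecidableEq E')
      (G' : Gph V' E') (Fr' : Frame G') (v0' : V') (kk' cap' : ℕ)
      (S' : Valn Fr' v0' X {f | f ∈ Fs ∧ lev B f ≤ i0 + j} cap'),
      Fr'.Free ∅ v0' ∧ k * kk' ≤ cap' ∧ cap' ≤ Fr'.m ∧ C * (k * kk') ≤ Fr'.m ∧ S'.Dcds kk' ∧
      ∀ F ∈ Fs, lev B F ≤ i0 + j → AndOf (fun f => lev B f ≤ i0 ∧ S.True' kk f) F →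
        S'.True' kk' F

theorem red_zero {V E : Type} [Fintype V] [Fintype E] [DecidableEq V] [DecidableEq E]
    {G : Gph V E} (Fr : Frame G) (v0 : V) (h0 : Fr.Free ∅ v0) (kk k C : ℕ) (hk : 4 ≤ k)
    (hC : C * (k * kk) ≤ Fr.m) : Red Fr v0 0 kk k C := by
  intro X B Fs i0 cap S hB hcl _ hkk hcapm hD
  have hC4 : 4 * kk ≤ cap := (Nat.mul_le_mul_right kk hk).trans hkk
  refine ⟨V, E, inferInstance, inferInstance, inferInstance, inferInstance, G, Fr, v0, kk, cap, S,
    h0, hkk, hcapm, hC, hD, ?_⟩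
  intro F hFs hlev hF
  rw [Nat.add_zero] at hlev
  induction hF with
  | base f h => exact h.2
  | and f g _ _ ihf ihg =>
    have m1 : f ∈ (Fm.and f g).subs := by
      simp only [Fm.subs, List.mem_cons, List.mem_append]
      exact Or.inr (Or.inl (Fm.self_mem_subs _))
    have m2 : g ∈ (Fm.and f g).subs := by
      simp only [Fm.subs, List.mem_cons, List.mem_append]
      exact Or.inr (Or.inr (Fm.self_mem_subs _))
    have l1 := (lev_subs hB _ _ m1).trans hlev
    have l2 := (lev_subs hB _ _ m2).trans hlev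
    exact S.and_true hcapm h0 kk hD hC4 f g ⟨hcl _ hFs _ m1, l1⟩ ⟨hcl _ hFs _ m2, l2⟩ ⟨hFs, hlev⟩
      (ihf (hcl _ hFs _ m1) l1) (ihg (hcl _ hFs _ m2) l2)

section
variable {V E : Type} [Fintype V] [Fintype E] [DecidableEq V] [DecidableEq E]
  {G : Gph V E} (Fr : Frame G) (v0 : V)

/-- **the switching step** -/
theorem red_succ {j kk kk' k C Q D Δ R : ℕ} (hkill : Red Fr v0 j kk k C) (hl : G.NoLoop)
    (hdeg : G.Deg Δ) (hQ0 : 0 < Q) (hD : 0 < D) (w0 : A D) (hk : 3 ≤ k) (hR : 0 < R)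
    (θ : ℝ) (hθ0 : 0 ≤ θ) (hθ1 : θ ≤ 1) (hθ : (kk' : ℝ) ≤ θ ^ (2 * (Δ + 2)) * 2 ^ D)
    (hQ : (Δ + 2) * kk' ≤ Q)
    (hm : 2 * (1 + Δ) * ((R + (Δ + 2) * kk') + (R + (Δ + 2) * kk') * kk') ≤ Fr.m)
    (hX : (Fintype.card (TE V E Q) : ℝ) * ((Fintype.card (FI E Q) : ℝ) + 1) *
      (2 * (2 ^ (2 * Δ * (1 + Δ)) * θ)) ≤ 1 / 3)
    (hcard : 2 ^ k * (2 * Fintype.card V) < 2 ^ R) (hK1 : 2 * (1 + Δ) * R ≤ kk)
    (hK2 : 2 * (Δ + 2) * kk' ≤ kk) (hcap : k * kk + (2 * Δ + 10) * kk' ≤ Fr.m) :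
    Red (Fr.blow Q D hQ0 hD) (HV.cen (v0, 0) w0) (j + 1) kk' k C := by
  intro X B Fs i0 cap' S' hB hcl hFc hkk hcapm hD'
  have h3 : 3 * kk' ≤ cap' := (Nat.mul_le_mul_right kk' hk).trans hkk
  set 𝒮 : Finset (Set (Cert V E Q D)) :=
    Fs.image (fun f => certs S' kk' (lst {f | f ∈ Fs ∧ lev B f ≤ i0} f)) with h𝒮def
  have h𝒮 : ∀ 𝒞 ∈ 𝒮, ∀ C ∈ 𝒞, C.1.card ≤ kk' := by
    intro 𝒞 h𝒞 C hC
    rw [h𝒮def, Finset.mem_image] at h𝒞
    obtain ⟨f, _, rfl⟩ := h𝒞
    exact certs_card S' kk' _ C hC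
  have hc1 : 𝒮.card * (2 * Fintype.card V) < 2 ^ R := by
    refine lt_of_le_of_lt (Nat.mul_le_mul_right _ ?_) hcard
    exact Finset.card_image_le.trans hFc
  obtain ⟨α, a, hα, hno⟩ := exists_noLong Fr v0 hl hD hQ0 hdeg kk' R (R + (Δ + 2) * kk') θ hθ0 hθ1
    hθ w0 𝒮 h𝒮 hQ hm hX hc1
  obtain ⟨S, hSD, hST⟩ := switch_logic S' (newCls hB Fs hcl i0) hdeg h3 hR
    (le_trans (Nat.mul_le_mul_left _ (Nat.le_add_right _ _)) hm) hα
    (fun f hf _ => hno _ (by rw [h𝒮def]; exact Finset.mem_image_of_mem _ hf.1)) hD' hK1 hK2 hcap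
  have hkk1 : kk ≤ k * kk := Nat.le_mul_of_pos_left kk (by omega)
  have hkk2 : 2 * kk' ≤ (2 * Δ + 10) * kk' := Nat.mul_le_mul_right kk' (by omega)
  have hh := hkill X B Fs (i0 + 1) (k * kk) S hB hcl hFc le_rfl (by omega) hSD
  rw [show i0 + 1 + j = i0 + (j + 1) by omega] at hh
  obtain ⟨V', E', iV, iE, dV, dE, G', Fr', v0', kk2, cap2, S2, h0, h1, h2, h4, h5, h6⟩ := hh
  refine ⟨V', E', iV, iE, dV, dE, G', Fr', v0', kk2, cap2, S2, h0, h1, h2, h4, h5, ?_⟩
  intro F hFs hlev hF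
  refine h6 F hFs hlev (hF.mono fun f hf h => ?_)
  obtain ⟨h7, h8⟩ := h
  exact ⟨by omega, hST f ⟨hcl F hFs f hf, h7⟩ kk (by omega) h8⟩

end

end FrM
end

section

/-!
Few modular gates (namespace `FrM`): graphs for the iterated switching step (a version of
`FrG.towers`).
-/

set_option linter.unusedSectionVars false

namespace FrM

open Finset Fr56 FrC FrG
open scoped Classical

/-- **graphs for the iterated switching step** -/
theorem towers (C j : ℕ) : ∀ A B : ℕ, ∃ a k0 : ℕ, ∀ k ≥ k0, ∃ (V E : Type) (_ : Fintype V)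
    (_ : Fintype E) (_ : DecidableEq V) (_ : DecidableEq E) (G : Gph V E) (Fr : Frame G) (v0 : V),
    G.NoLoop ∧ G.Deg (dg j) ∧ Fr.Free ∅ v0 ∧ Fintype.card V ≤ (k + 2) ^ a ∧
    Fintype.card E ≤ (k + 2) ^ a ∧ B * k ^ 2 ≤ Fr.m ∧ Red Fr v0 j (A * k) k C := by
  induction j with
  | zero =>
    intro A B
    obtain ⟨B', hB'⟩ : ∃ B', B' = B + C * A := ⟨_, rfl⟩
    refine ⟨(B' + 2 + 1 + 1) + (B' + 2 + 1 + 1) + 1, 4, fun k hk => ?_⟩
    have hx : 2 ≤ k + 2 := by omega
    have e1 : 2 ≤ (k + 2) ^ 1 := by rw [pow_one]; exact hx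
    have e2 : k ^ 2 ≤ (k + 2) ^ 2 := Nat.pow_le_pow_left (by omega) 2
    have e3 : B' * k ^ 2 ≤ (k + 2) ^ (B' + 2) := tw_mul (tw_const B' _ hx) e2
    have hM := tw_add hx e3 e1
    obtain ⟨M, hMd⟩ : ∃ M, M = B' * k ^ 2 + 2 := ⟨_, rfl⟩
    rw [← hMd] at hM
    have : NeZero M := ⟨by omega⟩
    have hfree : tFree (∅ : Finset (JJ M)) ((0, 0) : JJ M) := Or.inl (by simp)
    refine ⟨JJ M, JJ M × Bool, inferInstance, inferInstance, inferInstance, inferInstance,
      torus M, torusFrame M, (0, 0), noLoop_torus (by omega), deg_torus, hfree, ?_, ?_, ?_,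
      red_zero _ _ hfree _ _ _ hk ?_⟩
    · rw [show Fintype.card (JJ M) = M * M by simp [JJ]]
      exact tw_mono hx (tw_mul hM hM) (by omega)
    · rw [show Fintype.card (JJ M × Bool) = M * M * 2 by simp [JJ]]
      exact tw_mono hx (tw_mul (tw_mul hM hM) e1) (by omega)
    · show B * k ^ 2 ≤ M - 1
      have h1 : B * k ^ 2 ≤ B' * k ^ 2 := Nat.mul_le_mul_right _ (by omega)
      omega
    · show C * (k * (A * k)) ≤ M - 1
      have h1 : C * (k * (A * k)) ≤ B' * k ^ 2 := by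
        calc C * (k * (A * k)) = C * A * k ^ 2 := by ring
          _ ≤ B' * k ^ 2 := Nat.mul_le_mul_right _ (by omega)
      omega
  | succ j ih =>
    intro A B
    set Δ := dg j with hΔ
    obtain ⟨a1, k01, h1⟩ := ih (6 * (1 + Δ) + 2 * (Δ + 2) * A)
      (2 * B + 2 * (1 + Δ) * ((3 + (Δ + 2) * A) * (1 + A)) +
        (6 * (1 + Δ) + 2 * (Δ + 2) * A) + (2 * Δ + 10) * A)
    obtain ⟨a, n, hstep⟩ := tw_step a1 A Δ
    obtain ⟨K, hK⟩ := tw_exp a1
    refine ⟨a, k01 + K + 3, fun k hk => ?_⟩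
    obtain ⟨V, E, iV, iE, dV, dE, G, Fr, v0, hnl, hdeg, hfree, hcV, hcE, hm, hkill⟩ :=
      h1 k (by omega)
    obtain ⟨Q, hQ⟩ : ∃ Q, Q = (Δ + 2) * A * k + 1 := ⟨_, rfl⟩
    obtain ⟨Z, hZ⟩ : ∃ Z, Z = 6 * Fintype.card (TE V E Q) * (Fintype.card (FI E Q) + 1) *
      2 ^ (2 * Δ * (1 + Δ)) + 1 := ⟨_, rfl⟩
    obtain ⟨D, hD⟩ : ∃ D, D = (n + 1) * (Nat.log 2 (k + 2) + 1) := ⟨_, rfl⟩
    obtain ⟨hD0, hN, hcV', hcE'⟩ := hstep k _ _ Q _ _ Z D hcV hcE hQ (card_TE' Q) (card_FI' Q) hZ hD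
    have hQ0 : 0 < Q := by omega
    refine ⟨HV (TV V Q) (TE V E Q) D, Xt (TE V E Q) D, inferInstance, inferInstance,
      inferInstance, inferInstance, (G.tall Q).blow D, Fr.blow Q D hQ0 hD0, HV.cen (v0, 0) 0,
      noLoop_blow _ hD0 (noLoop_tall G hnl), ?_, ?_, ?_, ?_, ?_, ?_⟩
    · exact deg_blow (G.tall Q) (noLoop_tall G hnl) (by omega) (deg_tall G hdeg)
    · exact bFree_cen Fr Q D 0 (by simpa [Unc] using hfree)
    · rw [card_HV, card_TV]; exact hcV'
    · rw [card_Xt]; exact hcE'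
    · have h2 : B * k ^ 2 * 2 ≤ Fr.m := by
        refine le_trans ?_ hm
        have : B * k ^ 2 * 2 = 2 * B * k ^ 2 := by ring
        rw [this]
        exact Nat.mul_le_mul_right _ (by omega)
      show B * k ^ 2 ≤ Fr.m / 2
      omega
    · have hk3 : 3 ≤ k := by omega
      have hk1 : 1 ≤ k := by omega
      have hkk : k ≤ k ^ 2 := by nlinarith
      have hZ1 : (1 : ℝ) ≤ Z := by
        have : 1 ≤ Z := by omega
        exact_mod_cast this
      have hZ0 : (0 : ℝ) < Z := by linarith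
      refine red_succ Fr v0 (R := 3 * k) hkill hnl hdeg hQ0 hD0 0 hk3 (by omega) (1 / (Z : ℝ))
        (by positivity) ?_ ?_ ?_ ?_ ?_ ?_ ?_ ?_ ?_
      · rw [div_le_one hZ0]; exact hZ1
      · have h3 : ((A * k : ℕ) : ℝ) * (Z : ℝ) ^ (2 * (Δ + 2)) ≤ 2 ^ D := by exact_mod_cast hN
        rw [one_div, inv_pow, inv_mul_eq_div, le_div_iff₀ (by positivity)]
        exact h3
      · rw [hQ]; rw [← mul_assoc]; omega
      · refine le_trans ?_ hm
        calc 2 * (1 + Δ) * (3 * k + (Δ + 2) * (A * k) + (3 * k + (Δ + 2) * (A * k)) * (A * k))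
            = 2 * (1 + Δ) * ((3 + (Δ + 2) * A) * (k + A * k ^ 2)) := by ring
          _ ≤ 2 * (1 + Δ) * ((3 + (Δ + 2) * A) * (k ^ 2 + A * k ^ 2)) := by gcongr
          _ = 2 * (1 + Δ) * ((3 + (Δ + 2) * A) * (1 + A)) * k ^ 2 := by ring
          _ ≤ _ := Nat.mul_le_mul_right _ (by omega)
      · have hE : (6 : ℝ) * Fintype.card (TE V E Q) * (Fintype.card (FI E Q) + 1) *
            2 ^ (2 * Δ * (1 + Δ)) ≤ Z := by
          have : 6 * Fintype.card (TE V E Q) * (Fintype.card (FI E Q) + 1) *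
            2 ^ (2 * Δ * (1 + Δ)) ≤ Z := by omega
          exact_mod_cast this
        calc (Fintype.card (TE V E Q) : ℝ) * ((Fintype.card (FI E Q) : ℝ) + 1) *
              (2 * (2 ^ (2 * Δ * (1 + Δ)) * (1 / (Z : ℝ))))
            = (6 * Fintype.card (TE V E Q) * (Fintype.card (FI E Q) + 1) *
              2 ^ (2 * Δ * (1 + Δ))) / Z * (1 / 3) := by ring
          _ ≤ 1 * (1 / 3) := by
              gcongr
              rw [div_le_one hZ0]; exact hE
          _ = 1 / 3 := by ring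
      · have h4 := hK k (by omega)
        have h5 : 2 * Fintype.card V < 2 ^ (2 * k) := by omega
        calc 2 ^ k * (2 * Fintype.card V) < 2 ^ k * 2 ^ (2 * k) :=
              (Nat.mul_lt_mul_left (by positivity)).2 h5
          _ = 2 ^ (3 * k) := by rw [← pow_add]; congr 1; ring
      · calc 2 * (1 + Δ) * (3 * k) = 6 * (1 + Δ) * k := by ring
          _ ≤ _ := Nat.mul_le_mul_right _ (by omega)
      · calc 2 * (Δ + 2) * (A * k) = 2 * (Δ + 2) * A * k := by ring
          _ ≤ _ := Nat.mul_le_mul_right _ (by omega)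
      · refine le_trans ?_ hm
        calc k * ((6 * (1 + Δ) + 2 * (Δ + 2) * A) * k) + (2 * Δ + 10) * (A * k)
            = (6 * (1 + Δ) + 2 * (Δ + 2) * A) * k ^ 2 + (2 * Δ + 10) * A * k := by ring
          _ ≤ (6 * (1 + Δ) + 2 * (Δ + 2) * A) * k ^ 2 + (2 * Δ + 10) * A * k ^ 2 := by gcongr
          _ = ((6 * (1 + Δ) + 2 * (Δ + 2) * A) + (2 * Δ + 10) * A) * k ^ 2 := by ring
          _ ≤ _ := Nat.mul_le_mul_right _ (by omega)

end FrM
end
end
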